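import Pool.Agent.H86.RN.NCA0
import Pool.Agent.H86.RN.NCA1
import Pool.Agent.H86.RN.NCA2
import Pool.Agent.H86.RN.NCA3

/-!
# Certificate for the isotopy from the boundary of the disk with five passes to the knot
-/

set_option autoImplicit false

namespace Pool.Agent.H86.RN

open Pool.Agent.H86.RB

theorem aall : Iso aw0 aw35 :=
  ai0
    |>.trans ai1
    |>.trans ai2
    |>.trans ai3
    |>.trans ai4
    |>.trans ai5
    |>.trans ai6
    |>.trans ai7
    |>.trans ai8
    |>.trans ai9
    |>.trans ai10
    |>.trans ai11
    |>.trans ai12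
    |>.trans ai13
    |>.trans ai14
    |>.trans ai15
    |>.trans ai16
    |>.trans ai17
    |>.trans ai18
    |>.trans ai19
    |>.trans ai20
    |>.trans ai21
    |>.trans ai22
    |>.trans ai23
    |>.trans ai24
    |>.trans ai25
    |>.trans ai26
    |>.trans ai27
    |>.trans ai28
    |>.trans ai29
    |>.trans ai30
    |>.trans ai31
    |>.trans ai32
    |>.trans ai33
    |>.trans ai34

end Pool.Agent.H86.RN
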