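import Pool.Agent.H86.RN.NCrt

/-!
# Certificate for the isotopy from the boundary of the disk with five passes to the knot: the intermediate words

The words are the states of the word after every block of 150 moves (found by a computer search).
-/

set_option autoImplicit false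

namespace Pool.Agent.H86.RN

open Pool.Agent.H86.RB

/-- intermediate word -/
def aw0 : Wd := [⟨.cup, 0⟩, ⟨.cup, 1⟩, ⟨.cup, 2⟩, ⟨.cup, 7⟩, ⟨.cup, 8⟩, ⟨.neg, 6⟩, ⟨.neg, 7⟩, ⟨.pos, 5⟩, ⟨.pos, 6⟩, ⟨.neg, 4⟩, ⟨.neg, 3⟩,
   ⟨.pos, 5⟩, ⟨.pos, 4⟩, ⟨.neg, 6⟩, ⟨.neg, 7⟩, ⟨.pos, 5⟩, ⟨.pos, 6⟩, ⟨.neg, 5⟩, ⟨.pos, 7⟩, ⟨.neg, 6⟩, ⟨.neg, 7⟩, ⟨.pos, 5⟩, ⟨.pos, 6⟩,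
   ⟨.neg, 6⟩, ⟨.neg, 7⟩, ⟨.pos, 5⟩, ⟨.pos, 6⟩, ⟨.cap, 3⟩, ⟨.cap, 6⟩, ⟨.cap, 5⟩, ⟨.cap, 2⟩, ⟨.cap, 1⟩]

/-- intermediate word -/
def aw1 : Wd := [⟨.cup, 0⟩, ⟨.cup, 1⟩, ⟨.neg, 2⟩, ⟨.pos, 3⟩, ⟨.cup, 4⟩, ⟨.cup, 1⟩, ⟨.neg, 2⟩, ⟨.cup, 3⟩, ⟨.pos, 2⟩, ⟨.neg, 5⟩, ⟨.neg, 7⟩,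
   ⟨.pos, 6⟩, ⟨.pos, 5⟩, ⟨.neg, 7⟩, ⟨.neg, 6⟩, ⟨.pos, 4⟩, ⟨.pos, 5⟩, ⟨.neg, 7⟩, ⟨.pos, 6⟩, ⟨.pos, 8⟩, ⟨.cap, 7⟩, ⟨.pos, 5⟩, ⟨.pos, 5⟩,
   ⟨.neg, 4⟩, ⟨.neg, 3⟩, ⟨.pos, 6⟩, ⟨.cap, 2⟩, ⟨.pos, 3⟩, ⟨.pos, 2⟩, ⟨.cap, 3⟩, ⟨.cap, 1⟩, ⟨.cap, 1⟩]

/-- intermediate word -/
def aw2 : Wd := [⟨.cup, 0⟩, ⟨.cup, 2⟩, ⟨.pos, 1⟩, ⟨.pos, 3⟩, ⟨.cup, 4⟩, ⟨.neg, 3⟩, ⟨.cup, 1⟩, ⟨.neg, 2⟩, ⟨.neg, 3⟩, ⟨.pos, 4⟩, ⟨.pos, 3⟩,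
   ⟨.neg, 5⟩, ⟨.neg, 4⟩, ⟨.neg, 5⟩, ⟨.cup, 2⟩, ⟨.neg, 3⟩, ⟨.pos, 4⟩, ⟨.pos, 8⟩, ⟨.pos, 6⟩, ⟨.pos, 6⟩, ⟨.neg, 7⟩, ⟨.neg, 9⟩, ⟨.neg, 6⟩,
   ⟨.cap, 8⟩, ⟨.pos, 2⟩, ⟨.cap, 5⟩, ⟨.neg, 4⟩, ⟨.cap, 3⟩, ⟨.pos, 3⟩, ⟨.pos, 2⟩, ⟨.cap, 3⟩, ⟨.cap, 1⟩]

/-- intermediate word -/
def aw3 : Wd := [⟨.cup, 0⟩, ⟨.cup, 1⟩, ⟨.cup, 1⟩, ⟨.neg, 2⟩, ⟨.neg, 4⟩, ⟨.pos, 5⟩, ⟨.neg, 3⟩, ⟨.neg, 3⟩, ⟨.cup, 5⟩, ⟨.pos, 6⟩, ⟨.pos, 4⟩,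
   ⟨.neg, 5⟩, ⟨.pos, 6⟩, ⟨.cup, 2⟩, ⟨.neg, 3⟩, ⟨.pos, 5⟩, ⟨.pos, 6⟩, ⟨.neg, 7⟩, ⟨.neg, 9⟩, ⟨.cap, 8⟩, ⟨.neg, 5⟩, ⟨.neg, 6⟩, ⟨.pos, 4⟩,
   ⟨.cap, 5⟩, ⟨.pos, 2⟩, ⟨.cap, 3⟩, ⟨.cap, 2⟩, ⟨.cap, 1⟩]

/-- intermediate word -/
def aw4 : Wd := [⟨.cup, 1⟩, ⟨.neg, 0⟩, ⟨.cup, 1⟩, ⟨.cup, 2⟩, ⟨.neg, 3⟩, ⟨.neg, 3⟩, ⟨.cup, 5⟩, ⟨.pos, 6⟩, ⟨.neg, 5⟩, ⟨.neg, 4⟩, ⟨.pos, 5⟩,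
   ⟨.pos, 6⟩, ⟨.neg, 7⟩, ⟨.pos, 3⟩, ⟨.neg, 0⟩, ⟨.pos, 4⟩, ⟨.pos, 1⟩, ⟨.cup, 4⟩, ⟨.neg, 3⟩, ⟨.pos, 5⟩, ⟨.neg, 7⟩, ⟨.cap, 6⟩, ⟨.pos, 2⟩,
   ⟨.pos, 2⟩, ⟨.cap, 3⟩, ⟨.cap, 2⟩, ⟨.cap, 2⟩, ⟨.cap, 1⟩]

/-- intermediate word -/
def aw5 : Wd := [⟨.cup, 0⟩, ⟨.cup, 0⟩, ⟨.pos, 3⟩, ⟨.pos, 1⟩, ⟨.cup, 2⟩, ⟨.cup, 6⟩, ⟨.neg, 5⟩, ⟨.neg, 3⟩, ⟨.neg, 3⟩, ⟨.pos, 4⟩, ⟨.neg, 5⟩,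
   ⟨.pos, 1⟩, ⟨.neg, 4⟩, ⟨.pos, 3⟩, ⟨.pos, 6⟩, ⟨.cup, 3⟩, ⟨.pos, 4⟩, ⟨.pos, 6⟩, ⟨.pos, 2⟩, ⟨.pos, 2⟩, ⟨.cap, 3⟩, ⟨.pos, 3⟩, ⟨.neg, 5⟩,
   ⟨.neg, 7⟩, ⟨.cap, 6⟩, ⟨.cap, 2⟩, ⟨.cap, 2⟩, ⟨.cap, 1⟩]

/-- intermediate word -/
def aw6 : Wd := [⟨.cup, 1⟩, ⟨.neg, 0⟩, ⟨.cup, 2⟩, ⟨.cup, 1⟩, ⟨.neg, 3⟩, ⟨.neg, 0⟩, ⟨.cup, 1⟩, ⟨.cup, 2⟩, ⟨.neg, 4⟩, ⟨.neg, 5⟩, ⟨.neg, 5⟩,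
   ⟨.pos, 6⟩, ⟨.neg, 7⟩, ⟨.pos, 5⟩, ⟨.pos, 6⟩, ⟨.neg, 5⟩, ⟨.neg, 3⟩, ⟨.pos, 4⟩, ⟨.pos, 5⟩, ⟨.neg, 3⟩, ⟨.pos, 8⟩, ⟨.neg, 9⟩, ⟨.pos, 8⟩,
   ⟨.cap, 7⟩, ⟨.cap, 4⟩, ⟨.cap, 4⟩, ⟨.cap, 2⟩, ⟨.cap, 1⟩]

/-- intermediate word -/
def aw7 : Wd := [⟨.cup, 0⟩, ⟨.cup, 1⟩, ⟨.neg, 2⟩, ⟨.pos, 3⟩, ⟨.cup, 1⟩, ⟨.cup, 2⟩, ⟨.neg, 4⟩, ⟨.neg, 3⟩, ⟨.neg, 5⟩, ⟨.neg, 5⟩, ⟨.cup, 8⟩,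
   ⟨.neg, 7⟩, ⟨.pos, 6⟩, ⟨.neg, 7⟩, ⟨.neg, 6⟩, ⟨.pos, 8⟩, ⟨.pos, 5⟩, ⟨.neg, 9⟩, ⟨.pos, 8⟩, ⟨.neg, 7⟩, ⟨.cap, 6⟩, ⟨.neg, 6⟩, ⟨.pos, 4⟩,
   ⟨.pos, 2⟩, ⟨.cap, 3⟩, ⟨.cap, 3⟩, ⟨.cap, 2⟩, ⟨.cap, 1⟩]

/-- intermediate word -/
def aw8 : Wd := [⟨.cup, 0⟩, ⟨.cup, 1⟩, ⟨.cup, 1⟩, ⟨.neg, 2⟩, ⟨.cup, 2⟩, ⟨.neg, 6⟩, ⟨.cup, 7⟩, ⟨.neg, 3⟩, ⟨.pos, 2⟩, ⟨.pos, 9⟩, ⟨.neg, 3⟩,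
   ⟨.neg, 5⟩, ⟨.neg, 5⟩, ⟨.pos, 6⟩, ⟨.pos, 8⟩, ⟨.neg, 7⟩, ⟨.neg, 6⟩, ⟨.pos, 8⟩, ⟨.neg, 9⟩, ⟨.neg, 7⟩, ⟨.neg, 8⟩, ⟨.pos, 7⟩, ⟨.neg, 6⟩,
   ⟨.cap, 5⟩, ⟨.cap, 4⟩, ⟨.cap, 3⟩, ⟨.cap, 2⟩, ⟨.cap, 1⟩]

/-- intermediate word -/
def aw9 : Wd := [⟨.cup, 0⟩, ⟨.cup, 3⟩, ⟨.neg, 2⟩, ⟨.cup, 3⟩, ⟨.pos, 4⟩, ⟨.pos, 1⟩, ⟨.cup, 2⟩, ⟨.pos, 1⟩, ⟨.neg, 5⟩, ⟨.cup, 3⟩, ⟨.pos, 2⟩,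
   ⟨.pos, 2⟩, ⟨.neg, 5⟩, ⟨.neg, 5⟩, ⟨.neg, 6⟩, ⟨.pos, 7⟩, ⟨.pos, 8⟩, ⟨.neg, 9⟩, ⟨.pos, 8⟩, ⟨.neg, 7⟩, ⟨.pos, 5⟩, ⟨.neg, 8⟩, ⟨.cap, 6⟩,
   ⟨.neg, 5⟩, ⟨.cap, 4⟩, ⟨.cap, 3⟩, ⟨.cap, 2⟩, ⟨.cap, 1⟩]

/-- intermediate word -/
def aw10 : Wd := [⟨.cup, 1⟩, ⟨.neg, 0⟩, ⟨.cup, 0⟩, ⟨.cup, 1⟩, ⟨.pos, 3⟩, ⟨.neg, 2⟩, ⟨.neg, 3⟩, ⟨.cup, 5⟩, ⟨.pos, 6⟩, ⟨.neg, 5⟩, ⟨.pos, 4⟩,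
   ⟨.neg, 3⟩, ⟨.neg, 4⟩, ⟨.cup, 2⟩, ⟨.neg, 3⟩, ⟨.pos, 4⟩, ⟨.pos, 2⟩, ⟨.pos, 7⟩, ⟨.cap, 3⟩, ⟨.pos, 6⟩, ⟨.neg, 7⟩, ⟨.pos, 4⟩, ⟨.neg, 5⟩,
   ⟨.neg, 4⟩, ⟨.cap, 6⟩, ⟨.cap, 3⟩, ⟨.cap, 2⟩, ⟨.cap, 1⟩]

/-- intermediate word -/
def aw11 : Wd := [⟨.cup, 0⟩, ⟨.cup, 2⟩, ⟨.pos, 1⟩, ⟨.neg, 3⟩, ⟨.cup, 2⟩, ⟨.cup, 7⟩, ⟨.pos, 5⟩, ⟨.neg, 6⟩, ⟨.neg, 5⟩, ⟨.pos, 4⟩, ⟨.neg, 3⟩,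
   ⟨.cup, 8⟩, ⟨.neg, 7⟩, ⟨.neg, 7⟩, ⟨.pos, 6⟩, ⟨.neg, 5⟩, ⟨.neg, 6⟩, ⟨.neg, 8⟩, ⟨.pos, 7⟩, ⟨.pos, 8⟩, ⟨.neg, 6⟩, ⟨.neg, 5⟩, ⟨.cap, 4⟩,
   ⟨.neg, 7⟩, ⟨.pos, 5⟩, ⟨.pos, 4⟩, ⟨.cap, 3⟩, ⟨.cap, 4⟩, ⟨.cap, 2⟩, ⟨.cap, 1⟩]

/-- intermediate word -/
def aw12 : Wd := [⟨.cup, 0⟩, ⟨.cup, 2⟩, ⟨.cup, 4⟩, ⟨.neg, 3⟩, ⟨.pos, 1⟩, ⟨.pos, 2⟩, ⟨.neg, 3⟩, ⟨.pos, 5⟩, ⟨.cup, 6⟩, ⟨.neg, 5⟩, ⟨.neg, 5⟩,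
   ⟨.neg, 4⟩, ⟨.pos, 5⟩, ⟨.pos, 6⟩, ⟨.neg, 5⟩, ⟨.pos, 3⟩, ⟨.neg, 4⟩, ⟨.neg, 3⟩, ⟨.pos, 2⟩, ⟨.pos, 5⟩, ⟨.pos, 4⟩, ⟨.cap, 3⟩, ⟨.cap, 2⟩,
   ⟨.neg, 1⟩, ⟨.cap, 2⟩, ⟨.cap, 1⟩]

/-- intermediate word -/
def aw13 : Wd := [⟨.cup, 0⟩, ⟨.cup, 1⟩, ⟨.pos, 3⟩, ⟨.cup, 4⟩, ⟨.neg, 3⟩, ⟨.cup, 0⟩, ⟨.pos, 2⟩, ⟨.pos, 1⟩, ⟨.neg, 5⟩, ⟨.pos, 2⟩, ⟨.neg, 3⟩,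
   ⟨.neg, 4⟩, ⟨.pos, 5⟩, ⟨.pos, 6⟩, ⟨.pos, 3⟩, ⟨.neg, 5⟩, ⟨.neg, 7⟩, ⟨.neg, 4⟩, ⟨.neg, 3⟩, ⟨.pos, 5⟩, ⟨.cap, 6⟩, ⟨.pos, 2⟩, ⟨.neg, 3⟩,
   ⟨.cap, 4⟩, ⟨.cap, 2⟩, ⟨.cap, 1⟩]

/-- intermediate word -/
def aw14 : Wd := [⟨.cup, 0⟩, ⟨.cup, 2⟩, ⟨.neg, 1⟩, ⟨.cup, 1⟩, ⟨.pos, 2⟩, ⟨.pos, 5⟩, ⟨.cup, 6⟩, ⟨.neg, 5⟩, ⟨.neg, 5⟩, ⟨.neg, 3⟩, ⟨.neg, 4⟩,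
   ⟨.pos, 5⟩, ⟨.pos, 6⟩, ⟨.neg, 7⟩, ⟨.neg, 5⟩, ⟨.neg, 4⟩, ⟨.neg, 3⟩, ⟨.pos, 2⟩, ⟨.pos, 4⟩, ⟨.neg, 3⟩, ⟨.cap, 2⟩, ⟨.pos, 3⟩, ⟨.cap, 4⟩,
   ⟨.cap, 2⟩, ⟨.pos, 1⟩, ⟨.cap, 0⟩]

/-- intermediate word -/
def aw15 : Wd := [⟨.cup, 1⟩, ⟨.neg, 0⟩, ⟨.cup, 0⟩, ⟨.neg, 1⟩, ⟨.cup, 3⟩, ⟨.cup, 2⟩, ⟨.neg, 1⟩, ⟨.neg, 0⟩, ⟨.pos, 6⟩, ⟨.neg, 3⟩, ⟨.pos, 4⟩,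
   ⟨.neg, 5⟩, ⟨.pos, 6⟩, ⟨.neg, 4⟩, ⟨.neg, 5⟩, ⟨.pos, 3⟩, ⟨.neg, 4⟩, ⟨.neg, 3⟩, ⟨.pos, 5⟩, ⟨.pos, 2⟩, ⟨.pos, 2⟩, ⟨.cap, 3⟩, ⟨.cap, 2⟩,
   ⟨.pos, 2⟩, ⟨.cap, 3⟩, ⟨.cap, 1⟩]

/-- intermediate word -/
def aw16 : Wd := [⟨.cup, 1⟩, ⟨.neg, 0⟩, ⟨.cup, 1⟩, ⟨.cup, 0⟩, ⟨.pos, 1⟩, ⟨.pos, 2⟩, ⟨.pos, 1⟩, ⟨.neg, 3⟩, ⟨.cup, 5⟩, ⟨.pos, 4⟩, ⟨.pos, 6⟩,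
   ⟨.neg, 5⟩, ⟨.neg, 4⟩, ⟨.pos, 6⟩, ⟨.neg, 5⟩, ⟨.neg, 4⟩, ⟨.neg, 3⟩, ⟨.pos, 2⟩, ⟨.pos, 2⟩, ⟨.neg, 3⟩, ⟨.cap, 4⟩, ⟨.pos, 3⟩, ⟨.pos, 4⟩,
   ⟨.cap, 2⟩, ⟨.cap, 1⟩, ⟨.cap, 1⟩]

/-- intermediate word -/
def aw17 : Wd := [⟨.cup, 0⟩, ⟨.cup, 2⟩, ⟨.cup, 3⟩, ⟨.pos, 5⟩, ⟨.pos, 4⟩, ⟨.cup, 3⟩, ⟨.pos, 1⟩, ⟨.pos, 2⟩, ⟨.neg, 3⟩, ⟨.neg, 5⟩, ⟨.neg, 4⟩,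
   ⟨.pos, 5⟩, ⟨.pos, 6⟩, ⟨.neg, 7⟩, ⟨.neg, 5⟩, ⟨.neg, 4⟩, ⟨.neg, 3⟩, ⟨.pos, 1⟩, ⟨.pos, 2⟩, ⟨.pos, 2⟩, ⟨.pos, 4⟩, ⟨.cap, 3⟩, ⟨.neg, 2⟩,
   ⟨.cap, 3⟩, ⟨.cap, 2⟩, ⟨.cap, 1⟩]

/-- intermediate word -/
def aw18 : Wd := [⟨.cup, 1⟩, ⟨.neg, 0⟩, ⟨.cup, 2⟩, ⟨.neg, 1⟩, ⟨.cup, 1⟩, ⟨.cup, 1⟩, ⟨.neg, 5⟩, ⟨.pos, 2⟩, ⟨.pos, 4⟩, ⟨.neg, 3⟩, ⟨.neg, 4⟩,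
   ⟨.neg, 6⟩, ⟨.pos, 5⟩, ⟨.neg, 4⟩, ⟨.neg, 3⟩, ⟨.neg, 0⟩, ⟨.pos, 1⟩, ⟨.pos, 2⟩, ⟨.neg, 3⟩, ⟨.pos, 6⟩, ⟨.neg, 7⟩, ⟨.pos, 5⟩, ⟨.cap, 4⟩,
   ⟨.cap, 4⟩, ⟨.cap, 2⟩, ⟨.cap, 1⟩]

/-- intermediate word -/
def aw19 : Wd := [⟨.cup, 1⟩, ⟨.neg, 0⟩, ⟨.cup, 1⟩, ⟨.cup, 1⟩, ⟨.pos, 4⟩, ⟨.neg, 3⟩, ⟨.cup, 2⟩, ⟨.neg, 3⟩, ⟨.neg, 4⟩, ⟨.neg, 1⟩, ⟨.neg, 0⟩,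
   ⟨.pos, 3⟩, ⟨.neg, 6⟩, ⟨.pos, 5⟩, ⟨.neg, 4⟩, ⟨.neg, 3⟩, ⟨.pos, 1⟩, ⟨.pos, 2⟩, ⟨.pos, 6⟩, ⟨.pos, 5⟩, ⟨.pos, 4⟩, ⟨.cap, 3⟩, ⟨.cap, 2⟩,
   ⟨.neg, 1⟩, ⟨.cap, 2⟩, ⟨.cap, 1⟩]

/-- intermediate word -/
def aw20 : Wd := [⟨.cup, 1⟩, ⟨.neg, 0⟩, ⟨.cup, 0⟩, ⟨.neg, 1⟩, ⟨.cup, 4⟩, ⟨.neg, 3⟩, ⟨.neg, 3⟩, ⟨.cup, 2⟩, ⟨.pos, 4⟩, ⟨.neg, 1⟩, ⟨.neg, 0⟩,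
   ⟨.neg, 3⟩, ⟨.neg, 4⟩, ⟨.neg, 6⟩, ⟨.pos, 5⟩, ⟨.pos, 6⟩, ⟨.neg, 4⟩, ⟨.neg, 3⟩, ⟨.pos, 2⟩, ⟨.pos, 5⟩, ⟨.neg, 3⟩, ⟨.cap, 4⟩, ⟨.cap, 2⟩,
   ⟨.neg, 1⟩, ⟨.cap, 2⟩, ⟨.cap, 1⟩]

/-- intermediate word -/
def aw21 : Wd := [⟨.cup, 0⟩, ⟨.cup, 2⟩, ⟨.cup, 3⟩, ⟨.cup, 2⟩, ⟨.neg, 3⟩, ⟨.pos, 1⟩, ⟨.pos, 2⟩, ⟨.neg, 3⟩, ⟨.pos, 7⟩, ⟨.neg, 6⟩, ⟨.pos, 5⟩,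
   ⟨.neg, 4⟩, ⟨.pos, 3⟩, ⟨.pos, 5⟩, ⟨.neg, 4⟩, ⟨.neg, 3⟩, ⟨.pos, 2⟩, ⟨.neg, 3⟩, ⟨.cap, 2⟩, ⟨.pos, 3⟩, ⟨.pos, 4⟩, ⟨.cap, 5⟩, ⟨.pos, 3⟩,
   ⟨.cap, 2⟩, ⟨.cap, 1⟩]

/-- intermediate word -/
def aw22 : Wd := [⟨.cup, 0⟩, ⟨.cup, 1⟩, ⟨.cup, 2⟩, ⟨.neg, 4⟩, ⟨.neg, 3⟩, ⟨.pos, 4⟩, ⟨.pos, 5⟩, ⟨.cup, 6⟩, ⟨.pos, 5⟩, ⟨.pos, 5⟩, ⟨.pos, 4⟩,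
   ⟨.neg, 3⟩, ⟨.neg, 4⟩, ⟨.pos, 5⟩, ⟨.neg, 4⟩, ⟨.neg, 3⟩, ⟨.neg, 7⟩, ⟨.neg, 6⟩, ⟨.pos, 2⟩, ⟨.pos, 7⟩, ⟨.neg, 3⟩, ⟨.cap, 2⟩, ⟨.cap, 3⟩,
   ⟨.cap, 2⟩, ⟨.cap, 1⟩]

/-- intermediate word -/
def aw23 : Wd := [⟨.cup, 0⟩, ⟨.cup, 1⟩, ⟨.cup, 2⟩, ⟨.neg, 4⟩, ⟨.neg, 3⟩, ⟨.pos, 1⟩, ⟨.neg, 3⟩, ⟨.pos, 5⟩, ⟨.cup, 7⟩, ⟨.pos, 6⟩, ⟨.pos, 5⟩,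
   ⟨.pos, 5⟩, ⟨.neg, 4⟩, ⟨.pos, 5⟩, ⟨.pos, 3⟩, ⟨.neg, 4⟩, ⟨.neg, 3⟩, ⟨.pos, 5⟩, ⟨.cap, 6⟩, ⟨.pos, 2⟩, ⟨.pos, 2⟩, ⟨.pos, 1⟩, ⟨.cap, 3⟩,
   ⟨.cap, 2⟩, ⟨.cap, 1⟩]

/-- intermediate word -/
def aw24 : Wd := [⟨.cup, 0⟩, ⟨.cup, 2⟩, ⟨.cup, 3⟩, ⟨.pos, 2⟩, ⟨.pos, 1⟩, ⟨.pos, 2⟩, ⟨.cup, 7⟩, ⟨.pos, 6⟩, ⟨.pos, 6⟩, ⟨.pos, 5⟩, ⟨.neg, 3⟩,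
   ⟨.neg, 4⟩, ⟨.pos, 3⟩, ⟨.pos, 6⟩, ⟨.pos, 5⟩, ⟨.neg, 4⟩, ⟨.neg, 3⟩, ⟨.pos, 2⟩, ⟨.neg, 3⟩, ⟨.cap, 2⟩, ⟨.pos, 1⟩, ⟨.neg, 4⟩, ⟨.cap, 3⟩,
   ⟨.cap, 2⟩, ⟨.cap, 1⟩]

/-- intermediate word -/
def aw25 : Wd := [⟨.cup, 0⟩, ⟨.neg, 1⟩, ⟨.cup, 0⟩, ⟨.cup, 1⟩, ⟨.pos, 2⟩, ⟨.pos, 4⟩, ⟨.cup, 3⟩, ⟨.pos, 5⟩, ⟨.pos, 6⟩, ⟨.pos, 2⟩, ⟨.neg, 4⟩,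
   ⟨.pos, 5⟩, ⟨.neg, 1⟩, ⟨.neg, 0⟩, ⟨.neg, 4⟩, ⟨.neg, 3⟩, ⟨.pos, 4⟩, ⟨.pos, 2⟩, ⟨.pos, 2⟩, ⟨.cap, 3⟩, ⟨.pos, 1⟩, ⟨.pos, 3⟩, ⟨.cap, 2⟩,
   ⟨.cap, 2⟩, ⟨.cap, 1⟩]

/-- intermediate word -/
def aw26 : Wd := [⟨.cup, 0⟩, ⟨.cup, 1⟩, ⟨.cup, 4⟩, ⟨.cup, 1⟩, ⟨.neg, 7⟩, ⟨.pos, 2⟩, ⟨.pos, 4⟩, ⟨.neg, 3⟩, ⟨.pos, 6⟩, ⟨.neg, 4⟩, ⟨.neg, 5⟩,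
   ⟨.pos, 4⟩, ⟨.pos, 6⟩, ⟨.pos, 5⟩, ⟨.neg, 4⟩, ⟨.pos, 7⟩, ⟨.neg, 3⟩, ⟨.pos, 4⟩, ⟨.cap, 5⟩, ⟨.pos, 2⟩, ⟨.neg, 3⟩, ⟨.cap, 2⟩, ⟨.neg, 0⟩,
   ⟨.cap, 2⟩, ⟨.cap, 1⟩]

/-- intermediate word -/
def aw27 : Wd := [⟨.cup, 0⟩, ⟨.cup, 2⟩, ⟨.neg, 3⟩, ⟨.pos, 2⟩, ⟨.cup, 1⟩, ⟨.cup, 3⟩, ⟨.pos, 2⟩, ⟨.pos, 4⟩, ⟨.pos, 5⟩, ⟨.pos, 6⟩, ⟨.neg, 3⟩,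
   ⟨.neg, 4⟩, ⟨.pos, 3⟩, ⟨.pos, 5⟩, ⟨.neg, 6⟩, ⟨.pos, 5⟩, ⟨.cap, 4⟩, ⟨.neg, 3⟩, ⟨.pos, 5⟩, ⟨.pos, 4⟩, ⟨.pos, 4⟩, ⟨.cap, 3⟩, ⟨.cap, 2⟩,
   ⟨.pos, 1⟩, ⟨.cap, 0⟩]

/-- intermediate word -/
def aw28 : Wd := [⟨.cup, 0⟩, ⟨.cup, 0⟩, ⟨.cup, 1⟩, ⟨.cup, 2⟩, ⟨.pos, 4⟩, ⟨.neg, 3⟩, ⟨.neg, 7⟩, ⟨.pos, 6⟩, ⟨.pos, 5⟩, ⟨.pos, 6⟩, ⟨.neg, 4⟩,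
   ⟨.pos, 3⟩, ⟨.pos, 5⟩, ⟨.neg, 4⟩, ⟨.neg, 6⟩, ⟨.pos, 7⟩, ⟨.cap, 5⟩, ⟨.neg, 3⟩, ⟨.neg, 1⟩, ⟨.pos, 2⟩, ⟨.neg, 3⟩, ⟨.cap, 2⟩, ⟨.cap, 2⟩,
   ⟨.neg, 0⟩, ⟨.cap, 1⟩]

/-- intermediate word -/
def aw29 : Wd := [⟨.cup, 0⟩, ⟨.cup, 1⟩, ⟨.cup, 2⟩, ⟨.neg, 3⟩, ⟨.cup, 6⟩, ⟨.neg, 7⟩, ⟨.pos, 6⟩, ⟨.neg, 4⟩, ⟨.neg, 5⟩, ⟨.pos, 4⟩, ⟨.pos, 3⟩,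
   ⟨.pos, 6⟩, ⟨.pos, 4⟩, ⟨.pos, 5⟩, ⟨.neg, 4⟩, ⟨.cap, 5⟩, ⟨.neg, 3⟩, ⟨.neg, 1⟩, ⟨.neg, 0⟩, ⟨.pos, 5⟩, ⟨.pos, 2⟩, ⟨.neg, 3⟩, ⟨.cap, 2⟩,
   ⟨.cap, 2⟩, ⟨.cap, 1⟩]

/-- intermediate word -/
def aw30 : Wd := [⟨.cup, 1⟩, ⟨.cup, 0⟩, ⟨.cup, 1⟩, ⟨.cup, 3⟩, ⟨.neg, 4⟩, ⟨.pos, 6⟩, ⟨.pos, 6⟩, ⟨.neg, 5⟩, ⟨.pos, 4⟩, ⟨.pos, 6⟩, ⟨.neg, 5⟩,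
   ⟨.pos, 2⟩, ⟨.neg, 1⟩, ⟨.neg, 5⟩, ⟨.neg, 4⟩, ⟨.neg, 5⟩, ⟨.cap, 3⟩, ⟨.pos, 2⟩, ⟨.neg, 3⟩, ⟨.pos, 5⟩, ⟨.cap, 4⟩, ⟨.cap, 2⟩, ⟨.neg, 0⟩,
   ⟨.cap, 1⟩]

/-- intermediate word -/
def aw31 : Wd := [⟨.cup, 1⟩, ⟨.pos, 0⟩, ⟨.cup, 2⟩, ⟨.pos, 0⟩, ⟨.neg, 1⟩, ⟨.cup, 0⟩, ⟨.pos, 2⟩, ⟨.pos, 1⟩, ⟨.neg, 3⟩, ⟨.pos, 5⟩, ⟨.neg, 2⟩,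
   ⟨.neg, 2⟩, ⟨.neg, 1⟩, ⟨.neg, 1⟩, ⟨.neg, 0⟩, ⟨.pos, 2⟩, ⟨.neg, 3⟩, ⟨.cap, 4⟩, ⟨.cap, 2⟩, ⟨.cap, 1⟩]

/-- intermediate word -/
def aw32 : Wd := [⟨.cup, 0⟩, ⟨.cup, 3⟩, ⟨.pos, 2⟩, ⟨.pos, 2⟩, ⟨.cup, 4⟩, ⟨.neg, 3⟩, ⟨.neg, 3⟩, ⟨.neg, 2⟩, ⟨.pos, 5⟩, ⟨.neg, 1⟩, ⟨.neg, 1⟩,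
   ⟨.pos, 3⟩, ⟨.pos, 2⟩, ⟨.pos, 4⟩, ⟨.neg, 3⟩, ⟨.neg, 1⟩, ⟨.neg, 0⟩, ⟨.cap, 2⟩, ⟨.cap, 2⟩, ⟨.cap, 1⟩]

/-- intermediate word -/
def aw33 : Wd := [⟨.cup, 0⟩, ⟨.cup, 3⟩, ⟨.pos, 2⟩, ⟨.pos, 2⟩, ⟨.neg, 1⟩, ⟨.pos, 2⟩, ⟨.neg, 1⟩, ⟨.pos, 3⟩, ⟨.pos, 2⟩, ⟨.pos, 2⟩, ⟨.neg, 0⟩,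
   ⟨.neg, 1⟩, ⟨.cup, 1⟩, ⟨.pos, 2⟩, ⟨.pos, 4⟩, ⟨.pos, 5⟩, ⟨.cap, 3⟩, ⟨.neg, 1⟩, ⟨.cap, 0⟩, ⟨.cap, 0⟩]

/-- intermediate word -/
def aw34 : Wd := [⟨.cup, 0⟩, ⟨.neg, 1⟩, ⟨.cup, 2⟩, ⟨.neg, 1⟩, ⟨.neg, 0⟩, ⟨.pos, 3⟩, ⟨.pos, 1⟩, ⟨.neg, 1⟩, ⟨.neg, 0⟩, ⟨.pos, 1⟩, ⟨.neg, 2⟩,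
   ⟨.pos, 1⟩, ⟨.pos, 1⟩, ⟨.pos, 2⟩, ⟨.pos, 2⟩, ⟨.pos, 3⟩, ⟨.neg, 1⟩, ⟨.pos, 0⟩, ⟨.cap, 1⟩, ⟨.cap, 0⟩]

/-- intermediate word -/
def aw35 : Wd := [⟨.cup, 0⟩, ⟨.cup, 3⟩, ⟨.neg, 2⟩, ⟨.pos, 1⟩, ⟨.neg, 2⟩, ⟨.pos, 1⟩, ⟨.neg, 2⟩, ⟨.pos, 1⟩, ⟨.neg, 2⟩, ⟨.pos, 1⟩, ⟨.neg, 2⟩,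
   ⟨.pos, 1⟩, ⟨.cap, 3⟩, ⟨.cap, 0⟩]

end Pool.Agent.H86.RN
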