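import Pool.Agent.H86.RN.NCBW

/-!
# Certificate for the isotopy from the boundary of the disk with nine passes to the sum: blocks 0 to 2
-/

set_option autoImplicit false

namespace Pool.Agent.H86.RN

open Pool.Agent.H86.RB

theorem bi0 : Iso bw0 bw1 :=
  iso_of_tst 110
    0x3001340138013cf7440048004d37240028002deb340138003c004000440048004c00518a4c01200025af2c013001340038003c004000456f1c012001240128012c01300134b63c0040014401490a440018011c012001240128012cf72800240020001c00340038003d373801340130012c0028002400140018001c00200025eb2c013000340038003c00418a3c013801340130011000140018001c00200026082a4d240028002c00300034000d07110d0d47114d0d87118d0c0010001400180008010c47104d0c010448088dc001bc01b800b400b104ad4ba8c2a50d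
    bw0 bw1 (by decide +kernel)

theorem bi1 : Iso bw1 bw2 :=
  iso_of_tst 110
    0x7c00818a7c01500055af5c016001640068006c007000756f4c015001540158015c01600164b66c0070017401790a740048014c015001540158015cf7640068006d37440048004deb540158005c006000640068006c00718a6c01400045af4c015001540058005c006000656f3c014001440148014c01500154b65c0060016401690a640038013c014001440148014cf7540058005d37340038003deb440148004c005000540058005c00618a5c01300035af3c014001440048004c005000556f2c013001340138013c01400144b64c0050015401590a540028012c01
    bw1 bw2 (by decide +kernel)

theorem bi2 : Iso bw2 bw3 :=
  iso_of_tst 110
    0x340038003c0018001c002000240028002c003000140018001c002000240028002c001000140018001c0020000c001000140018001c0008000c001000040008000c000000704a74426c01708a74457801694a6d057000740078007d8a81457801740170016c0185ca898580017c017801740170018c00640068006c00720a760278007c008000840088008c009000600065af6c017001740078007c008000856f5c016001640168016c01700174b67c0080018401890a840058015c016001640168016cf7740078007d37540058005deb640168006c00700074007800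
    bw2 bw3 (by decide +kernel)

end Pool.Agent.H86.RN
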