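import Pool.Agent.H86.RN.NCBW

/-!
# Certificate for the isotopy from the boundary of the disk with nine passes to the sum: blocks 3 to 5
-/

set_option autoImplicit false

namespace Pool.Agent.H86.RN

open Pool.Agent.H86.RB

theorem bi3 : Iso bw3 bw4 :=
  iso_of_tst 110
    0x70006c006800640060005c005800540050004c004800440040003c1138003c0040007800740070006c006800640060005c005800540050004c00480044004051340038003c004000440048004c005000540058005c006000640068006c003000340038003c004000440048004c005000540058005c0060002c003000340038003c004000440048004c005000540058005c0028002c003000340038003c004000440048004c005000240028002c003000340038003c004000440048004c002000240028002c003000340038003c0040001c002000240028002c003000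
    bw3 bw4 (by decide +kernel)

theorem bi4 : Iso bw4 bw5 :=
  iso_of_tst 110
    0x480060005c005800540050004c004800440040483c00408644004800640060005c005800540050004c0048004486400044c848006800640060005c005800540050004c004800440040483c004086440048006c006800640060005c005800540050004c0048004486400044c8480070006c006800640060005c005800540050004c004800440040483c00408644004800740070006c006800640060005c005800540050004c0048004486400044c848007800740070006c006800640060005c005800540050004c004800440040483c004086440048007c0078007400
    bw4 bw5 (by decide +kernel)

theorem bi5 : Iso bw5 bw6 :=
  iso_of_tst 42
    0x68003801380e3c00408e4800440040003c0038003c4e400044004800540050004c0048004486400044c848005800540050004c004800440040483c004086440048005c005800540050004c0048004486400044c8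
    bw5 bw6 (by decide +kernel)

end Pool.Agent.H86.RN
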