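import Pool.Agent.H86.RN.NCB0
import Pool.Agent.H86.RN.NCB1

/-!
# Certificate for the isotopy from the boundary of the disk with nine passes to the sum
-/

set_option autoImplicit false

namespace Pool.Agent.H86.RN

open Pool.Agent.H86.RB

theorem ball : Iso bw0 bw6 :=
  bi0
    |>.trans bi1
    |>.trans bi2
    |>.trans bi3
    |>.trans bi4
    |>.trans bi5

end Pool.Agent.H86.RN
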