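import Pool.Agent.H86.RN.NCrt

/-!
# Certificate for the isotopy from the boundary of the disk with nine passes to the sum: the intermediate words

The words are the states of the word after every block of 110 moves (found by a computer search).
-/

set_option autoImplicit false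

namespace Pool.Agent.H86.RN

open Pool.Agent.H86.RB

/-- intermediate word -/
def bw0 : Wd := [⟨.cup, 0⟩, ⟨.cup, 1⟩, ⟨.cup, 2⟩, ⟨.cup, 7⟩, ⟨.cup, 8⟩, ⟨.neg, 6⟩, ⟨.neg, 7⟩, ⟨.pos, 5⟩, ⟨.pos, 6⟩, ⟨.neg, 4⟩, ⟨.neg, 3⟩,
   ⟨.pos, 5⟩, ⟨.pos, 4⟩, ⟨.neg, 6⟩, ⟨.neg, 7⟩, ⟨.pos, 5⟩, ⟨.pos, 6⟩, ⟨.neg, 4⟩, ⟨.neg, 3⟩, ⟨.pos, 5⟩, ⟨.pos, 4⟩, ⟨.neg, 6⟩, ⟨.neg, 7⟩,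
   ⟨.pos, 5⟩, ⟨.pos, 6⟩, ⟨.neg, 4⟩, ⟨.neg, 3⟩, ⟨.pos, 5⟩, ⟨.pos, 4⟩, ⟨.neg, 6⟩, ⟨.neg, 7⟩, ⟨.pos, 5⟩, ⟨.pos, 6⟩, ⟨.neg, 4⟩, ⟨.neg, 3⟩,
   ⟨.pos, 5⟩, ⟨.pos, 4⟩, ⟨.neg, 6⟩, ⟨.neg, 7⟩, ⟨.pos, 5⟩, ⟨.pos, 6⟩, ⟨.cap, 3⟩, ⟨.cap, 6⟩, ⟨.cap, 5⟩, ⟨.cap, 2⟩, ⟨.cap, 1⟩]

/-- intermediate word -/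
def bw1 : Wd := [⟨.cup, 0⟩, ⟨.cup, 2⟩, ⟨.cup, 1⟩, ⟨.cup, 4⟩, ⟨.cup, 9⟩, ⟨.neg, 8⟩, ⟨.pos, 3⟩, ⟨.neg, 2⟩, ⟨.pos, 7⟩, ⟨.neg, 8⟩, ⟨.pos, 5⟩,
   ⟨.pos, 6⟩, ⟨.pos, 3⟩, ⟨.pos, 7⟩, ⟨.pos, 8⟩, ⟨.pos, 9⟩, ⟨.pos, 4⟩, ⟨.pos, 3⟩, ⟨.pos, 2⟩, ⟨.pos, 1⟩, ⟨.pos, 5⟩, ⟨.pos, 4⟩, ⟨.pos, 6⟩,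
   ⟨.neg, 4⟩, ⟨.neg, 3⟩, ⟨.pos, 5⟩, ⟨.pos, 4⟩, ⟨.neg, 6⟩, ⟨.neg, 7⟩, ⟨.pos, 5⟩, ⟨.pos, 6⟩, ⟨.neg, 4⟩, ⟨.neg, 3⟩, ⟨.pos, 5⟩, ⟨.pos, 4⟩,
   ⟨.neg, 6⟩, ⟨.neg, 7⟩, ⟨.pos, 5⟩, ⟨.pos, 6⟩, ⟨.neg, 4⟩, ⟨.neg, 3⟩, ⟨.pos, 5⟩, ⟨.pos, 4⟩, ⟨.neg, 6⟩, ⟨.neg, 7⟩, ⟨.pos, 5⟩, ⟨.pos, 6⟩,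
   ⟨.neg, 4⟩, ⟨.neg, 3⟩, ⟨.pos, 5⟩, ⟨.pos, 4⟩, ⟨.cap, 8⟩, ⟨.cap, 7⟩, ⟨.cap, 2⟩, ⟨.cap, 1⟩, ⟨.cap, 1⟩]

/-- intermediate word -/
def bw2 : Wd := [⟨.cup, 0⟩, ⟨.cup, 2⟩, ⟨.cup, 1⟩, ⟨.cup, 4⟩, ⟨.cup, 9⟩, ⟨.neg, 8⟩, ⟨.pos, 3⟩, ⟨.neg, 2⟩, ⟨.pos, 7⟩, ⟨.neg, 8⟩, ⟨.pos, 3⟩,
   ⟨.neg, 2⟩, ⟨.pos, 7⟩, ⟨.neg, 8⟩, ⟨.pos, 3⟩, ⟨.neg, 2⟩, ⟨.pos, 7⟩, ⟨.neg, 8⟩, ⟨.pos, 3⟩, ⟨.neg, 2⟩, ⟨.pos, 7⟩, ⟨.pos, 5⟩, ⟨.pos, 6⟩,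
   ⟨.pos, 7⟩, ⟨.pos, 8⟩, ⟨.pos, 9⟩, ⟨.pos, 4⟩, ⟨.pos, 3⟩, ⟨.pos, 2⟩, ⟨.pos, 1⟩, ⟨.pos, 5⟩, ⟨.neg, 7⟩, ⟨.pos, 4⟩, ⟨.pos, 5⟩, ⟨.pos, 6⟩,
   ⟨.neg, 4⟩, ⟨.neg, 3⟩, ⟨.pos, 5⟩, ⟨.pos, 4⟩, ⟨.cap, 8⟩, ⟨.cap, 7⟩, ⟨.cap, 2⟩, ⟨.cap, 1⟩, ⟨.cap, 1⟩]

/-- intermediate word -/
def bw3 : Wd := [⟨.cup, 0⟩, ⟨.cup, 3⟩, ⟨.neg, 2⟩, ⟨.pos, 1⟩, ⟨.neg, 2⟩, ⟨.pos, 1⟩, ⟨.neg, 2⟩, ⟨.cup, 0⟩, ⟨.cup, 1⟩, ⟨.cup, 4⟩, ⟨.pos, 3⟩,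
   ⟨.neg, 2⟩, ⟨.pos, 3⟩, ⟨.pos, 7⟩, ⟨.neg, 2⟩, ⟨.pos, 3⟩, ⟨.neg, 2⟩, ⟨.neg, 8⟩, ⟨.pos, 3⟩, ⟨.neg, 2⟩, ⟨.pos, 7⟩, ⟨.neg, 8⟩, ⟨.pos, 3⟩,
   ⟨.neg, 2⟩, ⟨.pos, 7⟩, ⟨.cap, 9⟩, ⟨.cap, 4⟩, ⟨.cap, 1⟩, ⟨.cap, 2⟩, ⟨.cap, 1⟩]

/-- intermediate word -/
def bw4 : Wd := [⟨.cup, 0⟩, ⟨.cup, 3⟩, ⟨.neg, 2⟩, ⟨.pos, 1⟩, ⟨.neg, 2⟩, ⟨.pos, 1⟩, ⟨.neg, 2⟩, ⟨.pos, 1⟩, ⟨.neg, 2⟩, ⟨.pos, 1⟩, ⟨.neg, 2⟩,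
   ⟨.pos, 1⟩, ⟨.cap, 3⟩, ⟨.cap, 0⟩, ⟨.cup, 0⟩, ⟨.cup, 1⟩, ⟨.cup, 2⟩, ⟨.cup, 3⟩, ⟨.cup, 4⟩, ⟨.pos, 7⟩, ⟨.neg, 6⟩, ⟨.pos, 7⟩, ⟨.neg, 6⟩,
   ⟨.pos, 7⟩, ⟨.neg, 6⟩, ⟨.pos, 7⟩, ⟨.neg, 6⟩, ⟨.pos, 7⟩, ⟨.neg, 6⟩, ⟨.cap, 0⟩, ⟨.cap, 6⟩, ⟨.cap, 3⟩, ⟨.cap, 3⟩, ⟨.cap, 1⟩]

/-- intermediate word -/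
def bw5 : Wd := [⟨.cup, 0⟩, ⟨.cup, 3⟩, ⟨.neg, 2⟩, ⟨.pos, 1⟩, ⟨.neg, 2⟩, ⟨.pos, 1⟩, ⟨.neg, 2⟩, ⟨.pos, 1⟩, ⟨.neg, 2⟩, ⟨.pos, 1⟩, ⟨.neg, 2⟩,
   ⟨.pos, 1⟩, ⟨.cap, 3⟩, ⟨.cap, 0⟩, ⟨.cup, 0⟩, ⟨.cup, 1⟩, ⟨.cup, 2⟩, ⟨.cup, 3⟩, ⟨.neg, 4⟩, ⟨.cup, 4⟩, ⟨.pos, 7⟩, ⟨.neg, 6⟩, ⟨.cap, 8⟩,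
   ⟨.cap, 5⟩, ⟨.cap, 5⟩, ⟨.pos, 1⟩, ⟨.neg, 2⟩, ⟨.pos, 1⟩, ⟨.neg, 2⟩, ⟨.pos, 1⟩, ⟨.neg, 2⟩, ⟨.pos, 1⟩, ⟨.cap, 0⟩, ⟨.cap, 1⟩]

/-- intermediate word -/
def bw6 : Wd := [⟨.cup, 0⟩, ⟨.cup, 3⟩, ⟨.neg, 2⟩, ⟨.pos, 1⟩, ⟨.neg, 2⟩, ⟨.pos, 1⟩, ⟨.neg, 2⟩, ⟨.pos, 1⟩, ⟨.neg, 2⟩, ⟨.pos, 1⟩, ⟨.neg, 2⟩,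
   ⟨.pos, 1⟩, ⟨.cap, 3⟩, ⟨.cap, 0⟩, ⟨.cup, 0⟩, ⟨.cup, 3⟩, ⟨.neg, 2⟩, ⟨.pos, 1⟩, ⟨.neg, 2⟩, ⟨.pos, 1⟩, ⟨.neg, 2⟩, ⟨.pos, 1⟩, ⟨.neg, 2⟩,
   ⟨.pos, 1⟩, ⟨.neg, 2⟩, ⟨.pos, 1⟩, ⟨.cap, 3⟩, ⟨.cap, 0⟩]

end Pool.Agent.H86.RN
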