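import Pool.Agent.H86.RN.NMov

/-!
# Certificates for isotopies, coded by numbers

A list of moves is coded by a number in base `65536`; the digit of a move is `op + 64 * (i + 16 * p)` with the position `p`, the kind `op` of
the move and its parameter `i`.
-/

set_option autoImplicit false

namespace Pool.Agent.H86.RN

open Pool.Agent.H86.RB

/-- exchange of the first two slices, forwards or backwards -/
def rcm (d : Bool) : Wd → Option (Rl × Bool)
  | s :: t :: _ =>
    if d then some (.comm s.k t.k s.i (t.i - s.i - s.k.nout), true)
    else some (.comm t.k s.k t.i (s.i - t.i - t.k.nin), false)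
  | _ => none

/-- the third moves, `o = a + 2 b + 4 c` -/
def r3c (o i : ℕ) : Rl := .r3 (Nat.beq (o % 2) 1) (Nat.beq (o / 2 % 2) 1) (Nat.beq (o / 4 % 2) 1) i

/-- the rule of a code; `w` is the part of the word above the position -/
def rlc (op i : ℕ) (w : Wd) : Option (Rl × Bool) :=
  if Nat.beq op 0 then rcm true w
  else if Nat.beq op 1 then rcm false w
  else if Nat.ble 48 op then some (r3c (op - 48) i, false)
  else if Nat.ble 40 op then some (r3c (op - 40) i, true)
  else if Nat.beq op 2 then some (.sla i, true)
  else if Nat.beq op 3 then some (.sla i, false)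
  else if Nat.beq op 4 then some (.slb i, true)
  else if Nat.beq op 5 then some (.slb i, false)
  else if Nat.beq op 6 then some (.slc i, true)
  else if Nat.beq op 7 then some (.slc i, false)
  else if Nat.beq op 8 then some (.sld i, true)
  else if Nat.beq op 9 then some (.sld i, false)
  else if Nat.beq op 10 then some (.r2a i, true)
  else if Nat.beq op 11 then some (.r2a i, false)
  else if Nat.beq op 12 then some (.r2b i, true)
  else if Nat.beq op 13 then some (.r2b i, false)
  else if Nat.beq op 14 then some (.zig i, true)
  else if Nat.beq op 15 then some (.zig i, false)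
  else if Nat.beq op 16 then some (.zag i, true)
  else if Nat.beq op 17 then some (.zag i, false)
  else if Nat.beq op 18 then some (.r1a i, true)
  else if Nat.beq op 19 then some (.r1a i, false)
  else if Nat.beq op 20 then some (.r1b i, true)
  else if Nat.beq op 21 then some (.r1b i, false)
  else if Nat.beq op 22 then some (.r1c i, true)
  else if Nat.beq op 23 then some (.r1c i, false)
  else if Nat.beq op 24 then some (.r1d i, true)
  else if Nat.beq op 25 then some (.r1d i, false)
  else none

/-- one coded move -/
def stc (c : ℕ) (w : Wd) : Option Wd :=
  match rlc (c % 64) (c / 64 % 16) (w.drop (c / 1024)) with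
  | none => none
  | some r => apl w (c / 1024, r.1, r.2)

/-- `n` coded moves -/
def runc : ℕ → ℕ → Wd → Option Wd
  | 0, _, w => some w
  | n + 1, c, w => match stc (c % 65536) w with
    | none => none
    | some v => runc n (c / 65536) v

theorem stc_ex (c : ℕ) (w v : Wd) (h : stc c w = some v) : ∃ m, apl w m = some v := by
  unfold stc at h
  cases hr : rlc (c % 64) (c / 64 % 16) (w.drop (c / 1024)) with
  | none => rw [hr] at h; simp at h
  | some r => rw [hr] at h; exact ⟨_, h⟩

theorem runc_ex (n c : ℕ) (w v : Wd) (h : runc n c w = some v) : ∃ L, chk L w = some v := by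
  induction n generalizing c w with
  | zero => exact ⟨[], h⟩
  | succ n ih =>
    rw [runc] at h
    cases hs : stc (c % 65536) w with
    | none => rw [hs] at h; simp at h
    | some u =>
      rw [hs] at h
      simp only at h
      obtain ⟨m, hm⟩ := stc_ex _ _ _ hs
      obtain ⟨L, hL⟩ := ih _ _ h
      exact ⟨m :: L, by rw [chk, hm]; exact hL⟩

/-- the test of a certificate -/
def tst (n c : ℕ) (v w : Wd) : Bool :=
  match ty v 1 with
  | some 1 => match runc n c v with
    | some v' => eqw v' w
    | none => false
  | _ => false

theorem iso_of_tst (n c : ℕ) (v w : Wd) (h : tst n c v w = true) : Iso v w := by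
  unfold tst at h
  cases ht : ty v 1 with
  | none => rw [ht] at h; simp at h
  | some k =>
    rw [ht] at h
    match k, h, ht with
    | 1, h, ht =>
      simp only at h
      cases hr : runc n c v with
      | none => rw [hr] at h; simp at h
      | some v' =>
        rw [hr] at h
        simp only at h
        obtain ⟨L, hL⟩ := runc_ex _ _ _ _ hr
        exact chk_sound v w L ht (by rw [hL]; exact h)

end Pool.Agent.H86.RN
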