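import Pool.Agent.H86.RT.Sq
import Pool.Agent.H86.RT.Fdef
import Pool.Agent.H86.RB.BDefs

/-!
# Colourings of the pieces of a ribbon disk by a symmetric quandle, and patterns

Conventions: `Q : Sq C` (`RT/Sq.lean`), `Q.bar x` is the colour of the same strand seen from the other direction, `Q.op a b` is
the colour of a strand of colour `b` after passing under a strand of colour `a`. A colouring of the pieces is `u : ℕ → C`; the
right edge of a band of facing `true` that belongs to the piece `v` has the colour `u v`, its left edge `Q.bar (u v)`; for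
facing `false` the other way round.
-/

set_option autoImplicit false

namespace Pool.Agent.H86.RN

open Pool.Agent.H86.RB Pool.Agent.H86.RT

/-- the colour `x`, or the same strand seen from the other direction -/
def ed {C : Type} (Q : Sq C) (s : Bool) (x : C) : C := if s then x else Q.bar x

/-- a colouring `u` of the pieces is compatible with a row with flag `f` -/
def Sat {C : Type} (Q : Sq C) (u : ℕ → C) (f : Bool) : Row → Prop
  | .mg a b => u a = u b
  | .ps a n b => u n = Q.op (ed Q f (u b)) (u a)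

/-- rows with flags on the names `0, …, m`: `m` rows, and the graph of all gluings is connected -/
def Tr (L : List (Row × Bool)) (m : ℕ) : Prop :=
  L.length = m ∧ (∀ p ∈ L, p.1.x ≤ m ∧ p.1.y ≤ m ∧ p.1.z ≤ m) ∧
    ∀ B : Set ℕ, 0 ∈ B → (∀ p ∈ L, (p.1.x ∈ B ↔ p.1.y ∈ B)) → ∀ v ≤ m, v ∈ B

/-- a pattern is a list of triples `(a, b, f)`; the triple number `i` (from `0` on) says that the vertex `i + 1` is joined to
the vertex `a` by a band that passes through `b`, with flag `f`. `e` switches all flags. -/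
def PSat {C : Type} (Q : Sq C) (e : Bool) (w : ℕ → C) (P : List (ℕ × ℕ × Bool)) : Prop :=
  ∀ (i : ℕ) (t : ℕ × ℕ × Bool), P[i]? = some t → w (i + 1) = Q.op (ed Q (xor e t.2.2) (w t.2.1)) (w t.1)

/-- the entries of a pattern are in the allowed range: it is an increasing tree -/
def Inc (P : List (ℕ × ℕ × Bool)) : Prop :=
  ∀ (i : ℕ) (t : ℕ × ℕ × Bool), P[i]? = some t → t.1 ≤ i ∧ t.2.1 ≤ P.length

/-- `(π, P)` describes the rows `L`: the colourings of `L` are exactly the colourings of the pattern `P`, pulled back by `π` -/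
structure Red (L : List (Row × Bool)) (m : ℕ) (π : ℕ → ℕ) (P : List (ℕ × ℕ × Bool)) : Prop where
  len : P.length = L.countP (fun p => p.1.isps)
  inc : Inc P
  zero : π 0 = 0
  le : ∀ v ≤ m, π v ≤ P.length
  sur : ∀ k ≤ P.length, ∃ v ≤ m, π v = k
  col : ∀ (e : Bool) (C : Type) (Q : Sq C) (w : ℕ → C), PSat Q e w P →
    ∀ p ∈ L, Sat Q (fun v => w (π v)) (xor e p.2) p.1
  ker : ∀ (e : Bool) (C : Type) (Q : Sq C) (u : ℕ → C), (∀ p ∈ L, Sat Q u (xor e p.2) p.1) →
    ∃ w : ℕ → C, PSat Q e w P ∧ ∀ v ≤ m, u v = w (π v)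

/-- the knot `10_123`, cut at an edge between a crossing of the first and a crossing of the second kind of the closed braid -/
def kq : Wd :=
  [⟨.cup, 0⟩, ⟨.cup, 3⟩, ⟨.neg, 2⟩, ⟨.pos, 1⟩, ⟨.neg, 2⟩, ⟨.pos, 1⟩, ⟨.neg, 2⟩, ⟨.pos, 1⟩, ⟨.neg, 2⟩, ⟨.pos, 1⟩,
    ⟨.neg, 2⟩, ⟨.pos, 1⟩, ⟨.cap, 3⟩, ⟨.cap, 0⟩]

end Pool.Agent.H86.RN
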