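import Mathlib

/-!
# The patterns with four passes that have the Alexander polynomial of `10_123`, with a twisted colouring

Every entry: the pattern, the value of `t` modulo `199`, the colours modulo `11` of the vertices `0, …, 4`, and the vectors modulo
`199` at the vertices.
-/

set_option autoImplicit false

namespace Pool.Agent.H86.RN

def tab : List (List (ℕ × ℕ × Bool) × ℕ × List ℕ × List (ℕ × ℕ)) :=
[
  ([(0, 2, false), (0, 4, false), (0, 1, true), (1, 3, true)], 151, [0, 2, 1, 4, 6], [(0, 0), (58, 47), (89, 75), (70, 88), (14, 1)]),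
  ([(0, 2, true), (0, 4, true), (0, 1, false), (1, 3, false)], 29, [0, 2, 1, 4, 6], [(0, 0), (178, 103), (69, 72), (77, 98), (47, 1)]),
  ([(0, 3, false), (0, 1, true), (0, 4, false), (1, 2, true)], 151, [0, 2, 4, 1, 6], [(0, 0), (58, 47), (70, 88), (89, 75), (14, 1)]),
  ([(0, 3, true), (0, 1, false), (0, 4, true), (1, 2, false)], 29, [0, 2, 4, 1, 6], [(0, 0), (178, 103), (77, 98), (69, 72), (47, 1)]),
  ([(0, 2, false), (0, 3, true), (0, 4, true), (2, 1, false)], 29, [0, 4, 2, 1, 6], [(0, 0), (77, 98), (178, 103), (69, 72), (47, 1)]),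
  ([(0, 2, true), (0, 3, false), (0, 4, false), (2, 1, true)], 151, [0, 4, 2, 1, 6], [(0, 0), (70, 88), (58, 47), (89, 75), (14, 1)]),
  ([(0, 4, false), (0, 1, false), (0, 2, true), (2, 3, true)], 151, [0, 1, 2, 4, 6], [(0, 0), (89, 75), (58, 47), (70, 88), (14, 1)]),
  ([(0, 4, true), (0, 1, true), (0, 2, false), (2, 3, false)], 29, [0, 1, 2, 4, 6], [(0, 0), (69, 72), (178, 103), (77, 98), (47, 1)]),
  ([(0, 3, false), (0, 4, true), (0, 2, true), (3, 1, false)], 29, [0, 4, 1, 2, 6], [(0, 0), (77, 98), (69, 72), (178, 103), (47, 1)]),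
  ([(0, 3, true), (0, 4, false), (0, 2, false), (3, 1, true)], 151, [0, 4, 1, 2, 6], [(0, 0), (70, 88), (89, 75), (58, 47), (14, 1)]),
  ([(0, 4, false), (0, 3, true), (0, 1, false), (3, 2, true)], 151, [0, 1, 4, 2, 6], [(0, 0), (89, 75), (70, 88), (58, 47), (14, 1)]),
  ([(0, 4, true), (0, 3, false), (0, 1, true), (3, 2, false)], 29, [0, 1, 4, 2, 6], [(0, 0), (69, 72), (77, 98), (178, 103), (47, 1)]),
  ([(0, 2, false), (0, 3, false), (1, 4, true), (0, 1, true)], 151, [0, 2, 1, 6, 4], [(0, 0), (168, 143), (148, 80), (68, 147), (141, 1)]),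
  ([(0, 2, true), (0, 3, true), (1, 4, false), (0, 1, false)], 29, [0, 2, 1, 6, 4], [(0, 0), (14, 64), (153, 151), (35, 132), (15, 1)]),
  ([(0, 4, false), (0, 1, true), (1, 2, true), (0, 3, false)], 151, [0, 2, 4, 6, 1], [(0, 0), (22, 59), (54, 102), (170, 69), (171, 1)]),
  ([(0, 4, true), (0, 1, false), (1, 2, false), (0, 3, true)], 29, [0, 2, 4, 6, 1], [(0, 0), (8, 65), (37, 29), (20, 47), (59, 1)]),
  ([(0, 3, false), (0, 4, false), (1, 2, true), (1, 0, false)], 29, [0, 2, 7, 1, 9], [(0, 0), (29, 187), (176, 73), (38, 31), (187, 1)]),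
  ([(0, 3, true), (0, 4, true), (1, 2, false), (1, 0, true)], 151, [0, 2, 7, 1, 9], [(0, 0), (1, 10), (186, 84), (72, 168), (117, 1)]),
  ([(0, 4, false), (0, 3, false), (1, 0, false), (1, 2, true)], 29, [0, 2, 7, 9, 1], [(0, 0), (155, 128), (179, 150), (128, 122), (59, 1)]),
  ([(0, 4, true), (0, 3, true), (1, 0, true), (1, 2, false)], 151, [0, 2, 7, 9, 1], [(0, 0), (77, 173), (193, 100), (54, 77), (171, 1)]),
  ([(0, 2, false), (0, 4, false), (1, 0, false), (2, 3, true)], 29, [0, 4, 2, 7, 1], [(0, 0), (171, 179), (155, 128), (179, 150), (59, 1)]),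
  ([(0, 2, true), (0, 4, true), (1, 0, true), (2, 3, false)], 151, [0, 4, 2, 7, 1], [(0, 0), (100, 25), (77, 173), (193, 100), (171, 1)]),
  ([(0, 3, false), (0, 1, false), (1, 4, true), (2, 0, false)], 29, [0, 2, 4, 1, 7], [(0, 0), (74, 38), (29, 106), (145, 134), (106, 1)]),
  ([(0, 3, true), (0, 1, true), (1, 4, false), (2, 0, true)], 151, [0, 2, 4, 1, 7], [(0, 0), (154, 147), (1, 50), (143, 2), (187, 1)]),
  ([(0, 2, false), (0, 4, false), (1, 0, true), (3, 1, true)], 151, [0, 2, 1, 9, 6], [(0, 0), (58, 47), (89, 75), (132, 58), (14, 1)]),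
  ([(0, 2, true), (0, 4, true), (1, 0, false), (3, 1, false)], 29, [0, 2, 1, 9, 6], [(0, 0), (178, 103), (69, 72), (103, 13), (47, 1)]),
  ([(0, 3, false), (0, 1, true), (1, 4, true), (3, 2, false)], 151, [0, 4, 8, 2, 3], [(0, 0), (32, 75), (93, 183), (174, 148), (58, 1)]),
  ([(0, 3, true), (0, 1, false), (1, 4, false), (3, 2, true)], 29, [0, 4, 8, 2, 3], [(0, 0), (99, 144), (185, 73), (105, 183), (50, 1)]),
  ([(0, 2, false), (0, 4, true), (2, 1, false), (0, 3, true)], 29, [0, 4, 2, 6, 1], [(0, 0), (37, 29), (8, 65), (20, 47), (59, 1)]),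
  ([(0, 2, true), (0, 4, false), (2, 1, true), (0, 3, false)], 151, [0, 4, 2, 6, 1], [(0, 0), (54, 102), (22, 59), (170, 69), (171, 1)]),
  ([(0, 3, false), (0, 1, false), (2, 4, true), (0, 2, true)], 151, [0, 1, 2, 6, 4], [(0, 0), (148, 80), (168, 143), (68, 147), (141, 1)]),
  ([(0, 3, true), (0, 1, true), (2, 4, false), (0, 2, false)], 29, [0, 1, 2, 6, 4], [(0, 0), (153, 151), (14, 64), (35, 132), (15, 1)]),
  ([(0, 2, false), (0, 3, false), (2, 4, true), (1, 0, false)], 29, [0, 4, 2, 1, 7], [(0, 0), (29, 106), (74, 38), (145, 134), (106, 1)]),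
  ([(0, 2, true), (0, 3, true), (2, 4, false), (1, 0, true)], 151, [0, 4, 2, 1, 7], [(0, 0), (1, 50), (154, 147), (143, 2), (187, 1)]),
  ([(0, 4, false), (0, 1, false), (2, 0, false), (1, 3, true)], 29, [0, 2, 4, 7, 1], [(0, 0), (155, 128), (171, 179), (179, 150), (59, 1)]),
  ([(0, 4, true), (0, 1, true), (2, 0, true), (1, 3, false)], 151, [0, 2, 4, 7, 1], [(0, 0), (77, 173), (100, 25), (193, 100), (171, 1)]),
  ([(0, 3, false), (0, 4, false), (2, 0, false), (2, 1, true)], 29, [0, 4, 9, 2, 10], [(0, 0), (40, 57), (127, 6), (6, 73), (186, 1)]),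
  ([(0, 3, true), (0, 4, true), (2, 0, true), (2, 1, false)], 151, [0, 4, 9, 2, 10], [(0, 0), (143, 185), (126, 47), (132, 126), (87, 1)]),
  ([(0, 4, false), (0, 3, false), (2, 1, true), (2, 0, false)], 29, [0, 4, 9, 10, 2], [(0, 0), (6, 118), (29, 180), (8, 30), (180, 1)]),
  ([(0, 4, true), (0, 3, true), (2, 1, false), (2, 0, true)], 151, [0, 4, 9, 10, 2], [(0, 0), (88, 22), (1, 182), (176, 169), (20, 1)]),
  ([(0, 2, false), (0, 3, true), (2, 4, false), (3, 1, true)], 29, [0, 3, 7, 9, 8], [(0, 0), (110, 143), (187, 197), (134, 22), (116, 1)]),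
  ([(0, 2, true), (0, 3, false), (2, 4, true), (3, 1, false)], 151, [0, 3, 7, 9, 8], [(0, 0), (75, 156), (34, 28), (152, 3), (157, 1)]),
  ([(0, 4, false), (0, 1, false), (2, 0, true), (3, 2, true)], 151, [0, 1, 2, 9, 6], [(0, 0), (89, 75), (58, 47), (132, 58), (14, 1)]),
  ([(0, 4, true), (0, 1, true), (2, 0, false), (3, 2, false)], 29, [0, 1, 2, 9, 6], [(0, 0), (69, 72), (178, 103), (103, 13), (47, 1)]),
  ([(0, 3, false), (1, 4, true), (0, 2, false), (0, 1, true)], 151, [0, 2, 6, 1, 4], [(0, 0), (168, 143), (68, 147), (148, 80), (141, 1)]),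
  ([(0, 3, true), (1, 4, false), (0, 2, true), (0, 1, false)], 29, [0, 2, 6, 1, 4], [(0, 0), (14, 64), (35, 132), (153, 151), (15, 1)]),
  ([(0, 4, false), (1, 3, true), (0, 1, true), (0, 2, false)], 151, [0, 2, 6, 4, 1], [(0, 0), (22, 59), (170, 69), (54, 102), (171, 1)]),
  ([(0, 4, true), (1, 3, false), (0, 1, false), (0, 2, true)], 29, [0, 2, 6, 4, 1], [(0, 0), (8, 65), (20, 47), (37, 29), (59, 1)]),
  ([(0, 2, false), (1, 3, true), (0, 4, false), (1, 0, false)], 29, [0, 2, 1, 7, 9], [(0, 0), (29, 187), (38, 31), (176, 73), (187, 1)]),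
  ([(0, 2, true), (1, 3, false), (0, 4, true), (1, 0, true)], 151, [0, 2, 1, 7, 9], [(0, 0), (1, 10), (72, 168), (186, 84), (117, 1)]),
  ([(0, 4, false), (1, 0, false), (0, 2, false), (1, 3, true)], 29, [0, 2, 9, 7, 1], [(0, 0), (155, 128), (128, 122), (179, 150), (59, 1)]),
  ([(0, 4, true), (1, 0, true), (0, 2, true), (1, 3, false)], 151, [0, 2, 9, 7, 1], [(0, 0), (77, 173), (54, 77), (193, 100), (171, 1)]),
  ([(0, 2, false), (1, 4, true), (0, 1, true), (2, 3, false)], 151, [0, 4, 2, 8, 3], [(0, 0), (32, 75), (174, 148), (93, 183), (58, 1)]),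
  ([(0, 2, true), (1, 4, false), (0, 1, false), (2, 3, true)], 29, [0, 4, 2, 8, 3], [(0, 0), (99, 144), (105, 183), (185, 73), (50, 1)]),
  ([(0, 3, false), (1, 0, true), (0, 4, false), (2, 1, true)], 151, [0, 2, 9, 1, 6], [(0, 0), (58, 47), (132, 58), (89, 75), (14, 1)]),
  ([(0, 3, true), (1, 0, false), (0, 4, true), (2, 1, false)], 29, [0, 2, 9, 1, 6], [(0, 0), (178, 103), (103, 13), (69, 72), (47, 1)]),
  ([(0, 2, false), (1, 4, true), (0, 1, false), (3, 0, false)], 29, [0, 2, 1, 4, 7], [(0, 0), (74, 38), (145, 134), (29, 106), (106, 1)]),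
  ([(0, 2, true), (1, 4, false), (0, 1, true), (3, 0, true)], 151, [0, 2, 1, 4, 7], [(0, 0), (154, 147), (143, 2), (1, 50), (187, 1)]),
  ([(0, 3, false), (1, 0, false), (0, 4, false), (3, 2, true)], 29, [0, 4, 7, 2, 1], [(0, 0), (171, 179), (179, 150), (155, 128), (59, 1)]),
  ([(0, 3, true), (1, 0, true), (0, 4, true), (3, 2, false)], 151, [0, 4, 7, 2, 1], [(0, 0), (100, 25), (193, 100), (77, 173), (171, 1)]),
  ([(0, 2, false), (1, 4, true), (1, 0, false), (0, 3, false)], 29, [0, 2, 1, 9, 7], [(0, 0), (74, 38), (145, 134), (38, 30), (106, 1)]),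
  ([(0, 2, true), (1, 4, false), (1, 0, true), (0, 3, true)], 151, [0, 2, 1, 9, 7], [(0, 0), (154, 147), (143, 2), (108, 154), (187, 1)]),
  ([(0, 3, false), (1, 0, false), (1, 4, true), (0, 2, false)], 29, [0, 2, 9, 1, 7], [(0, 0), (74, 38), (38, 30), (145, 134), (106, 1)]),
  ([(0, 3, true), (1, 0, true), (1, 4, false), (0, 2, true)], 151, [0, 2, 9, 1, 7], [(0, 0), (154, 147), (108, 154), (143, 2), (187, 1)]),
  ([(0, 2, false), (1, 3, false), (1, 4, false), (2, 0, true)], 151, [0, 4, 2, 3, 9], [(0, 0), (119, 142), (1, 66), (183, 193), (16, 1)]),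
  ([(0, 2, true), (1, 3, true), (1, 4, true), (2, 0, false)], 29, [0, 4, 2, 3, 9], [(0, 0), (164, 82), (29, 161), (2, 85), (161, 1)]),
  ([(0, 4, false), (1, 0, true), (1, 2, false), (2, 3, false)], 29, [0, 1, 10, 8, 6], [(0, 0), (70, 39), (136, 70), (79, 197), (47, 1)]),
  ([(0, 4, true), (1, 0, false), (1, 2, true), (2, 3, true)], 151, [0, 1, 10, 8, 6], [(0, 0), (156, 128), (128, 146), (88, 144), (14, 1)]),
  ([(0, 3, false), (1, 4, false), (1, 2, false), (3, 0, true)], 151, [0, 4, 3, 2, 9], [(0, 0), (119, 142), (183, 193), (1, 66), (16, 1)]),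
  ([(0, 3, true), (1, 4, true), (1, 2, true), (3, 0, false)], 29, [0, 4, 3, 2, 9], [(0, 0), (164, 82), (2, 85), (29, 161), (161, 1)]),
  ([(0, 4, false), (1, 3, false), (1, 0, true), (3, 2, false)], 29, [0, 1, 8, 10, 6], [(0, 0), (70, 39), (79, 197), (136, 70), (47, 1)]),
  ([(0, 4, true), (1, 3, true), (1, 0, false), (3, 2, true)], 151, [0, 1, 8, 10, 6], [(0, 0), (156, 128), (88, 144), (128, 146), (14, 1)]),
  ([(0, 2, false), (1, 3, true), (2, 4, false), (0, 1, true)], 151, [0, 4, 2, 3, 8], [(0, 0), (197, 157), (14, 140), (71, 87), (131, 1)]),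
  ([(0, 2, true), (1, 3, false), (2, 4, true), (0, 1, false)], 29, [0, 4, 2, 3, 8], [(0, 0), (184, 141), (165, 117), (107, 30), (177, 1)]),
  ([(0, 4, false), (1, 0, true), (2, 1, true), (0, 3, false)], 151, [0, 2, 9, 6, 1], [(0, 0), (22, 59), (153, 22), (170, 69), (171, 1)]),
  ([(0, 4, true), (1, 0, false), (2, 1, false), (0, 3, true)], 29, [0, 2, 9, 6, 1], [(0, 0), (8, 65), (65, 14), (20, 47), (59, 1)]),
  ([(0, 2, false), (1, 4, false), (2, 0, true), (1, 3, false)], 151, [0, 4, 2, 9, 3], [(0, 0), (146, 109), (33, 188), (130, 33), (69, 1)]),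
  ([(0, 2, true), (1, 4, true), (2, 0, false), (1, 3, true)], 29, [0, 4, 2, 9, 3], [(0, 0), (23, 111), (197, 133), (133, 96), (192, 1)]),
  ([(0, 3, false), (1, 0, true), (2, 4, false), (1, 2, false)], 29, [0, 1, 10, 6, 8], [(0, 0), (164, 80), (131, 164), (76, 99), (60, 1)]),
  ([(0, 3, true), (1, 0, false), (2, 4, true), (1, 2, true)], 151, [0, 1, 10, 6, 8], [(0, 0), (84, 23), (23, 48), (130, 123), (78, 1)]),
  ([(0, 3, false), (1, 4, true), (2, 1, true), (2, 0, false)], 151, [0, 4, 6, 2, 5], [(0, 0), (38, 2), (151, 189), (132, 126), (189, 1)]),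
  ([(0, 3, true), (1, 4, false), (2, 1, false), (2, 0, true)], 29, [0, 4, 6, 2, 5], [(0, 0), (67, 7), (1, 19), (59, 154), (153, 1)]),
  ([(0, 4, false), (1, 3, true), (2, 0, false), (2, 1, true)], 151, [0, 4, 6, 5, 2], [(0, 0), (54, 139), (47, 101), (101, 169), (20, 1)]),
  ([(0, 4, true), (1, 3, false), (2, 0, true), (2, 1, false)], 29, [0, 4, 6, 5, 2], [(0, 0), (56, 190), (84, 4), (116, 84), (180, 1)]),
  ([(0, 2, false), (1, 3, false), (2, 4, true), (3, 0, false)], 151, [0, 3, 7, 5, 6], [(0, 0), (171, 174), (129, 36), (151, 164), (164, 1)]),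
  ([(0, 2, true), (1, 3, true), (2, 4, false), (3, 0, true)], 29, [0, 3, 7, 5, 6], [(0, 0), (45, 57), (147, 124), (1, 186), (21, 1)]),
  ([(0, 4, false), (1, 0, true), (2, 1, false), (3, 2, false)], 29, [0, 1, 10, 3, 6], [(0, 0), (70, 39), (136, 70), (79, 66), (47, 1)]),
  ([(0, 4, true), (1, 0, false), (2, 1, true), (3, 2, true)], 151, [0, 1, 10, 3, 6], [(0, 0), (156, 128), (128, 146), (80, 106), (14, 1)])]

end Pool.Agent.H86.RN
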