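import Pool.Agent.H86.RN.NTk
import Pool.Agent.H86.RN.NTab

/-!
# [H86 RN ENUM] All patterns with at most four passes

STATEMENT `enum_pat`. Checked with a program: there are 24 * 625 increasing patterns of length 4 without flags, only 44 of them
have a kernel at `-1` modulo `11` (there the flags do not matter); of their 44 * 16 versions with flags only 88 have a kernel
at `3` modulo `19` for `e = false` or `e = true`, these are exactly the patterns of `tab`. For length at most 3 the kernel at `-1` modulo
`11` is always trivial.

PROOF. (1) Let `pats r k` be the list of all lists of length `k` of pairs `(a, b)`, the pair number `i` with `a ≤ i`, `b ≤ r`: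
`pats r 0 = [[]]`, `pats r (k + 1) = (pats r k).flatMap fun l => (List.range (k + 1)).flatMap fun a => (List.range (r + 1)).map fun b =>
l ++ [(a, b)]`; membership lemma by induction on `k` (`List.reverseRecOn` or `dropLast`).
(2) For `t = 10`, `q = 11` the relation of a triple for one value of the flag is the negative of the relation for the other value, so
`Triv 11 10 e P ↔ Triv 11 10 false (P.map fun T => (T.1, T.2.1, true))`.
(3) `decide +kernel`: for `r ≤ 3`: `(pats r r).all (fun l => tk 11 r (pmat 11 10 r false 0 (l.map fun p => (p.1, p.2, true)))) = true`; for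
`r = 4`: `(pats 4 4).all (fun l => tk 11 4 (..) || (flags 4).all (fun f => let P := (zip of l and f);
(tk 19 4 (pmat 19 3 4 false 0 P) && tk 19 4 (pmat 19 3 4 true 0 P)) || tab.any (fun T => eqb T.1 P))) = true` (`flags 4` = the 16 lists of
Booleans, `eqb` = own Boolean comparison of patterns by `Nat.beq`, with a soundness lemma). 15000 small eliminations; if it is
slow, split by the first entries of the pattern into several theorems.
(4) `triv_of_tk` (`Fact (Nat.Prime 11)`, `Fact (Nat.Prime 19)` by `norm_num`).
-/

set_option autoImplicit false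

namespace Pool.Agent.H86.RN

/-- all lists of length `k` of pairs `(a, b)`, the pair number `i` with `a ≤ i` and `b ≤ r` -/
def enPats (r : ℕ) : ℕ → List (List (ℕ × ℕ))
  | 0 => [[]]
  | k + 1 => (enPats r k).flatMap fun l => (List.range (k + 1)).flatMap fun a =>
      (List.range (r + 1)).map fun b => l ++ [(a, b)]

private theorem mem_enPats (r : ℕ) (l : List (ℕ × ℕ)) :
    (∀ (i : ℕ) (T : ℕ × ℕ), l[i]? = some T → T.1 ≤ i ∧ T.2 ≤ r) → l ∈ enPats r l.length := by
  induction l using List.reverseRecOn with
  | nil => intro _; simp [enPats]
  | append_singleton l T ih =>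
    intro h
    have h1 : l ∈ enPats r l.length := by
      refine ih fun i T' hi => h i T' ?_
      rw [List.getElem?_append_left (List.getElem?_eq_some_iff.mp hi).1]
      exact hi
    have h2 := h l.length T (by simp)
    rw [List.length_append, List.length_singleton, enPats, List.mem_flatMap]
    refine ⟨l, h1, ?_⟩
    rw [List.mem_flatMap]
    refine ⟨T.1, List.mem_range.mpr (by omega), ?_⟩
    rw [List.mem_map]
    exact ⟨T.2, List.mem_range.mpr (by omega), rfl⟩

/-- all lists of Booleans of length `k` -/
def enFlags : ℕ → List (List Bool)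
  | 0 => [[]]
  | k + 1 => (enFlags k).flatMap fun l => [false :: l, true :: l]

private theorem mem_enFlags : ∀ l : List Bool, l ∈ enFlags l.length
  | [] => by simp [enFlags]
  | b :: l => by
    rw [List.length_cons, enFlags, List.mem_flatMap]
    refine ⟨l, mem_enFlags l, ?_⟩
    cases b <;> simp

/-- pairs and enFlags together -/
def enMrg : List (ℕ × ℕ) → List Bool → List (ℕ × ℕ × Bool)
  | p :: l, f :: fs => (p.1, p.2, f) :: enMrg l fs
  | _, _ => []

private theorem enMrg_eq : ∀ P : List (ℕ × ℕ × Bool),
    enMrg (P.map fun T => (T.1, T.2.1)) (P.map fun T => T.2.2) = P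
  | [] => rfl
  | T :: P => by
    simp only [List.map_cons, enMrg]
    rw [enMrg_eq P]

/-- equality of Booleans -/
def enBeqB : Bool → Bool → Bool
  | true, b => b
  | false, true => false
  | false, false => true

/-- equality of patterns -/
def enEqb : List (ℕ × ℕ × Bool) → List (ℕ × ℕ × Bool) → Bool
  | [], [] => true
  | S :: P, T :: Q => Nat.beq S.1 T.1 && (Nat.beq S.2.1 T.2.1 && (enBeqB S.2.2 T.2.2 && enEqb P Q))
  | _, _ => false

private theorem enEqb_sound : ∀ P Q : List (ℕ × ℕ × Bool), enEqb P Q = true → P = Q
  | [], [], _ => rfl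
  | S :: P, T :: Q, h => by
    simp only [enEqb, Bool.and_eq_true] at h
    obtain ⟨h1, h2, h3, h4⟩ := h
    have e1 := Nat.eq_of_beq_eq_true h1
    have e2 := Nat.eq_of_beq_eq_true h2
    have e3 : S.2.2 = T.2.2 := by
      revert h3
      cases S.2.2 <;> cases T.2.2 <;> simp [enBeqB]
    rw [enEqb_sound P Q h4]
    congr 1
    exact Prod.ext e1 (Prod.ext e2 e3)
  | [], _ :: _, h => by simp [enEqb] at h
  | _ :: _, [], h => by simp [enEqb] at h

/-- the test at `-1` modulo `11` -/
def enOk11 (r : ℕ) (l : List (ℕ × ℕ)) : Bool :=
  tk 11 r (pmat 11 10 r false 0 (l.map fun p => (p.1, p.2, true)))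

/-- the test at `3` modulo `19`, or the pattern is in the table -/
def enOk19 (P : List (ℕ × ℕ × Bool)) : Bool :=
  (tk 19 4 (pmat 19 3 4 false 0 P) && tk 19 4 (pmat 19 3 4 true 0 P)) ||
    tab.any (fun T => enEqb T.1 P)

private theorem enum0 : (enPats 0 0).all (enOk11 0) = true := by decide +kernel

private theorem enum1 : (enPats 1 1).all (enOk11 1) = true := by decide +kernel

private theorem enum2 : (enPats 2 2).all (enOk11 2) = true := by decide +kernel

private theorem enum3 : (enPats 3 3).all (enOk11 3) = true := by decide +kernel

private theorem enum4 : (enPats 4 4).all (fun l => enOk11 4 l ||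
    (enFlags 4).all (fun f => enOk19 (enMrg l f))) = true := by decide +kernel

private instance enFact11 : Fact (Nat.Prime 11) := ⟨by norm_num⟩

private instance enFact19 : Fact (Nat.Prime 19) := ⟨by norm_num⟩

private theorem arel11 (e : Bool) (w : ℕ → ZMod 11) (i : ℕ) (T : ℕ × ℕ × Bool)
    (h : ARel 11 10 e w i T) : ARel 11 10 false w i (T.1, T.2.1, true) := by
  have h10 : ((10 : ℕ) : ZMod 11) = -1 := by decide
  unfold ARel at h ⊢
  simp only [Bool.false_xor, if_true]
  rw [h10] at h ⊢
  by_cases hx : (xor e T.2.2) = true
  · rw [if_pos hx] at h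
    exact h
  · rw [if_neg hx] at h
    linear_combination -h

private theorem triv11 (P : List (ℕ × ℕ × Bool)) (hP : Inc P)
    (h : enOk11 P.length (P.map fun T => (T.1, T.2.1)) = true) (e : Bool) : Triv 11 10 e P := by
  have hinc : Inc ((P.map fun T => (T.1, T.2.1)).map fun p => (p.1, p.2, true)) := by
    intro i T hT
    rw [List.getElem?_map, List.getElem?_map] at hT
    cases hp : P[i]? with
    | none => rw [hp] at hT; simp at hT
    | some S =>
      rw [hp] at hT
      simp only [Option.map_some, Option.some.injEq] at hT
      subst hT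
      have := hP i S hp
      simpa using this
  have hlen : ((P.map fun T => (T.1, T.2.1)).map fun p => (p.1, p.2, true)).length = P.length := by
    simp
  have key := triv_of_tk 11 10 (by norm_num) (by norm_num) false _ hinc (by
    rw [hlen]
    exact h)
  intro w h0 hw k hk
  refine key w h0 (fun i T hT => ?_) k (by rw [hlen]; exact hk)
  rw [List.getElem?_map, List.getElem?_map] at hT
  cases hp : P[i]? with
  | none => rw [hp] at hT; simp at hT
  | some S =>
    rw [hp] at hT
    simp only [Option.map_some, Option.some.injEq] at hT
    subst hT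
    exact arel11 e w i S (hw i S hp)

theorem enum_pat (P : List (ℕ × ℕ × Bool)) (h4 : P.length ≤ 4) (hP : Inc P) :
    (∀ e, Triv 11 10 e P) ∨ (∀ e, Triv 19 3 e P) ∨ ∃ T ∈ tab, T.1 = P := by
  have hl : (P.map fun T => (T.1, T.2.1)) ∈ enPats P.length P.length := by
    have h1 := mem_enPats P.length (P.map fun T => (T.1, T.2.1)) (fun i T hT => by
      rw [List.getElem?_map] at hT
      cases hp : P[i]? with
      | none => rw [hp] at hT; simp at hT
      | some S =>
        rw [hp] at hT
        simp only [Option.map_some, Option.some.injEq] at hT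
        subst hT
        exact hP i S hp)
    rwa [List.length_map] at h1
  obtain h | h | h | h | h : P.length = 0 ∨ P.length = 1 ∨ P.length = 2 ∨ P.length = 3 ∨
      P.length = 4 := by omega
  · left
    refine triv11 P hP ?_
    rw [h] at hl ⊢
    exact List.all_eq_true.mp enum0 _ hl
  · left
    refine triv11 P hP ?_
    rw [h] at hl ⊢
    exact List.all_eq_true.mp enum1 _ hl
  · left
    refine triv11 P hP ?_
    rw [h] at hl ⊢
    exact List.all_eq_true.mp enum2 _ hl
  · left
    refine triv11 P hP ?_
    rw [h] at hl ⊢
    exact List.all_eq_true.mp enum3 _ hl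
  · have hl' := hl
    rw [h] at hl'
    have h1 := List.all_eq_true.mp enum4 _ hl'
    rw [Bool.or_eq_true] at h1
    rcases h1 with h1 | h1
    · left
      refine triv11 P hP ?_
      rw [h]
      exact h1
    · right
      have hf : (P.map fun T => T.2.2) ∈ enFlags 4 := by
        have := mem_enFlags (P.map fun T => T.2.2)
        rwa [List.length_map, h] at this
      have h2 := List.all_eq_true.mp h1 _ hf
      rw [enMrg_eq, enOk19, Bool.or_eq_true] at h2
      rcases h2 with h2 | h2
      · left
        rw [Bool.and_eq_true] at h2
        intro e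
        refine triv_of_tk 19 3 (by norm_num) (by norm_num) e P hP ?_
        rw [h]
        cases e
        · exact h2.1
        · exact h2.2
      · right
        rw [List.any_eq_true] at h2
        obtain ⟨T, hT, hT'⟩ := h2
        exact ⟨T, hT, enEqb_sound _ _ hT'⟩

end Pool.Agent.H86.RN
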