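import Pool.Agent.H86.RN.NTk
import Pool.Agent.H86.RT.OOne

/-!
# [H86 RN KER] If the pattern has only constant colourings then so has the boundary

PROOF. Let `R = rows S 1 [0]`, `m = R.length`, `F i = (fgs S 1 x [true]).getD i true`, `L = R.zip (fgs ..)` (same lengths: see `fgs_length` or
similar in `RT`; `hR` is about `L`, its `m` is `R.length`). By `cola_bdw` and `ocnt` (`RT/OCnt.lean`)
`cola T (bdw S) ≤ card (Kr T P Q) * card (Kr T P'ᵀ Q'ᵀ)` with `P = MP R F m`, `Q = MQ R F m`, `P' = MP R (!F) m`, `Q' = MQ R (!F) m`.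
(1) For `G = F` (take `e = false`) and for `G = !F` (`e = true`): `Kr T (MP R G m) (MQ R G m)` contains only `0`: let `v` be in it, `u 0 = 0`,
`u (j + 1) = v j` (zero for `j ≥ m`); every row: `rvl T (G i) u (R_i) = 0` (`row_rvl` in `RT/OCnt.lean` is private: copy it). Then
`u' v = (u v, true)` is a colouring of the rows: `Sat (aq T) u' (xor e p.2) p.1` for all `p ∈ L` (a pass with flag `true`:
`T (u a - u b) + (u b - u n) = 0` means `u n = u b + T (u a - u b)`; flag `false`: `u a = u b + T (u n - u b)`, so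
`u n = u b + T.symm (u a - u b)`, which is `op` of `ed Q false (u b, true) = (u b, false)`). By `hR.ker`: `w` with `PSat (aq T) e w P` and
`u' v = w (π v)` for `v ≤ m`. All `w k`, `k ≤ P.length`, have second component `true` (`hR.sur`), put `w' k = (w k).1`: `w' 0 = u 0 = 0`
(`hR.zero`) and `ARel q t e w' i T` for all triples (same computation backwards, `T a = t * a`), so `Triv` gives `w' k = 0` for
`k ≤ P.length`, so `u v = 0` for `v ≤ m` (`hR.le`).
(2) The transposed kernel: `Kr T P'ᵀ Q'ᵀ` is the kernel of the transpose of the matrix `N = P' + t Q'` over the field `ZMod q`; by (1)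
for `G = !F` the matrix `N` has trivial kernel, so `det N ≠ 0`, so its transpose has trivial kernel
(`Matrix.exists_mulVec_eq_zero_iff`, `Matrix.det_transpose`, `Matrix.eq_zero_of_mulVec_eq_zero`). Hence both cards are `≤ 1`.
-/

set_option autoImplicit false

namespace Pool.Agent.H86.RN

open Pool.Agent.H86.RB Pool.Agent.H86.RT

private theorem zind_sum {A : Type} [AddCommGroup A] {m : ℕ} (u : ℕ → A) (h0 : u 0 = 0) (a : ℕ) (ha : a ≤ m) :
    ∑ j : Fin m, (if (j : ℕ) + 1 = a then (1 : ℤ) else 0) • u (j + 1) = u a := by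
  rcases Nat.eq_zero_or_pos a with rfl | hp
  · rw [h0]
    apply Finset.sum_eq_zero
    intro j _
    simp
  · rw [Finset.sum_eq_single (⟨a - 1, by omega⟩ : Fin m)]
    · have : a - 1 + 1 = a := by omega
      simp [this]
    · intro b _ hb
      rw [if_neg, zero_smul]
      intro h
      apply hb
      apply Fin.ext
      simp only
      omega
    · intro h
      exact absurd (Finset.mem_univ _) h

private theorem zdif_sum {A : Type} [AddCommGroup A] {m : ℕ} (u : ℕ → A) (h0 : u 0 = 0) (a b : ℕ)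
    (ha : a ≤ m) (hb : b ≤ m) :
    ∑ j : Fin m, ((if (j : ℕ) + 1 = a then (1 : ℤ) else 0) - (if (j : ℕ) + 1 = b then 1 else 0)) •
      u (j + 1) = u a - u b := by
  simp only [sub_smul, Finset.sum_sub_distrib]
  rw [zind_sum u h0 a ha, zind_sum u h0 b hb]

private theorem row_rvl {A : Type} [AddCommGroup A] {m : ℕ} (T : A ≃+ A) (g : Bool) (u : ℕ → A)
    (h0 : u 0 = 0) (r : Row) (hr : r.x ≤ m ∧ r.y ≤ m ∧ r.z ≤ m) :
    ∑ j : Fin m, cP g ((j : ℕ) + 1) r • u (j + 1) +
      T (∑ j : Fin m, cQ g ((j : ℕ) + 1) r • u (j + 1)) = rvl T g u r := by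
  cases r with
  | mg a b =>
    simp only [Row.x, Row.y, Row.z] at hr
    simp only [cP, cQ, rvl, zero_smul, Finset.sum_const_zero, map_zero, add_zero]
    exact zdif_sum u h0 a b hr.1 hr.2.1
  | ps a n b =>
    simp only [Row.x, Row.y, Row.z] at hr
    cases g
    · simp only [cP, cQ, rvl, Bool.false_eq_true, if_false]
      rw [zdif_sum u h0 a b hr.1 hr.2.2, zdif_sum u h0 b n hr.2.2 hr.2.1]
    · simp only [cP, cQ, rvl, if_true]
      rw [zdif_sum u h0 b n hr.2.2 hr.2.1, zdif_sum u h0 a b hr.1 hr.2.2, add_comm]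

/-- a row with value `0` is satisfied -/
private theorem sat_of_rvl {A : Type} [AddCommGroup A] (T : A ≃+ A) (f : Bool) (u : ℕ → A) (r : Row)
    (h : rvl T f u r = 0) : Sat (aq T) (fun v => (u v, true)) f r := by
  cases r with
  | mg a b =>
    simp only [rvl] at h
    simp only [Sat, sub_eq_zero.1 h]
  | ps a n b =>
    cases f
    · simp only [rvl, Bool.false_eq_true, if_false] at h
      have h1 : T (u n - u b) = u a - u b := by
        have : T (u b - u n) = -T (u n - u b) := by rw [← map_neg, neg_sub]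
        rw [this] at h
        exact (sub_eq_zero.1 (by rw [sub_eq_add_neg]; exact h)).symm
      have h2 : T.symm (u a - u b) = u n - u b := by rw [← h1, T.symm_apply_apply]
      simp only [Sat, ed, Bool.false_eq_true, if_false, aq, Equiv.coe_fn_mk, Bool.not_true, ax_false, h2]
      simp
    · simp only [rvl, if_true] at h
      have h1 : T (u a - u b) = u n - u b := by
        rw [← sub_eq_zero, ← h]
        abel
      simp only [Sat, ed, if_true, aq, Equiv.coe_fn_mk, ax_true, h1]
      simp

/-- the relation of a triple -/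
private theorem arel_of_psat (q t : ℕ) (T : ZMod q ≃+ ZMod q) (hT : ∀ a, T a = (t : ZMod q) * a) (f : Bool)
    (x a b : ZMod q × Bool) (h1 : x.2 = true) (h2 : a.2 = true) (h3 : b.2 = true)
    (h : x = (aq T).op (ed (aq T) f b) a) :
    if f then (t : ZMod q) * (a.1 - b.1) + (b.1 - x.1) = 0
    else (a.1 - b.1) + (t : ZMod q) * (b.1 - x.1) = 0 := by
  obtain ⟨x, x'⟩ := x
  obtain ⟨a, a'⟩ := a
  obtain ⟨b, b'⟩ := b
  simp only at h1 h2 h3
  subst h1 h2 h3
  cases f
  · simp only [ed, Bool.false_eq_true, if_false, aq, Equiv.coe_fn_mk, Bool.not_true, ax_false,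
      Prod.mk.injEq, and_true] at h
    simp only [Bool.false_eq_true, if_false]
    have h1 : x - b = T.symm (a - b) := by rw [h]; abel
    have h2 : T (x - b) = a - b := by rw [h1, T.apply_symm_apply]
    rw [hT] at h2
    rw [← h2]
    ring
  · simp only [ed, if_true, aq, Equiv.coe_fn_mk, ax_true, Prod.mk.injEq, and_true] at h
    simp only [if_true]
    rw [h, hT]
    ring

private theorem ker_zero (q t : ℕ) [Fact q.Prime] (T : ZMod q ≃+ ZMod q)
    (hT : ∀ a, T a = (t : ZMod q) * a) (R : List Row) (g : List Bool) (hg : g.length = R.length)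
    (hlt : ∀ r ∈ R, r.x ≤ R.length ∧ r.y ≤ R.length ∧ r.z ≤ R.length) (π : ℕ → ℕ)
    (P : List (ℕ × ℕ × Bool)) (hR : Red (R.zip g) R.length π P) (e : Bool) (h : Triv q t e P)
    (G : ℕ → Bool) (hG : ∀ i, i < R.length → G i = xor e (g.getD i true))
    (v : Fin R.length → ZMod q) (hv : v ∈ Kr T (MP R G R.length) (MQ R G R.length)) : v = 0 := by
  set u : ℕ → ZMod q := fun k => if h : k - 1 < R.length ∧ k ≠ 0 then v ⟨k - 1, h.1⟩ else 0 with hu
  have hu0 : u 0 = 0 := by simp [hu]
  have huv : ∀ j : Fin R.length, u ((j : ℕ) + 1) = v j := by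
    intro j
    simp only [hu]
    rw [dif_pos ⟨by have := j.2; omega, by omega⟩]
    congr 1
  simp only [Kr, Finset.mem_filter, Finset.mem_univ, true_and] at hv
  have hrow : ∀ p ∈ R.zip g, rvl T (xor e p.2) u p.1 = 0 := by
    intro p hp
    obtain ⟨i, hi, hpi⟩ := List.mem_iff_getElem.1 hp
    rw [List.length_zip] at hi
    have hiR : i < R.length := by omega
    have hig : i < g.length := by omega
    rw [List.getElem_zip] at hpi
    have h1 := hv ⟨i, hiR⟩
    simp only [MP, MQ] at h1
    have e1 : R.getD i (.mg 0 0) = p.1 := by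
      rw [List.getD_eq_getElem _ _ hiR, ← hpi]
    have e2 : g.getD i true = p.2 := by
      rw [List.getD_eq_getElem _ _ hig, ← hpi]
    rw [hG i hiR, e1, e2] at h1
    have h2 := row_rvl (m := R.length) T (xor e p.2) u hu0 p.1
      (hlt p.1 (by rw [← e1, List.getD_eq_getElem _ _ hiR]; exact List.getElem_mem hiR))
    rw [← h2]
    simp only [huv]
    exact h1
  obtain ⟨w, hw1, hw2⟩ := hR.ker e (ZMod q × Bool) (aq T) (fun v => (u v, true))
    (fun p hp => sat_of_rvl T _ u p.1 (hrow p hp))
  have hw3 : ∀ k ≤ P.length, (w k).2 = true := by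
    intro k hk
    obtain ⟨v', hv1, hv2⟩ := hR.sur k hk
    rw [← hv2, ← hw2 v' hv1]
  have hw0 : (w 0).1 = 0 := by
    have := hw2 0 (Nat.zero_le _)
    rw [hR.zero] at this
    rw [← this]
    exact hu0
  have hz : ∀ k ≤ P.length, (w k).1 = 0 := by
    refine h (fun k => (w k).1) hw0 ?_
    intro i p hp
    have hi : i < P.length := by
      by_contra hc
      rw [List.getElem?_eq_none (by omega)] at hp
      exact absurd hp (by simp)
    obtain ⟨h1, h2⟩ := hR.inc i p hp
    exact arel_of_psat q t T hT (xor e p.2.2) (w (i + 1)) (w p.1) (w p.2.1) (hw3 _ (by omega))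
      (hw3 _ (by omega)) (hw3 _ h2) (hw1 i p hp)
  funext j
  have h1 := hw2 ((j : ℕ) + 1) (by have := j.2; omega)
  have h2 := hz (π ((j : ℕ) + 1)) (hR.le _ (by have := j.2; omega))
  rw [← h1] at h2
  simp only at h2
  rw [huv] at h2
  exact h2

theorem cola_le_one (q t : ℕ) [Fact q.Prime] (T : ZMod q ≃+ ZMod q) (hT : ∀ a, T a = (t : ZMod q) * a)
    (x : ℕ → Bool) (S : List Bd) (hS : Dsk S) (hx : okk S 1 x [true]) (π : ℕ → ℕ) (P : List (ℕ × ℕ × Bool))
    (hR : Red ((rows S 1 [0]).zip (fgs S 1 x [true])) (rows S 1 [0]).length π P)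
    (h : ∀ e, Triv q t e P) : cola T (bdw S) ≤ 1 := by
  classical
  set R := rows S 1 [0] with hRdef
  set g := fgs S 1 x [true] with hgdef
  have hg : g.length = R.length := fgs_len S 1 x [true] [0]
  obtain ⟨hbm, hlt⟩ := rows_le S hS.2.2 (m := R.length) rfl
  set F : ℕ → Bool := fun i => g.getD i true with hF
  rw [cola_bdw T x S hS hx]
  refine le_trans (ocnt T x S hS.1 hS.2.2 hx (m := R.length) rfl F (fun i => rfl)) ?_
  have k1 : ∀ v ∈ Kr T (MP R F R.length) (MQ R F R.length), v = 0 := fun v hv =>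
    ker_zero q t T hT R g hg hlt π P hR false (h false) F (fun i _ => by simp [hF]) v hv
  have k2 : ∀ v ∈ Kr T (MP R (fun i => !(F i)) R.length) (MQ R (fun i => !(F i)) R.length), v = 0 :=
    fun v hv =>
    ker_zero q t T hT R g hg hlt π P hR true (h true) (fun i => !(F i)) (fun i _ => by simp [hF]) v hv
  set P' := MP R (fun i => !(F i)) R.length with hP'
  set Q' := MQ R (fun i => !(F i)) R.length with hQ'
  set N : Matrix (Fin R.length) (Fin R.length) (ZMod q) :=
    fun i j => ((P' i j : ℤ) : ZMod q) + (t : ZMod q) * ((Q' i j : ℤ) : ZMod q) with hN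
  have conv : ∀ (A B : Matrix (Fin R.length) (Fin R.length) ℤ) (v : Fin R.length → ZMod q) (i : Fin R.length),
      ∑ j, A i j • v j + T (∑ j, B i j • v j) =
        ∑ j, (((A i j : ℤ) : ZMod q) + (t : ZMod q) * ((B i j : ℤ) : ZMod q)) * v j := by
    intro A B v i
    rw [hT, Finset.mul_sum, ← Finset.sum_add_distrib]
    refine Finset.sum_congr rfl fun j _ => ?_
    rw [zsmul_eq_mul, zsmul_eq_mul]
    ring
  have hdet : N.det ≠ 0 := by
    intro hd
    obtain ⟨v, hv0, hv⟩ := Matrix.exists_mulVec_eq_zero_iff.2 hd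
    apply hv0
    apply k2
    simp only [Kr, Finset.mem_filter, Finset.mem_univ, true_and]
    intro i
    rw [conv]
    exact congrFun hv i
  have k3 : ∀ v ∈ Kr T P'.transpose Q'.transpose, v = 0 := by
    intro v hv
    simp only [Kr, Finset.mem_filter, Finset.mem_univ, true_and] at hv
    refine Matrix.eq_zero_of_mulVec_eq_zero (M := N.transpose) (by rwa [Matrix.det_transpose]) ?_
    funext i
    have := hv i
    rw [conv] at this
    exact this
  have c1 : (Kr T (MP R F R.length) (MQ R F R.length)).card ≤ 1 :=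
    Finset.card_le_one.2 fun a ha b hb => by rw [k1 a ha, k1 b hb]
  have c2 : (Kr T P'.transpose Q'.transpose).card ≤ 1 :=
    Finset.card_le_one.2 fun a ha b hb => by rw [k3 a ha, k3 b hb]
  calc _ ≤ 1 * 1 := Nat.mul_le_mul c1 c2
    _ = 1 := rfl

end Pool.Agent.H86.RN
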