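import Pool.Agent.H86.RN.NKcl
import Pool.Agent.H86.RT.Alx

/-!
# [H86 RN KL] `10_123` has non-trivial Alexander colourings modulo 11 and modulo 19

PROOF. `card_kq` for `aq T` and `c = (0, true)`: the pair `((0, true), (0, true))` is in the filter, and another one: modulo `11`, `T = -1`:
`((1, true), (0, true))` (every pair closes); modulo `19`, `T = 3`: every pair `((a, true), (b, true))` closes as well (the Alexander module
of `10_123` is `Z[t]/D ⊕ Z[t]/D`, `D = t^4 - 3t^3 + 3t^2 - 3t + 1`, `D(3) = 19`), e.g. `((1, true), (0, true))`. For the computation rewrite `T a` by the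
given formula (`ax`, `T.symm a = 13 * a` modulo `19`, `T.symm a = -a` modulo `11`), then `decide`. So the card is at least `2`.
-/

set_option autoImplicit false

namespace Pool.Agent.H86.RN

open Pool.Agent.H86.RB Pool.Agent.H86.RT

private theorem stq_aq {n : ℕ} (T : ZMod n ≃+ ZMod n) (t s : ZMod n) (hT : ∀ a, T a = t * a)
    (hS : ∀ a, T.symm a = s * a) (a b c : ZMod n) :
    stq (aq T) ((a, true), (b, true), (c, true)) =
      ((a + t * (c - a), true), (a, true), (c + s * (b - c), true)) := by
  have h1 : (aq T).op (a, true) (c, true) = (a + T (c - a), true) := rfl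
  have h2 : ((aq T).op (c, true)).symm (b, true) = (c + T.symm (b - c), true) := rfl
  simp only [stq]
  rw [h1, h2, hT, hS]

private theorem two_le {n : ℕ} [NeZero n] (T : ZMod n ≃+ ZMod n) (t s x : ZMod n)
    (hT : ∀ a, T a = t * a) (hS : ∀ a, T.symm a = s * a) (hx : (0 : ZMod n) ≠ x)
    (h0 : brq (aq T) (((0 : ZMod n), true), ((0 : ZMod n), true), ((0 : ZMod n), true)) =
      (((0 : ZMod n), true), ((0 : ZMod n), true), ((0 : ZMod n), true)))
    (h1 : (brq (aq T) ((x, true), ((0 : ZMod n), true), ((0 : ZMod n), true))).1 = (x, true))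
    (h2 : (brq (aq T) ((x, true), ((0 : ZMod n), true), ((0 : ZMod n), true))).2.2 =
      ((0 : ZMod n), true)) : 1 < cola T kq := by
  unfold cola
  rw [card_kq, Finset.one_lt_card]
  refine ⟨(((0 : ZMod n), true), ((0 : ZMod n), true)), ?_, ((x, true), ((0 : ZMod n), true)), ?_, ?_⟩
  · simp only [Finset.mem_filter, Finset.mem_univ, true_and]
    rw [h0]
    exact ⟨rfl, rfl⟩
  · simp only [Finset.mem_filter, Finset.mem_univ, true_and]
    exact ⟨h1, h2⟩
  · intro h
    exact hx (congrArg (fun q => q.1.1) h)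

theorem kq_eleven (T : ZMod 11 ≃+ ZMod 11) (hT : ∀ a, T a = ((10 : ℕ) : ZMod 11) * a) : 1 < cola T kq := by
  have hS : ∀ a, T.symm a = (10 : ZMod 11) * a := by
    intro a
    rw [AddEquiv.symm_apply_eq, hT]
    revert a
    decide
  have hT' : ∀ a, T a = (10 : ZMod 11) * a := by
    intro a
    rw [hT]
    rfl
  have e := stq_aq T 10 10 hT' hS
  refine two_le T 10 10 1 hT' hS (by decide) ?_ ?_ ?_
  · simp only [brq, e]
    decide
  · simp only [brq, e]
    decide
  · simp only [brq, e]
    decide

theorem kq_nineteen (T : ZMod 19 ≃+ ZMod 19) (hT : ∀ a, T a = ((3 : ℕ) : ZMod 19) * a) : 1 < cola T kq := by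
  have hS : ∀ a, T.symm a = (13 : ZMod 19) * a := by
    intro a
    rw [AddEquiv.symm_apply_eq, hT]
    revert a
    decide
  have hT' : ∀ a, T a = (3 : ZMod 19) * a := by
    intro a
    rw [hT]
    rfl
  have e := stq_aq T 3 13 hT' hS
  refine two_le T 3 13 1 hT' hS (by decide) ?_ ?_ ?_
  · simp only [brq, e]
    decide
  · simp only [brq, e]
    decide
  · simp only [brq, e]
    decide

end Pool.Agent.H86.RN
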