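import Pool.Agent.H86.RN.NDefs

/-!
# [H86 RN KCL] Colourings of `10_123`

PROOF. After the two cups the strands have the colours `c1, bar c1, c, c2, bar c2` (`c1`, `c2` arbitrary). The crossings only see the
strands `1, 2, 3`: one round `neg 2, pos 1` is `stq Q`. The cap at `3` needs `bar c2 = bar z3`, so `c2 = z3`; the cap at `0` needs `z1 = bar c1`.
So the number is the number of the pairs `(c1, c2)` with `z1 = bar c1`, `z3 = c2` where `(z1, z2, z3) = stq^5 (bar c1, c, c2)`; substitute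
`y1 = bar c1` (a bijection). Unfold `kq`, `srun`, `sstp`, `sloc` with `simp` (`List.take`, `List.drop` of explicit lists), then
`Multiset.card_bind`, sums over `univ` of `if .. then 1 else 0` = card of a filter. Write the five rounds as a lemma
`srun Q [⟨.neg, 2⟩, ⟨.pos, 1⟩] [a, y1, y2, y3, d] = {[a, (stq Q (y1, y2, y3)).1, .., .., d]}` and use `srun_append`.
-/

set_option autoImplicit false

namespace Pool.Agent.H86.RN

open Pool.Agent.H86.RB Pool.Agent.H86.RT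

/-- one round of the braid -/
def stq {C : Type} (Q : Sq C) (y : C × C × C) : C × C × C :=
  (Q.op y.1 y.2.2, y.1, (Q.op y.2.2).symm y.2.1)

/-- the whole braid -/
def brq {C : Type} (Q : Sq C) (y : C × C × C) : C × C × C :=
  stq Q (stq Q (stq Q (stq Q (stq Q y))))

private theorem kq_rnd {C : Type} [Fintype C] [DecidableEq C] (Q : Sq C) (w : Wd) (a d : C)
    (y : C × C × C) :
    srun Q (⟨.neg, 2⟩ :: ⟨.pos, 1⟩ :: w) [a, y.1, y.2.1, y.2.2, d] =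
      srun Q w [a, (stq Q y).1, (stq Q y).2.1, (stq Q y).2.2, d] := by
  rw [srun_cons]
  have h1 : sstp Q ⟨.neg, 2⟩ [a, y.1, y.2.1, y.2.2, d] =
      {[a, y.1, y.2.2, (Q.op y.2.2).symm y.2.1, d]} := by
    simp [sstp, sloc]
  rw [h1, Multiset.singleton_bind, srun_cons]
  have h2 : sstp Q ⟨.pos, 1⟩ [a, y.1, y.2.2, (Q.op y.2.2).symm y.2.1, d] =
      {[a, Q.op y.1 y.2.2, y.1, (Q.op y.2.2).symm y.2.1, d]} := by
    simp [sstp, sloc]
  rw [h2, Multiset.singleton_bind]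
  rfl

private theorem kq_end {C : Type} [Fintype C] [DecidableEq C] (Q : Sq C) (x y : C)
    (z : C × C × C) :
    Multiset.card (srun Q [⟨.cap, 3⟩, ⟨.cap, 0⟩] [x, z.1, z.2.1, z.2.2, Q.bar y]) =
      if z.1 = Q.bar x ∧ z.2.2 = y then 1 else 0 := by
  have hb : Q.bar y = Q.bar z.2.2 ↔ z.2.2 = y := by
    constructor
    · intro h
      rw [← Q.bar_bar z.2.2, ← h, Q.bar_bar]
    · rintro rfl
      rfl
  rw [srun_cons]
  by_cases h : z.2.2 = y
  · have h1 : sstp Q ⟨.cap, 3⟩ [x, z.1, z.2.1, z.2.2, Q.bar y] = {[x, z.1, z.2.1]} := by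
      simp [sstp, sloc, h]
    rw [h1, Multiset.singleton_bind, srun_cons]
    by_cases h2 : z.1 = Q.bar x
    · have h3 : sstp Q ⟨.cap, 0⟩ [x, z.1, z.2.1] = {[z.2.1]} := by
        simp [sstp, sloc, h2]
      rw [h3, Multiset.singleton_bind, srun_nil, if_pos ⟨h2, h⟩, Multiset.card_singleton]
    · have h3 : sstp Q ⟨.cap, 0⟩ [x, z.1, z.2.1] = 0 := by
        simp [sstp, sloc, h2]
      rw [h3, Multiset.zero_bind, if_neg (fun h4 => h2 h4.1), Multiset.card_zero]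
  · have h1 : sstp Q ⟨.cap, 3⟩ [x, z.1, z.2.1, z.2.2, Q.bar y] = 0 := by
      simp [sstp, sloc, hb, h]
    rw [h1, Multiset.zero_bind, if_neg (fun h4 => h h4.2), Multiset.card_zero]

private theorem kq_five {C : Type} [Fintype C] [DecidableEq C] (Q : Sq C) (w : Wd) (a d : C)
    (y : C × C × C) :
    srun Q (⟨.neg, 2⟩ :: ⟨.pos, 1⟩ :: ⟨.neg, 2⟩ :: ⟨.pos, 1⟩ :: ⟨.neg, 2⟩ :: ⟨.pos, 1⟩ ::
      ⟨.neg, 2⟩ :: ⟨.pos, 1⟩ :: ⟨.neg, 2⟩ :: ⟨.pos, 1⟩ :: w) [a, y.1, y.2.1, y.2.2, d] =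
      srun Q w [a, (brq Q y).1, (brq Q y).2.1, (brq Q y).2.2, d] := by
  unfold brq
  exact (kq_rnd Q _ a d y).trans ((kq_rnd Q _ a d _).trans ((kq_rnd Q _ a d _).trans
    ((kq_rnd Q _ a d _).trans (kq_rnd Q w a d _))))

private theorem kq_cups {C : Type} [Fintype C] [DecidableEq C] (Q : Sq C) (W : Wd) (c : C) :
    Multiset.card (srun Q (⟨.cup, 0⟩ :: ⟨.cup, 3⟩ :: W) [c]) = ∑ x : C, ∑ y : C,
      Multiset.card (srun Q W [x, Q.bar x, c, y, Q.bar y]) := by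
  have h1 : sstp Q ⟨.cup, 0⟩ [c] = Finset.univ.val.map (fun x => [x, Q.bar x, c]) := by
    simp [sstp, sloc]
  have h2 : ∀ x : C, sstp Q ⟨.cup, 3⟩ [x, Q.bar x, c] =
      Finset.univ.val.map (fun y => [x, Q.bar x, c, y, Q.bar y]) := by
    intro x
    simp [sstp, sloc]
  rw [srun_cons, h1, Multiset.bind_map, Multiset.card_bind]
  refine congrArg Multiset.sum (Multiset.map_congr rfl fun x _ => ?_)
  change Multiset.card (srun Q (⟨.cup, 3⟩ :: W) [x, Q.bar x, c]) = _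
  rw [srun_cons, h2, Multiset.bind_map, Multiset.card_bind]
  rfl

private theorem kq_sum {C : Type} [Fintype C] [DecidableEq C] (Q : Sq C) (f : C × C × C → C × C × C)
    (c : C) :
    (∑ x : C, ∑ y : C, if (f (Q.bar x, c, y)).1 = Q.bar x ∧ (f (Q.bar x, c, y)).2.2 = y
      then 1 else 0) = (Finset.univ.filter (fun p : C × C =>
      (f (p.1, c, p.2)).1 = p.1 ∧ (f (p.1, c, p.2)).2.2 = p.2)).card := by
  rw [Finset.card_filter, Fintype.sum_prod_type]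
  let b : C ≃ C := ⟨Q.bar, Q.bar, Q.bar_bar, Q.bar_bar⟩
  exact Equiv.sum_comp b (fun x => ∑ y : C,
    if (f (x, c, y)).1 = x ∧ (f (x, c, y)).2.2 = y then 1 else 0)

theorem card_kq {C : Type} [Fintype C] [DecidableEq C] (Q : Sq C) (c : C) :
    Multiset.card (srun Q kq [c]) = (Finset.univ.filter (fun p : C × C =>
      (brq Q (p.1, c, p.2)).1 = p.1 ∧ (brq Q (p.1, c, p.2)).2.2 = p.2)).card := by
  have hk : kq = ⟨.cup, 0⟩ :: ⟨.cup, 3⟩ :: (⟨.neg, 2⟩ :: ⟨.pos, 1⟩ :: ⟨.neg, 2⟩ :: ⟨.pos, 1⟩ ::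
      ⟨.neg, 2⟩ :: ⟨.pos, 1⟩ :: ⟨.neg, 2⟩ :: ⟨.pos, 1⟩ :: ⟨.neg, 2⟩ :: ⟨.pos, 1⟩ ::
      [⟨.cap, 3⟩, ⟨.cap, 0⟩]) := by
    unfold kq
    rfl
  rw [hk, kq_cups, ← kq_sum Q (brq Q) c]
  refine Finset.sum_congr rfl fun x _ => Finset.sum_congr rfl fun y _ => ?_
  have h5 := kq_five Q [⟨.cap, 3⟩, ⟨.cap, 0⟩] x (Q.bar y) (Q.bar x, c, y)
  exact (congrArg Multiset.card h5).trans (kq_end Q x y _)

end Pool.Agent.H86.RN
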