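import Pool.Agent.H86.RN.NDefs

/-!
# [H86 RN TK] A test for the triviality of a kernel modulo a prime

`tk q n M` eliminates the first column with a pivot row (cross multiplication, no inverses) and goes on; numbers are natural
numbers modulo `q`, so that the kernel of Lean computes with GMP.

PROOF of `tk_sound`, induction on `n`: `evl r v = r.headD 0 * v 0 + evl r.tail (v ∘ succ)`. Let `p` be the pivot row, `p0` its head, `p0 ≠ 0`
in the field `ZMod q`. For `r ∈ M` with head `r0`: `evl (cmb q p0 r0 r.tail p.tail) v' = p0 * evl r.tail v' - r0 * evl p.tail v'`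
(`v' = v ∘ succ`, both tails have length `n`; `((q - r0 % q : ℕ) : ZMod q) = -r0`), and this is
`p0 * (-(r0 * v 0)) - r0 * (-(p0 * v 0)) = 0`. So the induction hypothesis gives `v' k = 0` for `k < n`, then `p0 * v 0 = 0`.

PROOF of `triv_of_tk`: let `v k = w (k + 1)`; for every triple of the pattern the row of `pmat` evaluated at `v` is the left side of
the relation, because `w 0 = 0` (the column of the vertex `0` is dropped; `t.2.1 ≤ P.length`, `t.1 ≤ i` by `Inc`, so every index that
is not `0` has a column). `(q + 1 - t : ℕ)` is `1 - t` in `ZMod q` since `t ≤ q`.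
-/

set_option autoImplicit false

namespace Pool.Agent.H86.RN

open Pool.Agent.H86.RB Pool.Agent.H86.RT

/-- `p0 * r - r0 * p` modulo `q` -/
def cmb (q p0 r0 : ℕ) : List ℕ → List ℕ → List ℕ
  | x :: r, y :: p => (p0 * x + (q - r0 % q) * y) % q :: cmb q p0 r0 r p
  | _, _ => []

/-- elimination; `true` means that the kernel is trivial -/
def tk (q : ℕ) : ℕ → List (List ℕ) → Bool
  | 0, _ => true
  | n + 1, M =>
    match M.find? (fun r => !(Nat.beq (r.headD 0 % q) 0)) with
    | none => false
    | some p => tk q n (M.map (fun r => cmb q (p.headD 0) (r.headD 0) r.tail p.tail))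

/-- value of a linear form -/
def evl {q : ℕ} : List ℕ → (ℕ → ZMod q) → ZMod q
  | [], _ => 0
  | x :: r, v => (x : ZMod q) * v 0 + evl r (fun k => v (k + 1))

private theorem cast_q_sub (q : ℕ) [Fact q.Prime] (r : ℕ) :
    ((q - r % q : ℕ) : ZMod q) = -(r : ZMod q) := by
  have hq : 0 < q := (Fact.out : q.Prime).pos
  rw [Nat.cast_sub (Nat.mod_lt r hq).le, ZMod.natCast_self, ZMod.natCast_mod, zero_sub]

private theorem evl_cmb (q : ℕ) [Fact q.Prime] (p0 r0 : ℕ) : ∀ (a b : List ℕ) (v : ℕ → ZMod q),
    a.length = b.length →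
    evl (cmb q p0 r0 a b) v = (p0 : ZMod q) * evl a v - (r0 : ZMod q) * evl b v
  | [], [], v, _ => by simp [cmb, evl]
  | x :: a, y :: b, v, h => by
    have ih := evl_cmb q p0 r0 a b (fun k => v (k + 1)) (by simpa using h)
    simp only [cmb, evl]
    rw [ih, ZMod.natCast_mod, Nat.cast_add, Nat.cast_mul, Nat.cast_mul, cast_q_sub]
    ring
  | [], _ :: _, _, h => by simp at h
  | _ :: _, [], _, h => by simp at h

private theorem cmb_length (q p0 r0 : ℕ) : ∀ (a b : List ℕ), a.length = b.length →
    (cmb q p0 r0 a b).length = a.length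
  | [], [], _ => rfl
  | x :: a, y :: b, h => by
    simp only [cmb, List.length_cons]
    rw [cmb_length q p0 r0 a b (by simpa using h)]
  | [], _ :: _, h => by simp at h
  | _ :: _, [], h => by simp at h

private theorem evl_zero {q : ℕ} : ∀ (r : List ℕ) (v : ℕ → ZMod q), (∀ k < r.length, v k = 0) →
    evl r v = 0
  | [], _, _ => rfl
  | x :: r, v, h => by
    simp only [evl]
    rw [h 0 (by simp), evl_zero r (fun k => v (k + 1)) fun k hk => h (k + 1) (by simpa using hk)]
    ring

theorem tk_sound (q : ℕ) [Fact q.Prime] (n : ℕ) (M : List (List ℕ)) (hM : ∀ r ∈ M, r.length = n)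
    (h : tk q n M = true) (v : ℕ → ZMod q) (hv : ∀ r ∈ M, evl r v = 0) : ∀ k < n, v k = 0 := by
  induction n generalizing M v with
  | zero => intro k hk; omega
  | succ n ih =>
    rw [tk] at h
    cases hf : M.find? (fun r => !(Nat.beq (r.headD 0 % q) 0)) with
    | none => rw [hf] at h; simp at h
    | some p =>
      rw [hf] at h
      simp only at h
      have hpM : p ∈ M := List.mem_of_find?_eq_some hf
      have hp0 : p.headD 0 % q ≠ 0 := by
        have h1 := List.find?_some hf
        intro h2
        rw [h2] at h1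
        simp at h1
      have hp0' : ((p.headD 0 : ℕ) : ZMod q) ≠ 0 := by
        intro h2
        rw [ZMod.natCast_eq_zero_iff] at h2
        exact hp0 (Nat.mod_eq_zero_of_dvd h2)
      have hsplit : ∀ r ∈ M, ∃ r0 rt, r = r0 :: rt ∧ rt.length = n := by
        intro r hr
        have h1 := hM r hr
        cases r with
        | nil => simp at h1
        | cons r0 rt => exact ⟨r0, rt, rfl, by simpa using h1⟩
      obtain ⟨p0, pt, rfl, hpt⟩ := hsplit p hpM
      simp only [List.headD_cons, List.tail_cons] at h hp0 hp0'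
      have hpv := hv _ hpM
      simp only [evl] at hpv
      have key : ∀ k < n, v (k + 1) = 0 := by
        refine ih (M.map (fun r => cmb q p0 (r.headD 0) r.tail pt)) ?_ h (fun k => v (k + 1)) ?_
        · intro r hr
          rw [List.mem_map] at hr
          obtain ⟨r', hr', rfl⟩ := hr
          obtain ⟨r0, rt, rfl, hrt⟩ := hsplit r' hr'
          simp only [List.headD_cons, List.tail_cons]
          rw [cmb_length q p0 r0 rt pt (by rw [hrt, hpt]), hrt]
        · intro r hr
          rw [List.mem_map] at hr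
          obtain ⟨r', hr', rfl⟩ := hr
          obtain ⟨r0, rt, rfl, hrt⟩ := hsplit r' hr'
          simp only [List.headD_cons, List.tail_cons]
          rw [evl_cmb q p0 r0 rt pt _ (by rw [hrt, hpt])]
          have hrv := hv _ hr'
          simp only [evl] at hrv
          have e1 : evl rt (fun k => v (k + 1)) = -((r0 : ZMod q) * v 0) := by
            linear_combination hrv
          have e2 : evl pt (fun k => v (k + 1)) = -((p0 : ZMod q) * v 0) := by
            linear_combination hpv
          rw [e1, e2]
          ring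
      intro k hk
      cases k with
      | succ k => exact key k (by omega)
      | zero =>
        have e1 : evl pt (fun k => v (k + 1)) = 0 :=
          evl_zero pt _ fun k hk => key k (by omega)
        rw [e1, add_zero] at hpv
        exact (mul_eq_zero.mp hpv).resolve_left hp0'

/-- the relation of a triple of a pattern for the Alexander quandle of `t` modulo `q` (number `i`) -/
def ARel (q t : ℕ) (e : Bool) (w : ℕ → ZMod q) (i : ℕ) (T : ℕ × ℕ × Bool) : Prop :=
  if xor e T.2.2 then (t : ZMod q) * (w T.1 - w T.2.1) + (w T.2.1 - w (i + 1)) = 0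
  else (w T.1 - w T.2.1) + (t : ZMod q) * (w T.2.1 - w (i + 1)) = 0

/-- the pattern has no colouring besides the constant ones -/
def Triv (q t : ℕ) (e : Bool) (P : List (ℕ × ℕ × Bool)) : Prop :=
  ∀ w : ℕ → ZMod q, w 0 = 0 → (∀ (i : ℕ) (T : ℕ × ℕ × Bool), P[i]? = some T → ARel q t e w i T) →
    ∀ k ≤ P.length, w k = 0

/-- `1` if `x = y`, else `0` -/
def dl (x y : ℕ) : ℕ := if Nat.beq x y then 1 else 0

/-- the row of a triple, without the column of the vertex `0` -/
def prow (q t r : ℕ) (e : Bool) (i : ℕ) (T : ℕ × ℕ × Bool) : List ℕ :=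
  (List.range r).map (fun k =>
    if xor e T.2.2 then (t * dl (k + 1) T.1 + (q + 1 - t) * dl (k + 1) T.2.1 + (q - 1) * dl k i) % q
    else (dl (k + 1) T.1 + (q + t - 1) * dl (k + 1) T.2.1 + (q - t) * dl k i) % q)

/-- the rows of all triples, numbered from `i` on -/
def pmat (q t r : ℕ) (e : Bool) : ℕ → List (ℕ × ℕ × Bool) → List (List ℕ)
  | _, [] => []
  | i, T :: P => prow q t r e i T :: pmat q t r e (i + 1) P

private theorem mem_pmat (q t r : ℕ) (e : Bool) : ∀ (P : List (ℕ × ℕ × Bool)) (i : ℕ)
    (row : List ℕ), row ∈ pmat q t r e i P →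
    ∃ (j : ℕ) (T : ℕ × ℕ × Bool), P[j]? = some T ∧ row = prow q t r e (i + j) T
  | [], i, row, h => by simp [pmat] at h
  | T :: P, i, row, h => by
    rw [pmat, List.mem_cons] at h
    rcases h with h | h
    · exact ⟨0, T, by simp, by simpa using h⟩
    · obtain ⟨j, T', h1, h2⟩ := mem_pmat q t r e P (i + 1) row h
      exact ⟨j + 1, T', by simpa using h1, by rw [h2]; congr 1; omega⟩

private theorem evl_range {q : ℕ} (f : ℕ → ℕ) (r : ℕ) : ∀ (v : ℕ → ZMod q),
    evl ((List.range r).map f) v = ∑ k ∈ Finset.range r, (f k : ZMod q) * v k := by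
  induction r generalizing f with
  | zero => intro v; simp [evl]
  | succ r ih =>
    intro v
    rw [List.range_succ_eq_map, List.map_cons, List.map_map, evl, Finset.sum_range_succ']
    rw [ih (f ∘ Nat.succ) (fun k => v (k + 1)), add_comm]
    rfl

private theorem sum_dl {q : ℕ} (w : ℕ → ZMod q) (h0 : w 0 = 0) (r a : ℕ) (ha : a ≤ r) :
    ∑ k ∈ Finset.range r, (dl (k + 1) a : ZMod q) * w (k + 1) = w a := by
  have h1 : ∑ k ∈ Finset.range r, (dl (k + 1) a : ZMod q) * w (k + 1) =
      ∑ k ∈ Finset.range (r + 1), (dl k a : ZMod q) * w k := by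
    rw [Finset.sum_range_succ', h0, mul_zero, add_zero]
  rw [h1, Finset.sum_eq_single a]
  · simp [dl]
  · intro b _ hb
    have : Nat.beq b a = false := by
      rw [Bool.eq_false_iff]
      intro h2
      exact hb (Nat.eq_of_beq_eq_true h2)
    simp [dl, this]
  · intro h2
    exact absurd (Finset.mem_range.mpr (by omega)) h2

private theorem sum_dl' {q : ℕ} (w : ℕ → ZMod q) (r i : ℕ) (hi : i < r) :
    ∑ k ∈ Finset.range r, (dl k i : ZMod q) * w (k + 1) = w (i + 1) := by
  rw [Finset.sum_eq_single i]
  · simp [dl]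
  · intro b _ hb
    have : Nat.beq b i = false := by
      rw [Bool.eq_false_iff]
      intro h2
      exact hb (Nat.eq_of_beq_eq_true h2)
    simp [dl, this]
  · intro h2
    exact absurd (Finset.mem_range.mpr hi) h2

theorem triv_of_tk (q t : ℕ) [Fact q.Prime] (h1 : 1 ≤ t) (h2 : t ≤ q) (e : Bool) (P : List (ℕ × ℕ × Bool))
    (hP : Inc P) (h : tk q P.length (pmat q t P.length e 0 P) = true) : Triv q t e P := by
  intro w h0 hw k hk
  have hlen : ∀ r ∈ pmat q t P.length e 0 P, r.length = P.length := by
    intro r hr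
    obtain ⟨j, T, -, rfl⟩ := mem_pmat q t _ e P 0 r hr
    simp [prow]
  have hval : ∀ r ∈ pmat q t P.length e 0 P, evl r (fun k => w (k + 1)) = 0 := by
    intro r hr
    obtain ⟨j, T, hj, rfl⟩ := mem_pmat q t _ e P 0 r hr
    rw [zero_add]
    have hjl : j < P.length := (List.getElem?_eq_some_iff.mp hj).1
    obtain ⟨ha, hb⟩ := hP j T hj
    have hrel := hw j T hj
    unfold ARel at hrel
    have c1 : ((q + 1 - t : ℕ) : ZMod q) = 1 - (t : ZMod q) := by
      rw [Nat.cast_sub (by omega), Nat.cast_add, ZMod.natCast_self, Nat.cast_one]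
      ring
    have c2 : ((q - 1 : ℕ) : ZMod q) = -1 := by
      rw [Nat.cast_sub (by omega), ZMod.natCast_self, Nat.cast_one]
      ring
    have c3 : ((q + t - 1 : ℕ) : ZMod q) = (t : ZMod q) - 1 := by
      rw [Nat.cast_sub (by omega), Nat.cast_add, ZMod.natCast_self, Nat.cast_one]
      ring
    have c4 : ((q - t : ℕ) : ZMod q) = -(t : ZMod q) := by
      rw [Nat.cast_sub h2, ZMod.natCast_self]
      ring
    have s1 := sum_dl w h0 P.length T.1 (by omega)
    have s2 := sum_dl w h0 P.length T.2.1 hb
    have s3 := sum_dl' w P.length j hjl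
    rw [prow, evl_range]
    by_cases hx : (xor e T.2.2) = true
    · rw [if_pos hx] at hrel
      have e1 : ∑ k ∈ Finset.range P.length, (((if xor e T.2.2 then
            (t * dl (k + 1) T.1 + (q + 1 - t) * dl (k + 1) T.2.1 + (q - 1) * dl k j) % q
          else (dl (k + 1) T.1 + (q + t - 1) * dl (k + 1) T.2.1 + (q - t) * dl k j) % q : ℕ)) :
            ZMod q) * w (k + 1) =
          (t : ZMod q) * (∑ k ∈ Finset.range P.length, (dl (k + 1) T.1 : ZMod q) * w (k + 1)) +
          (1 - (t : ZMod q)) * (∑ k ∈ Finset.range P.length, (dl (k + 1) T.2.1 : ZMod q) * w (k + 1)) +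
          (-1) * ∑ k ∈ Finset.range P.length, (dl k j : ZMod q) * w (k + 1) := by
        rw [Finset.mul_sum, Finset.mul_sum, Finset.mul_sum, ← Finset.sum_add_distrib,
          ← Finset.sum_add_distrib]
        refine Finset.sum_congr rfl fun k _ => ?_
        rw [if_pos hx, ZMod.natCast_mod, Nat.cast_add, Nat.cast_add, Nat.cast_mul, Nat.cast_mul,
          Nat.cast_mul, c1, c2]
        ring
      rw [e1, s1, s2, s3]
      linear_combination hrel
    · rw [if_neg hx] at hrel
      have e1 : ∑ k ∈ Finset.range P.length, (((if xor e T.2.2 then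
            (t * dl (k + 1) T.1 + (q + 1 - t) * dl (k + 1) T.2.1 + (q - 1) * dl k j) % q
          else (dl (k + 1) T.1 + (q + t - 1) * dl (k + 1) T.2.1 + (q - t) * dl k j) % q : ℕ)) :
            ZMod q) * w (k + 1) =
          (∑ k ∈ Finset.range P.length, (dl (k + 1) T.1 : ZMod q) * w (k + 1)) +
          ((t : ZMod q) - 1) * (∑ k ∈ Finset.range P.length, (dl (k + 1) T.2.1 : ZMod q) * w (k + 1)) +
          (-(t : ZMod q)) * ∑ k ∈ Finset.range P.length, (dl k j : ZMod q) * w (k + 1) := by
        rw [Finset.mul_sum, Finset.mul_sum, ← Finset.sum_add_distrib, ← Finset.sum_add_distrib]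
        refine Finset.sum_congr rfl fun k _ => ?_
        rw [if_neg hx, ZMod.natCast_mod, Nat.cast_add, Nat.cast_add, Nat.cast_mul, Nat.cast_mul,
          c3, c4]
        ring
      rw [e1, s1, s2, s3]
      linear_combination hrel
  have key := tk_sound q P.length _ hlen h (fun k => w (k + 1)) hval
  cases k with
  | zero => exact h0
  | succ k => exact key k (by omega)

end Pool.Agent.H86.RN
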