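import Pool.Agent.H86.RN.NQd
import Pool.Agent.H86.RN.NKcl
import Pool.Agent.H86.RN.NTk

/-!
# [H86 RN KU] `10_123` has at most 121 twisted colourings

PROOF. `card_kq`. For `Q = tq t ht`, `c = ((0, 0, 0), true)` let `(y1, y3)` be in the filter, `y1 = ((a1, v1), s1)`, `y3 = ((a3, v3), s3)`. Second
components: one round maps `(s1, s2, s3)` to `(s3, s1, s2)` (`op` keeps the second component of its argument), five rounds to
`(s2, s3, s1)`; so `s2 = s1`, `s1 = s3`, all are `true`. Then one round is `(x1, x2, x3) ↦ (opX t x1 x3, x1, opI t x3 x2)` on the first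
components. For fixed `a1, a3` the vector parts of all colours are linear functions of the four unknowns `v1.1, v1.2, v3.1, v3.2`
(`x2` starts with the zero vector), the `ZMod 11` parts are numbers that depend on `a1, a3` only. CLAIM: for all 121 pairs `(a1, a3)` the
closing conditions (vector part of the first and third colour after five rounds = `v1`, `v3`; 4 linear equations) force
`v1 = v3 = 0`. Hence the map `(y1, y3) ↦ (a1, a3)` is injective on the filter, so its card is at most `11 * 11`.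
Check of the CLAIM by `decide +kernel`: represent a colour by `(a : ℕ, two lists of 4 numbers modulo 199)`, define Boolean/list
versions of `opX`, `opI` (with `t⁻¹` given as a number: `29 * 151 = 1` modulo `199`, the eleven powers of `61` as a list), prove that they
describe `opX`, `opI` for the values of the forms, and use `tk 199 4` (`NTk.lean`) for the four forms of the closing conditions
(`tk_sound`). Checked with a program: the kernel is trivial for all 121 pairs, for `t = 29` and for `t = 151`.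
-/

set_option autoImplicit false

namespace Pool.Agent.H86.RN

open Pool.Agent.H86.RB Pool.Agent.H86.RT

/-- linear forms in four unknowns -/
private abbrev F4 := ℕ × ℕ × ℕ × ℕ

/-- symbolic colours -/
private abbrev SC := ℕ × F4 × F4

/-- powers of `61` -/
private def zn (a : ℕ) : ℕ := 61 ^ (a % 11) % 199

/-- combination of three forms -/
private def lc (c1 c2 c3 : ℕ) (f g h : F4) : F4 :=
  ((c1 * f.1 + c2 * g.1 + c3 * h.1) % 199, (c1 * f.2.1 + c2 * g.2.1 + c3 * h.2.1) % 199,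
    (c1 * f.2.2.1 + c2 * g.2.2.1 + c3 * h.2.2.1) % 199,
    (c1 * f.2.2.2 + c2 * g.2.2.2 + c3 * h.2.2.2) % 199)

private def oX (t : ℕ) (x y : SC) : SC :=
  ((2 * x.1 + 10 * y.1) % 11,
    lc (t * zn x.1) 1 (198 * (t * zn (2 * x.1 + 10 * y.1))) y.2.2 x.2.1 x.2.2,
    lc (zn (10 * x.1)) 1 (198 * zn (y.1 + 9 * x.1)) y.2.1 x.2.2 x.2.1)

private def oI (t ti : ℕ) (x y : SC) : SC :=
  ((2 * x.1 + 10 * y.1) % 11,
    lc (zn x.1) (198 * zn x.1) (zn x.1 * zn (10 * y.1)) y.2.2 x.2.2 x.2.1,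
    lc (ti * zn (10 * x.1)) (198 * (ti * zn (10 * x.1)))
      (ti * zn (10 * x.1) * (t * zn y.1)) y.2.1 x.2.1 x.2.2)

private def stS (t ti : ℕ) (x : SC × SC × SC) : SC × SC × SC :=
  (oX t x.1 x.2.2, x.1, oI t ti x.2.2 x.2.1)

private def brS (t ti : ℕ) (x : SC × SC × SC) : SC × SC × SC :=
  stS t ti (stS t ti (stS t ti (stS t ti (stS t ti x))))

/-- difference of two forms as a list -/
private def row (f g : F4) : List ℕ :=
  [(f.1 + 198 * g.1) % 199, (f.2.1 + 198 * g.2.1) % 199, (f.2.2.1 + 198 * g.2.2.1) % 199,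
    (f.2.2.2 + 198 * g.2.2.2) % 199]

private def start (a b : ℕ) : SC × SC × SC :=
  ((a, (1, 0, 0, 0), (0, 1, 0, 0)), (0, (0, 0, 0, 0), (0, 0, 0, 0)),
    (b, (0, 0, 1, 0), (0, 0, 0, 1)))

private def rowsOf (y : SC × SC × SC) : List (List ℕ) :=
  [row y.1.2.1 (1, 0, 0, 0), row y.1.2.2 (0, 1, 0, 0), row y.2.2.2.1 (0, 0, 1, 0),
    row y.2.2.2.2 (0, 0, 0, 1)]

private def rws (t ti a b : ℕ) : List (List ℕ) := rowsOf (brS t ti (start a b))

private def ckAll (t ti : ℕ) : Bool :=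
  (List.range 11).all fun a => (List.range 11).all fun b => tk 199 4 (rws t ti a b)

private theorem ck1 : ckAll 29 151 = true := by decide +kernel

private theorem ck2 : ckAll 151 29 = true := by decide +kernel

private def ev (v : ℕ → ZMod 199) (f : F4) : ZMod 199 :=
  (f.1 : ZMod 199) * v 0 + (f.2.1 : ZMod 199) * v 1 + (f.2.2.1 : ZMod 199) * v 2 +
    (f.2.2.2 : ZMod 199) * v 3

private def sem (v : ℕ → ZMod 199) (x : SC) : XT := ((x.1 : ZMod 11), ev v x.2.1, ev v x.2.2)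

private theorem ev_lc (v : ℕ → ZMod 199) (c1 c2 c3 : ℕ) (f g h : F4) :
    ev v (lc c1 c2 c3 f g h) = c1 * ev v f + c2 * ev v g + c3 * ev v h := by
  simp only [ev, lc, ZMod.natCast_mod, Nat.cast_add, Nat.cast_mul]
  ring

private theorem zn_cast (a : ℕ) : ((zn a : ℕ) : ZMod 199) = zt (a : ZMod 11) := by
  unfold zn zt
  rw [ZMod.natCast_mod, Nat.cast_pow, ZMod.val_natCast]
  rfl

private theorem e10 : (10 : ZMod 11) = -1 := by decide

private theorem e9 : (9 : ZMod 11) = -2 := by decide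

private theorem e198 : (198 : ZMod 199) = -1 := by decide +kernel

private theorem sem_oX (v : ℕ → ZMod 199) (t : ℕ) (x y : SC) :
    sem v (oX t x y) = opX (t : ZMod 199) (sem v x) (sem v y) := by
  have h1 : ((2 * x.1 + 10 * y.1 : ℕ) : ZMod 11) = 2 * (x.1 : ZMod 11) - (y.1 : ZMod 11) := by
    push_cast
    rw [e10]
    ring
  have h2 : ((10 * x.1 : ℕ) : ZMod 11) = -(x.1 : ZMod 11) := by
    push_cast
    rw [e10]
    ring
  have h3 : ((y.1 + 9 * x.1 : ℕ) : ZMod 11) = (y.1 : ZMod 11) - 2 * (x.1 : ZMod 11) := by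
    push_cast
    rw [e9]
    ring
  unfold sem oX opX
  refine Prod.ext ?_ (Prod.ext ?_ ?_)
  · change (((2 * x.1 + 10 * y.1) % 11 : ℕ) : ZMod 11) = 2 * (x.1 : ZMod 11) - (y.1 : ZMod 11)
    rw [ZMod.natCast_mod, h1]
  · simp only [ev_lc]
    push_cast
    rw [zn_cast, zn_cast, h1, e198]
    ring
  · simp only [ev_lc]
    push_cast
    rw [zn_cast, zn_cast, h2, h3, e198]
    ring

private theorem sem_oI (v : ℕ → ZMod 199) (t ti : ℕ) (hti : (ti : ZMod 199) = (t : ZMod 199)⁻¹)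
    (x y : SC) : sem v (oI t ti x y) = opI (t : ZMod 199) (sem v x) (sem v y) := by
  have h1 : ((2 * x.1 + 10 * y.1 : ℕ) : ZMod 11) = 2 * (x.1 : ZMod 11) - (y.1 : ZMod 11) := by
    push_cast
    rw [e10]
    ring
  have h2 : ((10 * x.1 : ℕ) : ZMod 11) = -(x.1 : ZMod 11) := by
    push_cast
    rw [e10]
    ring
  have h3 : ((10 * y.1 : ℕ) : ZMod 11) = -(y.1 : ZMod 11) := by
    push_cast
    rw [e10]
    ring
  unfold sem oI opI
  refine Prod.ext ?_ (Prod.ext ?_ ?_)
  · change (((2 * x.1 + 10 * y.1) % 11 : ℕ) : ZMod 11) = 2 * (x.1 : ZMod 11) - (y.1 : ZMod 11)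
    rw [ZMod.natCast_mod, h1]
  · simp only [ev_lc]
    push_cast
    rw [zn_cast, zn_cast, h3, e198]
    ring
  · simp only [ev_lc]
    push_cast
    rw [zn_cast, zn_cast, h2, e198, hti]
    ring

private def sem3 (v : ℕ → ZMod 199) (x : SC × SC × SC) : XT × XT × XT :=
  (sem v x.1, sem v x.2.1, sem v x.2.2)

private def stx (t : ZMod 199) (x : XT × XT × XT) : XT × XT × XT :=
  (opX t x.1 x.2.2, x.1, opI t x.2.2 x.2.1)

private theorem sem_st (v : ℕ → ZMod 199) (t ti : ℕ) (hti : (ti : ZMod 199) = (t : ZMod 199)⁻¹)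
    (x : SC × SC × SC) : sem3 v (stS t ti x) = stx (t : ZMod 199) (sem3 v x) := by
  unfold sem3 stS stx
  simp only [sem_oX, sem_oI v t ti hti]

private def lift3 (x : XT × XT × XT) : (XT × Bool) × (XT × Bool) × (XT × Bool) :=
  ((x.1, true), (x.2.1, true), (x.2.2, true))

private theorem op_symm (t : ZMod 199) (ht : t ≠ 0) (x : XT × Bool) :
    ((tq t ht).op x).symm = (tq t ht).op (x.1, !x.2) := by
  rw [← (tq t ht).op_bar, ← tq_bar t ht x.1 x.2]

private theorem op_snd (t : ZMod 199) (ht : t ≠ 0) (x y : XT × Bool) :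
    ((tq t ht).op x y).2 = y.2 := by
  obtain ⟨x, s⟩ := x
  obtain ⟨y, r⟩ := y
  cases s
  · rw [tq_opf]
  · rw [tq_opt]

private theorem stq_lift (t : ZMod 199) (ht : t ≠ 0) (x : XT × XT × XT) :
    stq (tq t ht) (lift3 x) = lift3 (stx t x) := by
  unfold stq lift3 stx
  rw [op_symm, tq_opt]
  simp only [Bool.not_true]
  rw [tq_opf]

private theorem stq_snd (t : ZMod 199) (ht : t ≠ 0) (y : (XT × Bool) × (XT × Bool) × (XT × Bool)) :
    (stq (tq t ht) y).1.2 = y.2.2.2 ∧ (stq (tq t ht) y).2.1.2 = y.1.2 ∧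
      (stq (tq t ht) y).2.2.2 = y.2.1.2 := by
  unfold stq
  refine ⟨op_snd t ht _ _, rfl, ?_⟩
  change (((tq t ht).op y.2.2).symm y.2.1).2 = y.2.1.2
  rw [op_symm, op_snd]

private theorem brq_snd (t : ZMod 199) (ht : t ≠ 0) (y : (XT × Bool) × (XT × Bool) × (XT × Bool)) :
    (brq (tq t ht) y).1.2 = y.2.1.2 ∧ (brq (tq t ht) y).2.2.2 = y.1.2 := by
  unfold brq
  constructor
  · rw [(stq_snd t ht _).1, (stq_snd t ht _).2.2, (stq_snd t ht _).2.1, (stq_snd t ht _).1,
      (stq_snd t ht _).2.2]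
  · rw [(stq_snd t ht _).2.2, (stq_snd t ht _).2.1, (stq_snd t ht _).1, (stq_snd t ht _).2.2,
      (stq_snd t ht _).2.1]

private theorem evl_row (f g : F4) (v : ℕ → ZMod 199) :
    evl (row f g) v = ev v f - ev v g := by
  unfold row ev
  simp only [evl, ZMod.natCast_mod, Nat.cast_add, Nat.cast_mul]
  push_cast
  rw [e198]
  ring

private theorem key (t ti : ℕ) (hti : (ti : ZMod 199) = (t : ZMod 199)⁻¹) (hc : ckAll t ti = true)
    (a b : ZMod 11) (v : ℕ → ZMod 199)
    (h1 : (stx (t : ZMod 199) (stx (t : ZMod 199) (stx (t : ZMod 199) (stx (t : ZMod 199)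
      (stx (t : ZMod 199) ((a, v 0, v 1), (0, 0, 0), (b, v 2, v 3))))))).1 = (a, v 0, v 1))
    (h2 : (stx (t : ZMod 199) (stx (t : ZMod 199) (stx (t : ZMod 199) (stx (t : ZMod 199)
      (stx (t : ZMod 199) ((a, v 0, v 1), (0, 0, 0), (b, v 2, v 3))))))).2.2 = (b, v 2, v 3)) :
    v 0 = 0 ∧ v 1 = 0 ∧ v 2 = 0 ∧ v 3 = 0 := by
  haveI : Fact (Nat.Prime 199) := ⟨by norm_num⟩
  have hs : sem3 v (start a.val b.val) = ((a, v 0, v 1), (0, 0, 0), (b, v 2, v 3)) := by
    unfold sem3 start sem ev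
    simp
  have hb : sem3 v (brS t ti (start a.val b.val)) =
      stx (t : ZMod 199) (stx (t : ZMod 199) (stx (t : ZMod 199) (stx (t : ZMod 199)
      (stx (t : ZMod 199) ((a, v 0, v 1), (0, 0, 0), (b, v 2, v 3)))))) := by
    unfold brS
    rw [sem_st v t ti hti, sem_st v t ti hti, sem_st v t ti hti, sem_st v t ti hti,
      sem_st v t ti hti, hs]
  rw [← hb] at h1 h2
  have hk : tk 199 4 (rws t ti a.val b.val) = true := by
    unfold ckAll at hc
    rw [List.all_eq_true] at hc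
    have h3 := hc a.val (List.mem_range.2 (ZMod.val_lt a))
    rw [List.all_eq_true] at h3
    exact h3 b.val (List.mem_range.2 (ZMod.val_lt b))
  have h4 := tk_sound 199 4 (rws t ti a.val b.val) (by
    intro r hr
    unfold rws rowsOf row at hr
    simp only [List.mem_cons, List.not_mem_nil, or_false] at hr
    rcases hr with rfl | rfl | rfl | rfl <;> rfl) hk v (by
    intro r hr
    unfold rws rowsOf at hr
    simp only [List.mem_cons, List.not_mem_nil, or_false] at hr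
    have h11 : ev v (brS t ti (start a.val b.val)).1.2.1 = v 0 := congrArg (fun z : XT => z.2.1) h1
    have h12 : ev v (brS t ti (start a.val b.val)).1.2.2 = v 1 := congrArg (fun z : XT => z.2.2) h1
    have h21 : ev v (brS t ti (start a.val b.val)).2.2.2.1 = v 2 :=
      congrArg (fun z : XT => z.2.1) h2
    have h22 : ev v (brS t ti (start a.val b.val)).2.2.2.2 = v 3 :=
      congrArg (fun z : XT => z.2.2) h2
    rcases hr with rfl | rfl | rfl | rfl
    · rw [evl_row, h11]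
      simp [ev]
    · rw [evl_row, h12]
      simp [ev]
    · rw [evl_row, h21]
      simp [ev]
    · rw [evl_row, h22]
      simp [ev])
  exact ⟨h4 0 (by norm_num), h4 1 (by norm_num), h4 2 (by norm_num), h4 3 (by norm_num)⟩

private def vv (a b c d : ZMod 199) : ℕ → ZMod 199
  | 0 => a
  | 1 => b
  | 2 => c
  | _ => d

private theorem mul1 : ((151 : ℕ) : ZMod 199) * ((29 : ℕ) : ZMod 199) = 1 := by decide +kernel

private theorem mul2 : ((29 : ℕ) : ZMod 199) * ((151 : ℕ) : ZMod 199) = 1 := by decide +kernel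

private theorem inv_aux (a b : ℕ) (h : (a : ZMod 199) * (b : ZMod 199) = 1) :
    (a : ZMod 199) = (b : ZMod 199)⁻¹ := by
  haveI : Fact (Nat.Prime 199) := ⟨by norm_num⟩
  exact eq_inv_of_mul_eq_one_left h

private theorem fix_aux (t : ZMod 199) (ht : t ≠ 0) (n ni : ℕ) (hn : (n : ZMod 199) = t)
    (hi : (ni : ZMod 199) = (n : ZMod 199)⁻¹) (hc : ckAll n ni = true)
    (a b : ZMod 11) (v1 v2 w1 w2 : ZMod 199) (s1 s3 : Bool)
    (h1 : (brq (tq t ht) (((a, v1, v2), s1), ((0, 0, 0), true), ((b, w1, w2), s3))).1 =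
      ((a, v1, v2), s1))
    (h2 : (brq (tq t ht) (((a, v1, v2), s1), ((0, 0, 0), true), ((b, w1, w2), s3))).2.2 =
      ((b, w1, w2), s3)) :
    v1 = 0 ∧ v2 = 0 ∧ w1 = 0 ∧ w2 = 0 ∧ s1 = true ∧ s3 = true := by
  have e1 := (brq_snd t ht (((a, v1, v2), s1), (((0, 0, 0) : XT), true), ((b, w1, w2), s3))).1
  have e2 := (brq_snd t ht (((a, v1, v2), s1), (((0, 0, 0) : XT), true), ((b, w1, w2), s3))).2
  rw [h1] at e1
  rw [h2] at e2
  have e1' : s1 = true := e1
  have e2' : s3 = s1 := e2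
  subst e2'
  subst e1'
  have hl : ((((a, v1, v2), true), (((0, 0, 0) : XT), true), ((b, w1, w2), true)) :
      (XT × Bool) × (XT × Bool) × (XT × Bool)) =
      lift3 ((a, vv v1 v2 w1 w2 0, vv v1 v2 w1 w2 1), (0, 0, 0),
        (b, vv v1 v2 w1 w2 2, vv v1 v2 w1 w2 3)) := rfl
  unfold brq at h1 h2
  rw [hl, stq_lift, stq_lift, stq_lift, stq_lift, stq_lift] at h1 h2
  subst hn
  obtain ⟨k0, k1, k2, k3⟩ := key n ni hi hc a b (vv v1 v2 w1 w2) (congrArg Prod.fst h1)
    (congrArg Prod.fst h2)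
  exact ⟨k0, k1, k2, k3, rfl, rfl⟩

private theorem fix_aux2 (t : ZMod 199) (ht : t ≠ 0) (n ni : ℕ) (hn : (n : ZMod 199) = t)
    (hi : (ni : ZMod 199) = (n : ZMod 199)⁻¹) (hc : ckAll n ni = true)
    (p : (XT × Bool) × (XT × Bool))
    (h1 : (brq (tq t ht) (p.1, ((0, 0, 0), true), p.2)).1 = p.1)
    (h2 : (brq (tq t ht) (p.1, ((0, 0, 0), true), p.2)).2.2 = p.2) :
    p = (((p.1.1.1, 0, 0), true), ((p.2.1.1, 0, 0), true)) := by
  have k := fix_aux t ht n ni hn hi hc p.1.1.1 p.2.1.1 p.1.1.2.1 p.1.1.2.2 p.2.1.2.1 p.2.1.2.2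
    p.1.2 p.2.2 h1 h2
  exact Prod.ext (Prod.ext (Prod.ext rfl (Prod.ext k.1 k.2.1)) k.2.2.2.2.1)
    (Prod.ext (Prod.ext rfl (Prod.ext k.2.2.1 k.2.2.2.1)) k.2.2.2.2.2)

private theorem inj_aux (t : ZMod 199) (ht : t ≠ 0) (n ni : ℕ) (hn : (n : ZMod 199) = t)
    (hi : (ni : ZMod 199) = (n : ZMod 199)⁻¹) (hc : ckAll n ni = true) :
    Set.InjOn (fun p : (XT × Bool) × (XT × Bool) => (p.1.1.1, p.2.1.1))
      {p | (brq (tq t ht) (p.1, ((0, 0, 0), true), p.2)).1 = p.1 ∧
        (brq (tq t ht) (p.1, ((0, 0, 0), true), p.2)).2.2 = p.2} := by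
  intro p hp q hq hpq
  have hp1 := fix_aux2 t ht n ni hn hi hc p hp.1 hp.2
  have hq1 := fix_aux2 t ht n ni hn hi hc q hq.1 hq.2
  have e1 : p.1.1.1 = q.1.1.1 := congrArg (fun z : ZMod 11 × ZMod 11 => z.1) hpq
  have e2 : p.2.1.1 = q.2.1.1 := congrArg (fun z : ZMod 11 × ZMod 11 => z.2) hpq
  rw [hp1, hq1, e1, e2]

private theorem card_aux (t : ZMod 199) (ht : t ≠ 0) (n ni : ℕ) (hn : (n : ZMod 199) = t)
    (hi : (ni : ZMod 199) = (n : ZMod 199)⁻¹) (hc : ckAll n ni = true) :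
    Multiset.card (srun (tq t ht) kq [(((0, 0, 0) : XT), true)]) ≤ 121 := by
  rw [card_kq]
  refine (Finset.card_le_card_of_injOn (t := (Finset.univ : Finset (ZMod 11 × ZMod 11)))
    (fun p => (p.1.1.1, p.2.1.1)) (fun _ _ => Finset.mem_univ _) ?_).trans (le_of_eq ?_)
  · rw [Finset.coe_filter_univ]
    exact inj_aux t ht n ni hn hi hc
  · rw [Finset.card_univ, Fintype.card_prod, ZMod.card]

theorem kq_tw (t : ZMod 199) (ht : t ≠ 0) (h : t = 29 ∨ t = 151) :
    Multiset.card (srun (tq t ht) kq [(((0, 0, 0) : XT), true)]) ≤ 121 := by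
  rcases h with rfl | rfl
  · exact card_aux 29 ht 29 151 (by norm_num) (inv_aux 151 29 mul1) ck1
  · exact card_aux 151 ht 151 29 (by norm_num) (inv_aux 29 151 mul2) ck2

end Pool.Agent.H86.RN
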