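import Pool.Agent.H86.RN.NDefs

/-!
# [H86 RN ORD] A connected list of passes is an increasing tree

STATEMENT `ord`: if all rows of `L` are passes (`Tr L m`, so `m` rows on the vertices `0, …, m`) there is a pattern.

PROOF. CLAIM by induction on `k ≤ m`: there are lists `vs : List ℕ` (length `k + 1`, no duplicates, all `≤ m`, `vs[0] = 0`) and
`is : List ℕ` (length `k`, no duplicates, all `< m`: positions of rows) such that for every `i < k` the row `L[is[i]]`
connects `vs[i + 1]` with some `vs[j]`, `j ≤ i` (in one of the two directions: `x = vs[j], y = vs[i + 1]` or `y = vs[j], x = vs[i + 1]`).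
Step `k → k + 1 ≤ m`: the set `B` of the entries of `vs` has `k + 1 < m + 1` elements, so some `v ≤ m` is not in `B`; by the
connectedness some row `p ∈ L` has exactly one end in `B`; its position is not in `is` (the rows of `is` have both ends in `B`);
append it and its other end. Take `k = m`: `vs` is a permutation of `0, …, m` and `is` of `0, …, m - 1`.
Let `π v = vs.idxOf v` (position of `v` in `vs`), so `π (vs[i]) = i`, and for `i < m` with the row `L[is[i]] = (ps a n b, f)` let
`P[i] = (π a, π b, f)` if `n = vs[i + 1]` (and `a = vs[j]`), and `P[i] = (π n, π b, !f)` if `a = vs[i + 1]` (and `n = vs[j]`).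
`Inc`: `j ≤ i`, `π b ≤ m`. `col`: a pass `u n = Q.op (ed Q f (u b)) (u a)` is equivalent to
`u a = Q.op (ed Q (!f) (u b)) (u n)`, since `Q.op (Q.bar y) = (Q.op y).symm` (`op_bar`) and `bar_bar`; every row of `L` is `L[is[i]]` for
some `i`. `ker`: `w k = u (vs.getD k 0)`, then `w (π v) = u v` for `v ≤ m`.
Write the equivalence as a private lemma with `xor e (!f) = !(xor e f)`.
-/

set_option autoImplicit false

namespace Pool.Agent.H86.RN

open Pool.Agent.H86.RB Pool.Agent.H86.RT

private theorem ord_flip {C : Type} (Q : Sq C) (g : Bool) (y a n : C) :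
    n = Q.op (ed Q g y) a ↔ a = Q.op (ed Q (!g) y) n := by
  cases g
  · show n = Q.op (Q.bar y) a ↔ a = Q.op y n
    rw [Q.op_bar, Equiv.eq_symm_apply]
    exact eq_comm
  · show n = Q.op y a ↔ a = Q.op (Q.bar y) n
    rw [Q.op_bar, Equiv.eq_symm_apply]
    exact eq_comm

private theorem ord_congr {C : Type} (Q : Sq C) {u w : ℕ → C} (f : Bool) (r : Row)
    (hx : u r.x = w r.x) (hy : u r.y = w r.y) (hz : u r.z = w r.z) (h : Sat Q u f r) :
    Sat Q w f r := by
  cases r with
  | mg a b =>
    simp only [Row.x, Row.y] at hx hy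
    show w a = w b
    rw [← hx, ← hy]
    exact h
  | ps a n b =>
    simp only [Row.x, Row.y, Row.z] at hx hy hz
    show w n = Q.op (ed Q f (w b)) (w a)
    rw [← hx, ← hy, ← hz]
    exact h

private theorem ord_chain (L : List (Row × Bool)) (m : ℕ) (hT : Tr L m) (k : ℕ) (hk : k ≤ m) :
    ∃ v s : ℕ → ℕ, v 0 = 0 ∧ (∀ i ≤ k, v i ≤ m) ∧ (∀ i ≤ k, ∀ j ≤ k, v i = v j → i = j) ∧
      (∀ i < k, s i < m) ∧ (∀ i < k, ∀ j < k, s i = s j → i = j) ∧
      ∀ i < k, ∃ j ≤ i, ∃ p, L[s i]? = some p ∧
        ((p.1.x = v j ∧ p.1.y = v (i + 1)) ∨ (p.1.y = v j ∧ p.1.x = v (i + 1))) := by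
  obtain ⟨hlen, hle, hcon⟩ := hT
  induction k with
  | zero =>
    exact ⟨fun _ => 0, fun _ => 0, rfl, fun _ _ => Nat.zero_le _, fun i hi j hj _ => by omega,
      fun i hi => absurd hi (Nat.not_lt_zero i), fun i hi => absurd hi (Nat.not_lt_zero i),
      fun i hi => absurd hi (Nat.not_lt_zero i)⟩
  | succ k ih =>
    obtain ⟨v, s, h0, h1, h2, h3, h4, h5⟩ := ih (by omega)
    obtain ⟨u, hu, huB⟩ : ∃ u ≤ m, ∀ i ≤ k, v i ≠ u := by
      by_contra hcon'
      push Not at hcon'
      have h6 : Finset.range (m + 1) ⊆ (Finset.range (k + 1)).image v := by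
        intro u hu
        obtain ⟨i, hi, hiu⟩ := hcon' u (by have := Finset.mem_range.1 hu; omega)
        exact Finset.mem_image.2 ⟨i, Finset.mem_range.2 (by omega), hiu⟩
      have h7 := (Finset.card_le_card h6).trans Finset.card_image_le
      rw [Finset.card_range, Finset.card_range] at h7
      omega
    obtain ⟨p, hpL, hpB⟩ : ∃ p ∈ L, ¬ (p.1.x ∈ {u : ℕ | ∃ i ≤ k, v i = u} ↔
        p.1.y ∈ {u : ℕ | ∃ i ≤ k, v i = u}) := by
      by_contra hcon'
      push Not at hcon'
      obtain ⟨i, hi, hiu⟩ := hcon {u : ℕ | ∃ i ≤ k, v i = u} ⟨0, Nat.zero_le _, h0⟩ hcon' u hu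
      exact huB i hi hiu
    obtain ⟨j, hj, w, hw, hwB, hjw⟩ : ∃ j ≤ k, ∃ w ≤ m, (∀ i ≤ k, v i ≠ w) ∧
        ((p.1.x = v j ∧ p.1.y = w) ∨ (p.1.y = v j ∧ p.1.x = w)) := by
      by_cases hx : ∃ i ≤ k, v i = p.1.x
      · by_cases hy : ∃ i ≤ k, v i = p.1.y
        · exact absurd ⟨fun _ => hy, fun _ => hx⟩ hpB
        · obtain ⟨j, hj, hjx⟩ := hx
          exact ⟨j, hj, p.1.y, (hle p hpL).2.1, fun i hi he => hy ⟨i, hi, he⟩,
            Or.inl ⟨hjx.symm, rfl⟩⟩
      · by_cases hy : ∃ i ≤ k, v i = p.1.y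
        · obtain ⟨j, hj, hjy⟩ := hy
          exact ⟨j, hj, p.1.x, (hle p hpL).1, fun i hi he => hx ⟨i, hi, he⟩,
            Or.inr ⟨hjy.symm, rfl⟩⟩
        · exact absurd ⟨fun h => absurd h hx, fun h => absurd h hy⟩ hpB
    obtain ⟨t, ht, htp⟩ := List.mem_iff_getElem.1 hpL
    have htp' : L[t]? = some p := by rw [List.getElem?_eq_getElem ht, htp]
    have hts : ∀ i < k, s i ≠ t := by
      intro i hi he
      obtain ⟨j', hj', p', hp', hc⟩ := h5 i hi
      rw [he, htp'] at hp'
      have e2 := Option.some.inj hp'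
      subst e2
      rcases hjw with ⟨e1, e2⟩ | ⟨e1, e2⟩
      · rcases hc with ⟨c1, c2⟩ | ⟨c1, c2⟩
        · exact hwB (i + 1) (by omega) (c2.symm.trans e2)
        · exact hwB j' (by omega) (c1.symm.trans e2)
      · rcases hc with ⟨c1, c2⟩ | ⟨c1, c2⟩
        · exact hwB j' (by omega) (c1.symm.trans e2)
        · exact hwB (i + 1) (by omega) (c2.symm.trans e2)
    refine ⟨fun i => if i = k + 1 then w else v i, fun i => if i = k then t else s i, ?_, ?_, ?_,
      ?_, ?_, ?_⟩
    · show (if 0 = k + 1 then w else v 0) = 0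
      rw [if_neg (by omega)]
      exact h0
    · intro i hi
      dsimp only
      split_ifs with h
      · exact hw
      · exact h1 i (by omega)
    · intro i hi j hj hij
      dsimp only at hij
      split_ifs at hij with e1 e2 e2
      · omega
      · exact absurd hij.symm (hwB j (by omega))
      · exact absurd hij (hwB i (by omega))
      · exact h2 i (by omega) j (by omega) hij
    · intro i hi
      dsimp only
      split_ifs with h
      · omega
      · exact h3 i (by omega)
    · intro i hi j hj hij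
      dsimp only at hij
      split_ifs at hij with e1 e2 e2
      · omega
      · exact absurd hij.symm (hts j (by omega))
      · exact absurd hij (hts i (by omega))
      · exact h4 i (by omega) j (by omega) hij
    · intro i hi
      rcases Nat.lt_or_ge i k with hik | hik
      · obtain ⟨j', hj', p', hp', hc⟩ := h5 i hik
        refine ⟨j', hj', p', ?_, ?_⟩
        · show L[if i = k then t else s i]? = some p'
          rw [if_neg (by omega)]
          exact hp'
        · dsimp only
          rw [if_neg (by omega), if_neg (by omega)]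
          exact hc
      · have hik' : i = k := by omega
        subst hik'
        refine ⟨j, hj, p, ?_, ?_⟩
        · show L[if i = i then t else s i]? = some p
          rw [if_pos rfl]
          exact htp'
        · dsimp only
          rw [if_neg (by omega), if_pos rfl]
          exact hjw

theorem ord (L : List (Row × Bool)) (m : ℕ) (hT : Tr L m) (hps : ∀ p ∈ L, p.1.isps = true) :
    ∃ π P, Red L m π P := by
  classical
  obtain ⟨v, s, h0, h1, h2, h3, h4, h5⟩ := ord_chain L m hT m le_rfl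
  obtain ⟨hlen, hle, hcon⟩ := hT
  have hvs : ∀ u ≤ m, ∃ i ≤ m, v i = u := by
    intro u hu
    have e1 : (Finset.range (m + 1)).image v = Finset.range (m + 1) := by
      refine Finset.eq_of_subset_of_card_le ?_ ?_
      · intro u hu
        obtain ⟨i, hi, rfl⟩ := Finset.mem_image.1 hu
        have := h1 i (by have := Finset.mem_range.1 hi; omega)
        exact Finset.mem_range.2 (by omega)
      · rw [Finset.card_image_of_injOn]
        intro i hi j hj hij
        have hi' := Finset.mem_range.1 (Finset.mem_coe.1 hi)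
        have hj' := Finset.mem_range.1 (Finset.mem_coe.1 hj)
        exact h2 i (by omega) j (by omega) hij
    have e2 : u ∈ (Finset.range (m + 1)).image v := by
      rw [e1]
      exact Finset.mem_range.2 (by omega)
    obtain ⟨i, hi, hiu⟩ := Finset.mem_image.1 e2
    exact ⟨i, by have := Finset.mem_range.1 hi; omega, hiu⟩
  have hss : ∀ u < m, ∃ i < m, s i = u := by
    intro u hu
    have e1 : (Finset.range m).image s = Finset.range m := by
      refine Finset.eq_of_subset_of_card_le ?_ ?_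
      · intro u hu
        obtain ⟨i, hi, rfl⟩ := Finset.mem_image.1 hu
        exact Finset.mem_range.2 (h3 i (Finset.mem_range.1 hi))
      · rw [Finset.card_image_of_injOn]
        intro i hi j hj hij
        exact h4 i (Finset.mem_range.1 (Finset.mem_coe.1 hi)) j
          (Finset.mem_range.1 (Finset.mem_coe.1 hj)) hij
    have e2 : u ∈ (Finset.range m).image s := by
      rw [e1]
      exact Finset.mem_range.2 hu
    obtain ⟨i, hi, hiu⟩ := Finset.mem_image.1 e2
    exact ⟨i, Finset.mem_range.1 hi, hiu⟩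
  obtain ⟨π, hπ⟩ : ∃ π : ℕ → ℕ, ∀ u ≤ m, π u ≤ m ∧ v (π u) = u := by
    have e1 : ∀ u, ∃ i, u ≤ m → i ≤ m ∧ v i = u := by
      intro u
      by_cases hu : u ≤ m
      · obtain ⟨i, hi, hiu⟩ := hvs u hu
        exact ⟨i, fun _ => ⟨hi, hiu⟩⟩
      · exact ⟨0, fun h => absurd h hu⟩
    choose π hπ using e1
    exact ⟨π, hπ⟩
  have hπv : ∀ i ≤ m, π (v i) = i := by
    intro i hi
    obtain ⟨e1, e2⟩ := hπ (v i) (h1 i hi)
    exact h2 _ e1 _ hi e2
  have hrow : ∀ i < m, ∃ t : ℕ × ℕ × Bool, t.1 ≤ i ∧ t.2.1 ≤ m ∧ ∃ p, L[s i]? = some p ∧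
      ∀ (e : Bool) (C : Type) (Q : Sq C) (w : ℕ → C),
        (w (i + 1) = Q.op (ed Q (xor e t.2.2) (w t.2.1)) (w t.1) ↔
          Sat Q (fun u => w (π u)) (xor e p.2) p.1) := by
    intro i hi
    obtain ⟨j, hj, p, hp, hp2⟩ := h5 i hi
    obtain ⟨r, f⟩ := p
    have hpL : (r, f) ∈ L := List.mem_of_getElem? hp
    have hr := hps _ hpL
    obtain ⟨a, n, b, rfl⟩ : ∃ a n b, r = Row.ps a n b := by
      cases r with
      | mg a b => simp [Row.isps] at hr
      | ps a n b => exact ⟨a, n, b, rfl⟩
    obtain ⟨l1, l2, l3⟩ := hle _ hpL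
    simp only [Row.x, Row.y, Row.z] at l1 l2 l3 hp2
    rcases hp2 with ⟨e1, e2⟩ | ⟨e1, e2⟩
    · refine ⟨(j, π b, f), hj, (hπ b l3).1, _, hp, ?_⟩
      intro e C Q w
      show _ ↔ w (π n) = Q.op (ed Q (xor e f) (w (π b))) (w (π a))
      rw [e1, e2, hπv j (by omega), hπv (i + 1) (by omega)]
    · refine ⟨(j, π b, !f), hj, (hπ b l3).1, _, hp, ?_⟩
      intro e C Q w
      show _ ↔ w (π n) = Q.op (ed Q (xor e f) (w (π b))) (w (π a))
      rw [e1, e2, hπv j (by omega), hπv (i + 1) (by omega), ord_flip Q (xor e f)]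
      have e3 : xor e (!f) = !(xor e f) := by cases e <;> cases f <;> rfl
      rw [e3]
  have hrow' : ∀ i, ∃ t : ℕ × ℕ × Bool, i < m → (t.1 ≤ i ∧ t.2.1 ≤ m ∧ ∃ p, L[s i]? = some p ∧
      ∀ (e : Bool) (C : Type) (Q : Sq C) (w : ℕ → C),
        (w (i + 1) = Q.op (ed Q (xor e t.2.2) (w t.2.1)) (w t.1) ↔
          Sat Q (fun u => w (π u)) (xor e p.2) p.1)) := by
    intro i
    by_cases hi : i < m
    · obtain ⟨t, ht⟩ := hrow i hi
      exact ⟨t, fun _ => ht⟩
    · exact ⟨(0, 0, true), fun h => absurd h hi⟩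
  choose T hT using hrow'
  have hPlen : ((List.range m).map T).length = m := by rw [List.length_map, List.length_range]
  have hPget : ∀ (i : ℕ) (t : ℕ × ℕ × Bool), ((List.range m).map T)[i]? = some t →
      i < m ∧ t = T i := by
    intro i t ht
    have hi : i < m := by
      by_contra hi
      rw [List.getElem?_eq_none (by rw [hPlen]; omega)] at ht
      exact absurd ht (by simp)
    rw [List.getElem?_map, List.getElem?_range hi] at ht
    exact ⟨hi, (Option.some.inj ht).symm⟩
  have hPget' : ∀ i < m, ((List.range m).map T)[i]? = some (T i) := by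
    intro i hi
    rw [List.getElem?_map, List.getElem?_range hi]
    rfl
  refine ⟨π, (List.range m).map T, ?_, ?_, ?_, ?_, ?_, ?_, ?_⟩
  · rw [hPlen, List.countP_eq_length.2 hps, hlen]
  · intro i t ht
    obtain ⟨hi, rfl⟩ := hPget i t ht
    rw [hPlen]
    exact ⟨(hT i hi).1, (hT i hi).2.1⟩
  · have := hπv 0 (Nat.zero_le _)
    rwa [h0] at this
  · intro u hu
    rw [hPlen]
    exact (hπ u hu).1
  · intro k hk
    rw [hPlen] at hk
    exact ⟨v k, h1 k hk, hπv k hk⟩
  · intro e C Q w hw p hp
    obtain ⟨i', hi', hpi⟩ := List.mem_iff_getElem.1 hp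
    obtain ⟨i, hi, hsi⟩ := hss i' (by omega)
    obtain ⟨-, -, p', hp', hQ⟩ := hT i hi
    have e1 : L[s i]? = some p := by
      rw [hsi, List.getElem?_eq_getElem hi', hpi]
    rw [e1] at hp'
    have e2 := Option.some.inj hp'
    subst e2
    exact (hQ e C Q w).1 (hw i (T i) (hPget' i hi))
  · intro e C Q u hu
    refine ⟨fun k => u (v k), ?_, fun x hx => ?_⟩
    · intro i t ht
      obtain ⟨hi, rfl⟩ := hPget i t ht
      obtain ⟨-, -, p', hp', hQ⟩ := hT i hi
      refine (hQ e C Q (fun k => u (v k))).2 ?_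
      have hpL : p' ∈ L := List.mem_of_getElem? hp'
      have e1 := hu p' hpL
      obtain ⟨l1, l2, l3⟩ := hle _ hpL
      refine ord_congr Q _ _ ?_ ?_ ?_ e1
      · exact congrArg u (hπ _ l1).2.symm
      · exact congrArg u (hπ _ l2).2.symm
      · exact congrArg u (hπ _ l3).2.symm
    · exact congrArg u (hπ x hx).2.symm

end Pool.Agent.H86.RN
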