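import Pool.Agent.H86.RN.NMrg
import Pool.Agent.H86.RN.NOrd

/-!
# [H86 RN PAT] Every connected list of rows has a pattern

PROOF. Induction on `m`. If all rows are passes: `ord`. Otherwise `merge_step` gives `m = m' + 1`, `σ`, `L'`; the induction
hypothesis gives `Red L' m' π' P`; take `π v = π' (σ v)` and the same `P`: `len` by the equality of the counts, `col` and `ker` by
composition (`ker`: `u v = w1 (σ v)` for `v ≤ m`, `w1 k = w (π' k)` for `k ≤ m'`, and `σ v ≤ m'`).
-/

set_option autoImplicit false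

namespace Pool.Agent.H86.RN

open Pool.Agent.H86.RB Pool.Agent.H86.RT

theorem exists_pat (L : List (Row × Bool)) (m : ℕ) (hT : Tr L m) : ∃ π P, Red L m π P := by
  induction m generalizing L with
  | zero =>
    by_cases hps : ∀ p ∈ L, p.1.isps = true
    · exact ord L 0 hT hps
    · push Not at hps
      obtain ⟨p, hp, h⟩ := hps
      obtain ⟨m', σ, L', h1, _⟩ := merge_step L 0 hT ⟨p, hp, by simpa using h⟩
      omega
  | succ m ih =>
    by_cases hps : ∀ p ∈ L, p.1.isps = true
    · exact ord L (m + 1) hT hps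
    · push Not at hps
      obtain ⟨p, hp, h⟩ := hps
      obtain ⟨m', σ, L', h1, hT', hc, h0, hle, hsur, hcol, hker⟩ :=
        merge_step L (m + 1) hT ⟨p, hp, by simpa using h⟩
      obtain rfl : m = m' := by omega
      obtain ⟨π', P, hR⟩ := ih L' hT'
      refine ⟨fun v => π' (σ v), P, ?_, hR.inc, ?_, ?_, ?_, ?_, ?_⟩
      · rw [hR.len, hc]
      · show π' (σ 0) = 0
        rw [h0, hR.zero]
      · exact fun v hv => hR.le _ (hle v hv)
      · intro k hk
        obtain ⟨v, hv, rfl⟩ := hR.sur k hk
        obtain ⟨v', hv', rfl⟩ := hsur v hv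
        exact ⟨v', hv', rfl⟩
      · intro e C Q w hw
        exact hcol e C Q (fun v => w (π' v)) (hR.col e C Q w hw)
      · intro e C Q u hu
        obtain ⟨w1, hw1, h2⟩ := hker e C Q u hu
        obtain ⟨w, hw, h3⟩ := hR.ker e C Q w1 hw1
        exact ⟨w, hw, fun v hv => (h2 v hv).trans (h3 _ (hle v hv))⟩

end Pool.Agent.H86.RN
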