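import Pool.Agent.H86.RN.NQd
import Pool.Agent.H86.RN.NDefs
import Pool.Agent.H86.RN.NTab

/-!
# [H86 RN TWC] Twisted colourings of the patterns of the table

PROOF. For the entry `T = (P, t, as, vs)` of `tab` let `W s k = ((as[k], s * vs[k].1, s * vs[k].2), true)` (`getD .. 0`). By `tq_bar`, `tq_opt`,
`tq_opf` the relation of the triple `(a, b, f)` number `i` is (all colours have second component `true`):
`(W s (i + 1)).1 = opX t (W s b).1 (W s a).1` for `f = true`, `= opI t (W s b).1 (W s a).1` for `f = false` (`ed _ false (x, true) = (x, false)`).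
`opX` and `opI` are linear in the vectors: `opX t (x.1, s * x.2.1, s * x.2.2) (y.1, s * y.2.1, s * y.2.2)` is `(_, s * _, s * _)` (`ring`), so it is
enough to check the relations for `s = 1`, once for every entry and `i < 4`: `decide +kernel` over `tab` (88 entries; avoid `t⁻¹` in the
computation: `29⁻¹ = 151`, `151⁻¹ = 29` modulo `199` since `29 * 151 = 22 * 199 + 1`; `zt` is `61 ^ val`, if this is slow use a list of the
eleven powers). Injectivity: in every entry some entry of `vs` with index `≤ 4` is not zero (`decide +kernel`), and `s * v = s' * v` with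
`v ≠ 0` gives `s = s'`. `vs[0] = (0, 0)`, `as[0] = 0` in all entries. All 88 entries were checked by a program.
-/

set_option autoImplicit false

namespace Pool.Agent.H86.RN

open Pool.Agent.H86.RB Pool.Agent.H86.RT

/-- the colour of the vertex `k` in the table -/
private def cw (as : List ℕ) (vs : List (ℕ × ℕ)) (k : ℕ) : XT :=
  ((as.getD k 0 : ℕ), ((vs.getD k (0, 0)).1 : ℕ), ((vs.getD k (0, 0)).2 : ℕ))

/-- `opI` with the inverse as an argument -/
private def opJ (ti t : ZMod 199) (x y : XT) : XT :=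
  (2 * x.1 - y.1, zt x.1 * (y.2.2 - x.2.2 + zt (-y.1) * x.2.1),
    ti * zt (-x.1) * (y.2.1 - x.2.1 + t * zt y.1 * x.2.2))

private def rel (ti t : ZMod 199) (w : ℕ → XT) : ℕ → List (ℕ × ℕ × Bool) → Bool
  | _, [] => true
  | i, (a, b, f) :: P =>
    (if f then decide (w (i + 1) = opX t (w b) (w a)) else decide (w (i + 1) = opJ ti t (w b) (w a))) &&
      rel ti t w (i + 1) P

private def chk (T : List (ℕ × ℕ × Bool) × ℕ × List ℕ × List (ℕ × ℕ)) : Bool :=
  (decide (T.2.1 = 29) && rel 151 29 (cw T.2.2.1 T.2.2.2) 0 T.1 ||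
    decide (T.2.1 = 151) && rel 29 151 (cw T.2.2.1 T.2.2.2) 0 T.1) &&
  decide (cw T.2.2.1 T.2.2.2 0 = (0, 0, 0)) &&
  (List.range (T.1.length + 1)).any (fun k => decide ((cw T.2.2.1 T.2.2.2 k).2.1 ≠ 0) ||
    decide ((cw T.2.2.1 T.2.2.2 k).2.2 ≠ 0))

private theorem chk_tab : tab.all chk = true := by decide +kernel

private theorem inv29 : (29 : ZMod 199)⁻¹ = 151 := by decide +kernel

private theorem inv151 : (151 : ZMod 199)⁻¹ = 29 := by decide +kernel

private theorem ne29 : (29 : ZMod 199) ≠ 0 := by decide +kernel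

private theorem ne151 : (151 : ZMod 199) ≠ 0 := by decide +kernel

private theorem opJ_eq (t : ZMod 199) (x y : XT) : opJ t⁻¹ t x y = opI t x y := rfl

private def lin (s : ZMod 199) (x : XT) : XT := (x.1, s * x.2.1, s * x.2.2)

private theorem opX_lin (s t : ZMod 199) (x y : XT) :
    opX t (lin s x) (lin s y) = lin s (opX t x y) := by
  refine Prod.ext ?_ (Prod.ext ?_ ?_)
  · simp only [opX, lin]
  · simp only [opX, lin]; ring
  · simp only [opX, lin]; ring

private theorem opI_lin (s t : ZMod 199) (x y : XT) :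
    opI t (lin s x) (lin s y) = lin s (opI t x y) := by
  refine Prod.ext ?_ (Prod.ext ?_ ?_)
  · simp only [opI, lin]
  · simp only [opI, lin]; ring
  · simp only [opI, lin]; ring

private theorem rel_spec (ti t : ZMod 199) (w : ℕ → XT) :
    ∀ (P : List (ℕ × ℕ × Bool)) (i : ℕ), rel ti t w i P = true →
      ∀ (j : ℕ) (a b : ℕ) (f : Bool), P[j]? = some (a, b, f) →
        w (i + j + 1) = if f then opX t (w b) (w a) else opJ ti t (w b) (w a) := by
  intro P
  induction P with
  | nil => intro i _ j a b f h; simp at h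
  | cons p P ih =>
    intro i h j a b f hj
    obtain ⟨a0, b0, f0⟩ := p
    rw [rel, Bool.and_eq_true] at h
    cases j with
    | zero =>
      simp only [List.length_cons, Nat.zero_lt_succ, List.getElem?_eq_getElem, List.getElem_cons_zero,
        Option.some.injEq, Prod.mk.injEq] at hj
      obtain ⟨rfl, rfl, rfl⟩ := hj
      have h1 := h.1
      cases f0
      · simpa using h1
      · simpa using h1
    | succ j =>
      rw [List.getElem?_cons_succ] at hj
      have := ih (i + 1) h.2 j a b f hj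
      have e : i + 1 + j + 1 = i + (j + 1) + 1 := by omega
      rw [← e]
      exact this

theorem tw_family (P : List (ℕ × ℕ × Bool)) (hP : ∃ T ∈ tab, T.1 = P) :
    ∃ (t : ZMod 199) (ht : t ≠ 0), (t = 29 ∨ t = 151) ∧ ∃ W : ZMod 199 → ℕ → XT × Bool,
      (∀ s, W s 0 = ((0, 0, 0), true)) ∧ (∀ s, PSat (tq t ht) false (W s) P) ∧
      ∀ s s', (∀ k ≤ P.length, W s k = W s' k) → s = s' := by
  obtain ⟨T, hT, rfl⟩ := hP
  have hc : chk T = true := List.all_eq_true.1 chk_tab T hT
  unfold chk at hc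
  rw [Bool.and_eq_true, Bool.and_eq_true] at hc
  obtain ⟨⟨hc1, hc2⟩, hc3⟩ := hc
  have h0 : cw T.2.2.1 T.2.2.2 0 = (0, 0, 0) := of_decide_eq_true hc2
  have : Fact (Nat.Prime 199) := ⟨by norm_num⟩
  have hrel : ∃ (t : ZMod 199), t ≠ 0 ∧ (t = 29 ∨ t = 151) ∧
      rel t⁻¹ t (cw T.2.2.1 T.2.2.2) 0 T.1 = true := by
    rw [Bool.or_eq_true, Bool.and_eq_true, Bool.and_eq_true] at hc1
    rcases hc1 with h | h
    · exact ⟨29, ne29, Or.inl rfl, by rw [inv29]; exact h.2⟩
    · exact ⟨151, ne151, Or.inr rfl, by rw [inv151]; exact h.2⟩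
  obtain ⟨t, ht, ht2, hr⟩ := hrel
  refine ⟨t, ht, ht2, fun s k => (lin s (cw T.2.2.1 T.2.2.2 k), true), ?_, ?_, ?_⟩
  · intro s
    show (lin s (cw T.2.2.1 T.2.2.2 0), true) = _
    rw [h0]
    simp [lin]
  · intro s i p hp
    obtain ⟨a, b, f⟩ := p
    have h1 := rel_spec t⁻¹ t (cw T.2.2.1 T.2.2.2) T.1 0 hr i a b f hp
    rw [Nat.zero_add] at h1
    show (lin s (cw T.2.2.1 T.2.2.2 (i + 1)), true) =
      (tq t ht).op (ed (tq t ht) (xor false f) (lin s (cw T.2.2.1 T.2.2.2 b), true))
        (lin s (cw T.2.2.1 T.2.2.2 a), true)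
    rw [h1]
    cases f
    · simp only [Bool.false_eq_true, if_false, Bool.xor_false, ed, tq_bar, Bool.not_true, tq_opf,
        opI_lin, opJ_eq]
    · simp only [if_true, Bool.false_xor, ed, tq_opt, opX_lin]
  · intro s s' h
    rw [List.any_eq_true] at hc3
    obtain ⟨k, hk, hk2⟩ := hc3
    rw [List.mem_range] at hk
    have h2 := h k (by omega)
    have h3 : lin s (cw T.2.2.1 T.2.2.2 k) = lin s' (cw T.2.2.1 T.2.2.2 k) := (Prod.mk.inj h2).1
    have h4 : s * (cw T.2.2.1 T.2.2.2 k).2.1 = s' * (cw T.2.2.1 T.2.2.2 k).2.1 :=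
      congrArg (fun x : XT => x.2.1) h3
    have h5 : s * (cw T.2.2.1 T.2.2.2 k).2.2 = s' * (cw T.2.2.1 T.2.2.2 k).2.2 :=
      congrArg (fun x : XT => x.2.2) h3
    rw [Bool.or_eq_true, decide_eq_true_iff, decide_eq_true_iff] at hk2
    rcases hk2 with hk2 | hk2
    · exact mul_right_cancel₀ hk2 h4
    · exact mul_right_cancel₀ hk2 h5

end Pool.Agent.H86.RN
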