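import Pool.Agent.H86.RN.NRun
import Pool.Agent.H86.RN.NPat
import Pool.Agent.H86.RN.NEnum
import Pool.Agent.H86.RN.NTwc
import Pool.Agent.H86.RN.NKu
import Pool.Agent.H86.RN.NKl
import Pool.Agent.H86.RN.NKer
import Pool.Agent.H86.RT.FacX
import Pool.Agent.H86.RB.Bound

/-!
# [H86 RN FIVE] A ribbon disk of `10_123` has at least five ribbon singularities

PROOF. Let `S` be a disk with `Iso (bdw S) kq` and suppose `passes S ≤ 4`. `fac_ex`: facings `x`. `L = (rows S 1 [0]).zip (fgs S 1 x [true])`,
`m = (rows S 1 [0]).length` (`fgs_len`: the same length); `Tr L m`: `rows_le` (`RB/OddD.lean`, `births S + passes S = m`) and `hS.2.1`.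
`exists_pat`: `Red L m π P`, `P.length = countP isps = passes S ≤ 4` (`rows`: `countP Row.isps (rows S k vs) = passes S`, see `RB`; the
zip has the same first components, `List.map_fst_zip`).
`enum_pat`: (1) `∀ e, Triv 11 10 e P`: `cola_le_one` with `T a = 10 * a` on `ZMod 11` gives `cola T (bdw S) ≤ 1`, but
`cola T (bdw S) = cola T kq > 1` (`cola_iso`, `kq_eleven`). (2) the same modulo `19` with `T a = 3 * a` (`T` exists: multiplication by a
unit, e.g. `AddEquiv` with inverse `13 * a`). (3) `P` is in the table: `tw_family` gives `t`, `W`; for `s : ZMod 199` let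
`U s v = W s (π v)`; `card_le_srun` with `ι = ZMod 199`, `c = ((0, 0, 0), true)` (`hR.zero`), `hsat` from `hR.col` with `e = false`
(`xor false f = f`), `hinj`: if `U s v = U s' v` for all `v ≤ births S + passes S = m` then `W s k = W s' k` for `k ≤ P.length` (`hR.sur`), so
`s = s'`. So `199 ≤ card (srun (tq t ht) (bdw S) [c]) = card (srun (tq t ht) kq [c]) ≤ 121` (`srun_iso`, `kq_tw`), a contradiction.
-/

set_option autoImplicit false

namespace Pool.Agent.H86.RN

open Pool.Agent.H86.RB Pool.Agent.H86.RT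

private def TE11 : ZMod 11 ≃+ ZMod 11 where
  toFun a := ((10 : ℕ) : ZMod 11) * a
  invFun a := ((10 : ℕ) : ZMod 11) * a
  left_inv a := by
    show ((10 : ℕ) : ZMod 11) * (((10 : ℕ) : ZMod 11) * a) = a
    rw [← mul_assoc, ← Nat.cast_mul]
    have h : (((10 * 10 : ℕ)) : ZMod 11) = 1 := by decide
    rw [h, one_mul]
  right_inv a := by
    show ((10 : ℕ) : ZMod 11) * (((10 : ℕ) : ZMod 11) * a) = a
    rw [← mul_assoc, ← Nat.cast_mul]
    have h : (((10 * 10 : ℕ)) : ZMod 11) = 1 := by decide
    rw [h, one_mul]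
  map_add' a b := by
    show ((10 : ℕ) : ZMod 11) * (a + b) = _
    rw [mul_add]

private theorem TE11_apply (a : ZMod 11) : TE11 a = ((10 : ℕ) : ZMod 11) * a := rfl

private def TE19 : ZMod 19 ≃+ ZMod 19 where
  toFun a := ((3 : ℕ) : ZMod 19) * a
  invFun a := ((13 : ℕ) : ZMod 19) * a
  left_inv a := by
    show ((13 : ℕ) : ZMod 19) * (((3 : ℕ) : ZMod 19) * a) = a
    rw [← mul_assoc, ← Nat.cast_mul]
    have h : (((13 * 3 : ℕ)) : ZMod 19) = 1 := by decide
    rw [h, one_mul]
  right_inv a := by
    show ((3 : ℕ) : ZMod 19) * (((13 : ℕ) : ZMod 19) * a) = a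
    rw [← mul_assoc, ← Nat.cast_mul]
    have h : (((3 * 13 : ℕ)) : ZMod 19) = 1 := by decide
    rw [h, one_mul]
  map_add' a b := by
    show ((3 : ℕ) : ZMod 19) * (a + b) = _
    rw [mul_add]

private theorem TE19_apply (a : ZMod 19) : TE19 a = ((3 : ℕ) : ZMod 19) * a := rfl

theorem five_le (S : List Bd) (hS : Dsk S) (h : Iso (bdw S) kq) : 5 ≤ passes S := by
  by_contra hlt
  have h4 : passes S ≤ 4 := by omega
  obtain ⟨x, hx⟩ := fac_ex S hS
  have hlen : (fgs S 1 x [true]).length = (rows S 1 [0]).length := fgs_len S 1 x [true] [0]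
  obtain ⟨hbm, hle⟩ := rows_le S hS.2.2 (m := (rows S 1 [0]).length) rfl
  have hTr : Tr ((rows S 1 [0]).zip (fgs S 1 x [true])) (rows S 1 [0]).length := by
    refine ⟨?_, ?_, ?_⟩
    · rw [List.length_zip, hlen, min_self]
    · intro p hp
      exact hle p.1 (List.of_mem_zip (a := p.1) (b := p.2) hp).1
    · intro B h0 hB v hv
      refine hS.2.1 B h0 ?_ v (by rw [hbm]; exact hv)
      intro r hr
      obtain ⟨i, hi, rfl⟩ := List.getElem_of_mem hr
      have hi2 : i < (fgs S 1 x [true]).length := by rw [hlen]; exact hi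
      have hi3 : i < ((rows S 1 [0]).zip (fgs S 1 x [true])).length := by
        rw [List.length_zip, hlen, min_self]
        exact hi
      have hm : ((rows S 1 [0]).zip (fgs S 1 x [true]))[i] ∈
          (rows S 1 [0]).zip (fgs S 1 x [true]) := List.getElem_mem hi3
      have h5 := hB _ hm
      rw [List.getElem_zip] at h5
      exact h5
  obtain ⟨π, P, hRed⟩ := exists_pat _ _ hTr
  have hP4 : P.length ≤ 4 := by
    rw [hRed.len]
    have h5 : ((rows S 1 [0]).zip (fgs S 1 x [true])).countP (fun p => p.1.isps) =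
        (rows S 1 [0]).countP Row.isps := by
      have h6 : ((rows S 1 [0]).zip (fgs S 1 x [true])).map Prod.fst = rows S 1 [0] :=
        List.map_fst_zip (by rw [hlen])
      conv_rhs => rw [← h6]
      rw [List.countP_map]
      rfl
    rw [h5, count_ps]
    exact h4
  rcases enum_pat P hP4 hRed.inc with h1 | h2 | h3
  · have : Fact (Nat.Prime 11) := ⟨by norm_num⟩
    have h5 := cola_le_one 11 10 TE11 TE11_apply x S hS hx π P hRed h1
    rw [cola_iso TE11 h] at h5
    exact absurd (kq_eleven TE11 TE11_apply) (by omega)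
  · have : Fact (Nat.Prime 19) := ⟨by norm_num⟩
    have h5 := cola_le_one 19 3 TE19 TE19_apply x S hS hx π P hRed h2
    rw [cola_iso TE19 h] at h5
    exact absurd (kq_nineteen TE19 TE19_apply) (by omega)
  · obtain ⟨t, ht, ht2, W, hW0, hWP, hWinj⟩ := tw_family P h3
    have h5 := card_le_srun (tq t ht) x S hS hx (fun (s : ZMod 199) v => W s (π v))
      ((0, 0, 0), true)
      (by
        intro s
        show W s (π 0) = _
        rw [hRed.zero, hW0])
      (by
        intro s p hp
        have h6 := hRed.col false _ (tq t ht) (W s) (hWP s) p hp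
        rw [Bool.false_xor] at h6
        exact h6)
      (by
        intro s s' hss
        apply hWinj
        intro k hk
        obtain ⟨v, hv, rfl⟩ := hRed.sur k hk
        exact hss v (by rw [hbm]; exact hv))
    rw [srun_iso (tq t ht) h, ZMod.card] at h5
    have h6 := kq_tw t ht ht2
    omega

end Pool.Agent.H86.RN
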