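import Pool.Agent.H86.RN.NFin
import Pool.Agent.H86.RN.NCAT
import Pool.Agent.H86.RN.NCBT

/-!
# The ribbon number is not additive

`s5` is a ribbon disk with five ribbon singularities for `kq`, `s9` one with nine for `kq ++ kq`; the ribbon number of `kq` is
five.
-/

set_option autoImplicit false

namespace Pool.Agent.H86.RN

open Pool.Agent.H86.RB

/-- a ribbon disk with five ribbon singularities for the knot `kq` -/
def s5 : List Bd :=
  [.split 0, .birth 0, .split 1, .birth 3, .split 4, .passL false 2, .passR false 1, .passL false 2, .twist false 2,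
    .twist true 3, .passL false 2, .passL false 2, .death 1, .merge 3, .death 2, .merge 1, .death 0]

/-- a ribbon disk with nine ribbon singularities for the connected sum of `kq` with itself -/
def s9 : List Bd :=
  [.split 0, .birth 0, .split 1, .birth 3, .split 4, .passL false 2, .passR false 1, .passL false 2, .passR false 1,
    .passL false 2, .passR false 1, .passL false 2, .passR false 1, .passL false 2, .death 1, .merge 3, .death 2,
    .merge 1, .death 0]

theorem rows_s5 : rows s5 1 [0] =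
    [.ps 2 3 0, .ps 1 4 3, .ps 0 5 4, .ps 4 6 5, .ps 5 7 6, .mg 6 2, .mg 1 7] := rfl

theorem rows_s9 : rows s9 1 [0] =
    [.ps 2 3 0, .ps 1 4 3, .ps 0 5 4, .ps 3 6 5, .ps 4 7 6, .ps 5 8 7, .ps 6 9 8, .ps 7 10 9, .ps 8 11 10, .mg 10 2,
      .mg 1 11] := rfl

theorem dsk_s5 : Dsk s5 := by
  refine ⟨rfl, ?_, rfl⟩
  intro A h0 hA v hv
  have hv' : v ≤ 7 := hv
  rw [rows_s5] at hA
  have r1 := hA (.ps 2 3 0) (by simp)
  have r2 := hA (.ps 1 4 3) (by simp)
  have r3 := hA (.ps 0 5 4) (by simp)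
  have r4 := hA (.ps 4 6 5) (by simp)
  have r5 := hA (.ps 5 7 6) (by simp)
  have r6 := hA (.mg 6 2) (by simp)
  have r7 := hA (.mg 1 7) (by simp)
  simp only [Row.x, Row.y] at r1 r2 r3 r4 r5 r6 r7
  have a5 := r3.1 h0
  have a7 := r5.1 a5
  have a1 := r7.2 a7
  have a4 := r2.1 a1
  have a6 := r4.1 a4
  have a2 := r6.1 a6
  have a3 := r1.1 a2
  interval_cases v <;> assumption

theorem dsk_s9 : Dsk s9 := by
  refine ⟨rfl, ?_, rfl⟩
  intro A h0 hA v hv
  have hv' : v ≤ 11 := hv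
  rw [rows_s9] at hA
  have r1 := hA (.ps 2 3 0) (by simp)
  have r2 := hA (.ps 1 4 3) (by simp)
  have r3 := hA (.ps 0 5 4) (by simp)
  have r4 := hA (.ps 3 6 5) (by simp)
  have r5 := hA (.ps 4 7 6) (by simp)
  have r6 := hA (.ps 5 8 7) (by simp)
  have r7 := hA (.ps 6 9 8) (by simp)
  have r8 := hA (.ps 7 10 9) (by simp)
  have r9 := hA (.ps 8 11 10) (by simp)
  have r10 := hA (.mg 10 2) (by simp)
  have r11 := hA (.mg 1 11) (by simp)
  simp only [Row.x, Row.y] at r1 r2 r3 r4 r5 r6 r7 r8 r9 r10 r11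
  have a5 := r3.1 h0
  have a8 := r6.1 a5
  have a11 := r9.1 a8
  have a1 := r11.2 a11
  have a4 := r2.1 a1
  have a7 := r5.1 a4
  have a10 := r8.1 a7
  have a2 := r10.1 a10
  have a3 := r1.1 a2
  have a6 := r4.1 a3
  have a9 := r7.1 a6
  interval_cases v <;> assumption

theorem iso_s5 : Iso (bdw s5) kq := aall

theorem iso_s9 : Iso (bdw s9) (kq ++ kq) := ball

theorem rb_kq : Rb kq := ⟨s5, dsk_s5, iso_s5⟩

theorem rb_two : Rb (kq ++ kq) := ⟨s9, dsk_s9, iso_s9⟩

theorem rib_kq : rib kq = 5 := by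
  apply le_antisymm
  · exact Nat.sInf_le ⟨s5, dsk_s5, rfl, iso_s5⟩
  · have hne : {r | ∃ S, Dsk S ∧ passes S = r ∧ Iso (bdw S) kq}.Nonempty := ⟨5, s5, dsk_s5, rfl, iso_s5⟩
    obtain ⟨S, h1, h2, h3⟩ := Nat.sInf_mem hne
    have h4 := five_le S h1 h3
    rw [h2] at h4
    exact h4

theorem rib_two : rib (kq ++ kq) ≤ 9 := Nat.sInf_le ⟨s9, dsk_s9, rfl, iso_s9⟩

end Pool.Agent.H86.RN
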