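import Pool.Agent.H86.RB.Defs

/-!
# [H86 RN MOV] Lists of moves

A rule is a local move (`lhs`, `rhs`); besides the moves of `RB/Defs.lean` there are all third Reidemeister moves
`σ_i^a σ_(i+1)^b σ_i^c = σ_(i+1)^c σ_i^b σ_(i+1)^a` except for `a = c ≠ b`.

PROOF of `rl_iso`: for all rules but `r3` it is one `Adj` (`Mv`), in one of the two directions. The third moves: `X true i = ⟨.pos, i⟩`,
`X false i = ⟨.neg, i⟩`. (a, b, c) all `true`: `Mv.r3`. The others follow from it by inserting and cancelling `pos i, neg i` / `neg i, pos i`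
(`r2a`, `r2b`): from `P0 P1 P0 = P1 P0 P1` (`P = pos`, `N = neg`, `0`, `1` for `i`, `i + 1`): multiply by inverses: `P0 P1 N0 = N1 P0 P1`
[(true, true, false)]: `P0 P1 N0 ~ N1 P1 P0 P1 N0 ~ N1 P0 P1 P0 N0 ~ N1 P0 P1`; `N0 P1 P0 = P1 P0 N1` [(false, true, true)];
`N0 N1 N0 = N1 N0 N1`; `P0 N1 N0 = N1 N0 P1` [(true, false, false)]; `N0 N1 P0 = P1 N0 N1` [(false, false, true)].
All intermediate words have the same strands, so `ty` is fine: prove `ty (v ++ w) n = (ty v n).bind (ty w)` and that all words of
crossings at `i`, `i + 1` preserve every `n ≥ i + 3`.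
Helper: `Iso` inside a context: `a ++ x ++ b ~ a ++ y ++ b`.
`chk_sound`: induction on the list.
-/

set_option autoImplicit false

namespace Pool.Agent.H86.RN

open Pool.Agent.H86.RB

/-- the rules -/
inductive Rl
  | comm (k l : Kd) (i m : ℕ)
  | zig (i : ℕ)
  | zag (i : ℕ)
  | r1a (i : ℕ)
  | r1b (i : ℕ)
  | r1c (i : ℕ)
  | r1d (i : ℕ)
  | r2a (i : ℕ)
  | r2b (i : ℕ)
  | r3 (a b c : Bool) (i : ℕ)
  | sla (i : ℕ)
  | slb (i : ℕ)
  | slc (i : ℕ)
  | sld (i : ℕ)

/-- left side of a rule -/
def Rl.lhs : Rl → Wd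
  | .comm k l i m => [⟨k, i⟩, ⟨l, i + k.nout + m⟩]
  | .zig i => [⟨.cup, i⟩, ⟨.cap, i + 1⟩]
  | .zag i => [⟨.cup, i + 1⟩, ⟨.cap, i⟩]
  | .r1a i => [⟨.pos, i⟩, ⟨.cap, i⟩]
  | .r1b i => [⟨.neg, i⟩, ⟨.cap, i⟩]
  | .r1c i => [⟨.cup, i⟩, ⟨.pos, i⟩]
  | .r1d i => [⟨.cup, i⟩, ⟨.neg, i⟩]
  | .r2a i => [⟨.pos, i⟩, ⟨.neg, i⟩]
  | .r2b i => [⟨.neg, i⟩, ⟨.pos, i⟩]
  | .r3 a b c i => [X a i, X b (i + 1), X c i]
  | .sla i => [⟨.pos, i + 1⟩, ⟨.cap, i⟩]
  | .slb i => [⟨.neg, i + 1⟩, ⟨.cap, i⟩]
  | .slc i => [⟨.cup, i⟩, ⟨.pos, i + 1⟩]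
  | .sld i => [⟨.cup, i⟩, ⟨.neg, i + 1⟩]

/-- right side of a rule -/
def Rl.rhs : Rl → Wd
  | .comm k l i m => [⟨l, i + k.nin + m⟩, ⟨k, i⟩]
  | .zig _ => []
  | .zag _ => []
  | .r1a i => [⟨.cap, i⟩]
  | .r1b i => [⟨.cap, i⟩]
  | .r1c i => [⟨.cup, i⟩]
  | .r1d i => [⟨.cup, i⟩]
  | .r2a _ => []
  | .r2b _ => []
  | .r3 a b c i => [X c (i + 1), X b i, X a (i + 1)]
  | .sla i => [⟨.neg, i⟩, ⟨.cap, i + 1⟩]
  | .slb i => [⟨.pos, i⟩, ⟨.cap, i + 1⟩]
  | .slc i => [⟨.cup, i + 1⟩, ⟨.neg, i⟩]
  | .sld i => [⟨.cup, i + 1⟩, ⟨.pos, i⟩]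

/-- the rule is allowed -/
def Rl.ok : Rl → Bool
  | .r3 a b c _ => !(a == c && a != b)
  | _ => true

private theorem ty_app (v w : Wd) (n : ℕ) : ty (v ++ w) n = (ty v n).bind (ty w) := by
  induction v generalizing n with
  | nil => rfl
  | cons s v ih =>
    rw [List.cons_append, ty, ty]
    by_cases h : s.i + s.k.nin ≤ n
    · rw [if_pos h, if_pos h, ih]
    · rw [if_neg h, if_neg h]
      rfl

/-- words of crossings at `i` and `i + 1` -/
private def Cr (i : ℕ) (w : Wd) : Prop :=
  ∀ s ∈ w, s = X true i ∨ s = X false i ∨ s = X true (i + 1) ∨ s = X false (i + 1)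

private theorem ty_X (p : Bool) (j : ℕ) (w : Wd) (n : ℕ) (h : j + 2 ≤ n) :
    ty (X p j :: w) n = ty w n := by
  have h1 : (X p j).k.nin = 2 := by cases p <;> rfl
  have h2 : (X p j).k.nout = 2 := by cases p <;> rfl
  have h3 : (X p j).i = j := rfl
  rw [ty, h1, h2, h3, if_pos h, Nat.sub_add_cancel (by omega)]

private theorem ty_X' (p : Bool) (j : ℕ) (w : Wd) (n m : ℕ) (h : ty (X p j :: w) n = some m) :
    j + 2 ≤ n ∧ ty w n = some m := by
  have h1 : (X p j).k.nin = 2 := by cases p <;> rfl
  have h3 : (X p j).i = j := rfl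
  by_cases h4 : j + 2 ≤ n
  · rw [ty_X p j w n h4] at h
    exact ⟨h4, h⟩
  · rw [ty, h1, h3, if_neg h4] at h
    exact absurd h (by simp)

private theorem ty_cr (i n : ℕ) (hn : i + 3 ≤ n) : ∀ w : Wd, Cr i w → ty w n = some n
  | [], _ => rfl
  | s :: w, h => by
    have ih := ty_cr i n hn w fun t ht => h t (List.mem_cons_of_mem _ ht)
    rcases h s List.mem_cons_self with h1 | h1 | h1 | h1 <;> subst h1 <;>
      rw [ty_X _ _ _ _ (by omega), ih]

/-- equivalence in all contexts with enough strands -/
private def LE1 (i : ℕ) (v w : Wd) : Prop :=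
  ∀ (a b : Wd) (n : ℕ), ty a 1 = some n → i + 3 ≤ n → ty b n = some 1 →
    Iso (a ++ v ++ b) (a ++ w ++ b)

private def LQ (i : ℕ) (v w : Wd) : Prop := LE1 i v w ∧ LE1 i w v

private theorem LQ.symm {i : ℕ} {v w : Wd} (h : LQ i v w) : LQ i w v := ⟨h.2, h.1⟩

private theorem LQ.trans {i : ℕ} {u v w : Wd} (h : LQ i u v) (h' : LQ i v w) : LQ i u w :=
  ⟨fun a b n h1 h2 h3 => Relation.ReflTransGen.trans (h.1 a b n h1 h2 h3) (h'.1 a b n h1 h2 h3),
    fun a b n h1 h2 h3 => Relation.ReflTransGen.trans (h'.2 a b n h1 h2 h3) (h.2 a b n h1 h2 h3)⟩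

private theorem LE1.ctx {i : ℕ} {v w : Wd} (h : LE1 i v w) {c d : Wd} (hc : Cr i c) (hd : Cr i d) :
    LE1 i (c ++ v ++ d) (c ++ w ++ d) := by
  intro a b n h1 h2 h3
  have h4 := h (a ++ c) (d ++ b) n (by rw [ty_app, h1]; exact ty_cr i n h2 c hc) h2
    (by rw [ty_app, ty_cr i n h2 d hd]; exact h3)
  simpa only [List.append_assoc] using h4

private theorem LQ.ctx {i : ℕ} {v w : Wd} (h : LQ i v w) {c d : Wd} (hc : Cr i c) (hd : Cr i d) :
    LQ i (c ++ v ++ d) (c ++ w ++ d) := ⟨h.1.ctx hc hd, h.2.ctx hc hd⟩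

private theorem LQ.mv {i : ℕ} {x y : Wd} (h : Mv x y) (hx : Cr i x) (hy : Cr i y) : LQ i x y := by
  have hty : ∀ z, Cr i z → ∀ (a b : Wd) (n : ℕ), ty a 1 = some n → i + 3 ≤ n → ty b n = some 1 →
      ty (a ++ z ++ b) 1 = some 1 := by
    intro z hz a b n h1 h2 h3
    rw [ty_app, ty_app, h1]
    show (ty z n).bind (ty b) = some 1
    rw [ty_cr i n h2 z hz]
    exact h3
  exact ⟨fun a b n h1 h2 h3 => Relation.ReflTransGen.single
      ⟨hty x hx a b n h1 h2 h3, hty y hy a b n h1 h2 h3, Or.inl ⟨a, b, x, y, h, rfl, rfl⟩⟩,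
    fun a b n h1 h2 h3 => Relation.ReflTransGen.single
      ⟨hty y hy a b n h1 h2 h3, hty x hx a b n h1 h2 h3, Or.inr ⟨a, b, x, y, h, rfl, rfl⟩⟩⟩

private theorem lq_pn0 (i : ℕ) : LQ i [X true i, X false i] [] :=
  LQ.mv (Mv.r2a i) (by simp [Cr]) (by simp [Cr])

private theorem lq_np0 (i : ℕ) : LQ i [X false i, X true i] [] :=
  LQ.mv (Mv.r2b i) (by simp [Cr]) (by simp [Cr])

private theorem lq_pn1 (i : ℕ) : LQ i [X true (i + 1), X false (i + 1)] [] :=
  LQ.mv (Mv.r2a (i + 1)) (by simp [Cr]) (by simp [Cr])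

private theorem lq_np1 (i : ℕ) : LQ i [X false (i + 1), X true (i + 1)] [] :=
  LQ.mv (Mv.r2b (i + 1)) (by simp [Cr]) (by simp [Cr])

private theorem lq_ttt (i : ℕ) :
    LQ i [X true i, X true (i + 1), X true i] [X true (i + 1), X true i, X true (i + 1)] :=
  LQ.mv (Mv.r3 i) (by simp [Cr]) (by simp [Cr])

private theorem lq_ttf (i : ℕ) :
    LQ i [X true i, X true (i + 1), X false i] [X false (i + 1), X true i, X true (i + 1)] :=
  ((((lq_np1 i).symm.ctx (c := []) (d := [X true i, X true (i + 1), X false i])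
      (by simp [Cr]) (by simp [Cr])) : LQ i [X true i, X true (i + 1), X false i]
        [X false (i + 1), X true (i + 1), X true i, X true (i + 1), X false i]).trans
    (((lq_ttt i).symm.ctx (c := [X false (i + 1)]) (d := [X false i])
      (by simp [Cr]) (by simp [Cr])) : LQ i
        [X false (i + 1), X true (i + 1), X true i, X true (i + 1), X false i]
        [X false (i + 1), X true i, X true (i + 1), X true i, X false i])).trans
    (((lq_pn0 i).ctx (c := [X false (i + 1), X true i, X true (i + 1)]) (d := [])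
      (by simp [Cr]) (by simp [Cr])) : LQ i
        [X false (i + 1), X true i, X true (i + 1), X true i, X false i]
        [X false (i + 1), X true i, X true (i + 1)])

private theorem lq_ftt (i : ℕ) :
    LQ i [X false i, X true (i + 1), X true i] [X true (i + 1), X true i, X false (i + 1)] :=
  ((((lq_pn1 i).symm.ctx (c := [X false i, X true (i + 1), X true i]) (d := [])
      (by simp [Cr]) (by simp [Cr])) : LQ i [X false i, X true (i + 1), X true i]
        [X false i, X true (i + 1), X true i, X true (i + 1), X false (i + 1)]).trans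
    (((lq_ttt i).symm.ctx (c := [X false i]) (d := [X false (i + 1)])
      (by simp [Cr]) (by simp [Cr])) : LQ i
        [X false i, X true (i + 1), X true i, X true (i + 1), X false (i + 1)]
        [X false i, X true i, X true (i + 1), X true i, X false (i + 1)])).trans
    (((lq_np0 i).ctx (c := []) (d := [X true (i + 1), X true i, X false (i + 1)])
      (by simp [Cr]) (by simp [Cr])) : LQ i
        [X false i, X true i, X true (i + 1), X true i, X false (i + 1)]
        [X true (i + 1), X true i, X false (i + 1)])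

private theorem lq_fff (i : ℕ) :
    LQ i [X false i, X false (i + 1), X false i] [X false (i + 1), X false i, X false (i + 1)] := by
  -- `(P1 P0 P1) (N1 N0 N1) ~ []`
  have e1 : LQ i [X true (i + 1), X true i, X true (i + 1), X false (i + 1), X false i,
      X false (i + 1)] [] :=
    (((lq_pn1 i).ctx (c := [X true (i + 1), X true i]) (d := [X false i, X false (i + 1)])
      (by simp [Cr]) (by simp [Cr])) : LQ i [X true (i + 1), X true i, X true (i + 1),
        X false (i + 1), X false i, X false (i + 1)]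
        [X true (i + 1), X true i, X false i, X false (i + 1)]).trans
    ((((lq_pn0 i).ctx (c := [X true (i + 1)]) (d := [X false (i + 1)])
      (by simp [Cr]) (by simp [Cr])) : LQ i [X true (i + 1), X true i, X false i, X false (i + 1)]
        [X true (i + 1), X false (i + 1)]).trans (lq_pn1 i))
  -- `(N0 N1 N0) (P0 P1 P0) ~ []`
  have e2 : LQ i [X false i, X false (i + 1), X false i, X true i, X true (i + 1), X true i] [] :=
    (((lq_np0 i).ctx (c := [X false i, X false (i + 1)]) (d := [X true (i + 1), X true i])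
      (by simp [Cr]) (by simp [Cr])) : LQ i
        [X false i, X false (i + 1), X false i, X true i, X true (i + 1), X true i]
        [X false i, X false (i + 1), X true (i + 1), X true i]).trans
    ((((lq_np1 i).ctx (c := [X false i]) (d := [X true i])
      (by simp [Cr]) (by simp [Cr])) : LQ i [X false i, X false (i + 1), X true (i + 1), X true i]
        [X false i, X true i]).trans (lq_np0 i))
  have f1 : LQ i [X false i, X false (i + 1), X false i]
      [X false i, X false (i + 1), X false i, X true (i + 1), X true i, X true (i + 1),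
        X false (i + 1), X false i, X false (i + 1)] :=
    e1.symm.ctx (c := [X false i, X false (i + 1), X false i]) (d := [])
      (by simp [Cr]) (by simp [Cr])
  have f2 : LQ i [X false i, X false (i + 1), X false i, X true (i + 1), X true i, X true (i + 1),
        X false (i + 1), X false i, X false (i + 1)]
      [X false i, X false (i + 1), X false i, X true i, X true (i + 1), X true i,
        X false (i + 1), X false i, X false (i + 1)] :=
    (lq_ttt i).symm.ctx (c := [X false i, X false (i + 1), X false i])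
      (d := [X false (i + 1), X false i, X false (i + 1)]) (by simp [Cr]) (by simp [Cr])
  have f3 : LQ i [X false i, X false (i + 1), X false i, X true i, X true (i + 1), X true i,
        X false (i + 1), X false i, X false (i + 1)]
      [X false (i + 1), X false i, X false (i + 1)] :=
    e2.ctx (c := []) (d := [X false (i + 1), X false i, X false (i + 1)])
      (by simp [Cr]) (by simp [Cr])
  exact (f1.trans f2).trans f3

private theorem lq_tff (i : ℕ) :
    LQ i [X true i, X false (i + 1), X false i] [X false (i + 1), X false i, X true (i + 1)] := by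
  have f1 : LQ i [X false (i + 1), X false i, X true (i + 1)]
      [X true i, X false i, X false (i + 1), X false i, X true (i + 1)] :=
    (lq_pn0 i).symm.ctx (c := []) (d := [X false (i + 1), X false i, X true (i + 1)])
      (by simp [Cr]) (by simp [Cr])
  have f2 : LQ i [X true i, X false i, X false (i + 1), X false i, X true (i + 1)]
      [X true i, X false (i + 1), X false i, X false (i + 1), X true (i + 1)] :=
    (lq_fff i).ctx (c := [X true i]) (d := [X true (i + 1)]) (by simp [Cr]) (by simp [Cr])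
  have f3 : LQ i [X true i, X false (i + 1), X false i, X false (i + 1), X true (i + 1)]
      [X true i, X false (i + 1), X false i] :=
    (lq_np1 i).ctx (c := [X true i, X false (i + 1), X false i]) (d := [])
      (by simp [Cr]) (by simp [Cr])
  exact ((f1.trans f2).trans f3).symm

private theorem lq_fft (i : ℕ) :
    LQ i [X false i, X false (i + 1), X true i] [X true (i + 1), X false i, X false (i + 1)] := by
  have f1 : LQ i [X true (i + 1), X false i, X false (i + 1)]
      [X true (i + 1), X false i, X false (i + 1), X false i, X true i] :=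
    (lq_np0 i).symm.ctx (c := [X true (i + 1), X false i, X false (i + 1)]) (d := [])
      (by simp [Cr]) (by simp [Cr])
  have f2 : LQ i [X true (i + 1), X false i, X false (i + 1), X false i, X true i]
      [X true (i + 1), X false (i + 1), X false i, X false (i + 1), X true i] :=
    (lq_fff i).ctx (c := [X true (i + 1)]) (d := [X true i]) (by simp [Cr]) (by simp [Cr])
  have f3 : LQ i [X true (i + 1), X false (i + 1), X false i, X false (i + 1), X true i]
      [X false i, X false (i + 1), X true i] :=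
    (lq_pn1 i).ctx (c := []) (d := [X false i, X false (i + 1), X true i])
      (by simp [Cr]) (by simp [Cr])
  exact ((f1.trans f2).trans f3).symm

private theorem adj_iso {a b x y : Wd} (h : Mv x y) (h1 : ty (a ++ x ++ b) 1 = some 1)
    (h2 : ty (a ++ y ++ b) 1 = some 1) :
    Iso (a ++ x ++ b) (a ++ y ++ b) ∧ Iso (a ++ y ++ b) (a ++ x ++ b) :=
  ⟨Relation.ReflTransGen.single ⟨h1, h2, Or.inl ⟨a, b, x, y, h, rfl, rfl⟩⟩,
    Relation.ReflTransGen.single ⟨h2, h1, Or.inr ⟨a, b, x, y, h, rfl, rfl⟩⟩⟩

theorem rl_iso (r : Rl) (hr : r.ok = true) (a b : Wd) (h1 : ty (a ++ r.lhs ++ b) 1 = some 1)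
    (h2 : ty (a ++ r.rhs ++ b) 1 = some 1) :
    Iso (a ++ r.lhs ++ b) (a ++ r.rhs ++ b) ∧ Iso (a ++ r.rhs ++ b) (a ++ r.lhs ++ b) := by
  cases r with
  | comm k l i m => exact adj_iso (Mv.comm k l i m) h1 h2
  | zig i => exact adj_iso (Mv.zig i) h1 h2
  | zag i => exact adj_iso (Mv.zag i) h1 h2
  | r1a i => exact adj_iso (Mv.r1a i) h1 h2
  | r1b i => exact adj_iso (Mv.r1b i) h1 h2
  | r1c i => exact adj_iso (Mv.r1c i) h1 h2
  | r1d i => exact adj_iso (Mv.r1d i) h1 h2
  | r2a i => exact adj_iso (Mv.r2a i) h1 h2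
  | r2b i => exact adj_iso (Mv.r2b i) h1 h2
  | sla i => exact adj_iso (Mv.sla i) h1 h2
  | slb i => exact adj_iso (Mv.slb i) h1 h2
  | slc i => exact adj_iso (Mv.slc i) h1 h2
  | sld i => exact adj_iso (Mv.sld i) h1 h2
  | r3 p q r i =>
    have hlq : LQ i [X p i, X q (i + 1), X r i] [X r (i + 1), X q i, X p (i + 1)] := by
      cases p <;> cases q <;> cases r
      · exact lq_fff i
      · exact lq_fft i
      · exact absurd hr Bool.false_ne_true
      · exact lq_ftt i
      · exact lq_tff i
      · exact absurd hr Bool.false_ne_true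
      · exact lq_ttf i
      · exact lq_ttt i
    rw [ty_app, ty_app] at h1
    cases ha : ty a 1 with
    | none => rw [ha] at h1; simp at h1
    | some n =>
      rw [ha] at h1
      simp only [Option.bind_some] at h1
      cases hl : ty (Rl.r3 p q r i).lhs n with
      | none => rw [hl] at h1; simp at h1
      | some m =>
        rw [hl] at h1
        simp only [Option.bind_some] at h1
        have g1 := ty_X' _ _ _ _ _ (show ty (X p i :: [X q (i + 1), X r i]) n = some m from hl)
        have g2 := ty_X' _ _ _ _ _ g1.2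
        have g3 := ty_X' _ _ _ _ _ g2.2
        have g4 : n = m := by
          have := g3.2
          simpa [ty] using this
        subst g4
        exact ⟨hlq.1 a b n ha (by omega) h1, hlq.2 a b n ha (by omega) h1⟩

/-- equality of pieces -/
def Kd.eqb : Kd → Kd → Bool
  | .cup, .cup => true
  | .cap, .cap => true
  | .pos, .pos => true
  | .neg, .neg => true
  | _, _ => false

/-- removes the prefix `x` -/
def cutp : Wd → Wd → Option Wd
  | [], w => some w
  | s :: x, t :: w => if Kd.eqb s.k t.k && Nat.beq s.i t.i then cutp x w else none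
  | _ :: _, [] => none

/-- replaces `x` at the position `p` by `y` -/
def rpl (x y : Wd) : ℕ → Wd → Option Wd
  | 0, w => (cutp x w).map (fun v => y ++ v)
  | p + 1, s :: w => (rpl x y p w).map (fun v => s :: v)
  | _ + 1, [] => none

/-- one move: position, rule, direction (`true`: from `lhs` to `rhs`) -/
def apl (w : Wd) (m : ℕ × Rl × Bool) : Option Wd :=
  if m.2.1.ok then
    match (if m.2.2 then rpl m.2.1.lhs m.2.1.rhs m.1 w else rpl m.2.1.rhs m.2.1.lhs m.1 w) with
    | none => none
    | some v => match ty v 1 with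
      | some 1 => some v
      | _ => none
  else none

/-- a list of moves -/
def chk : List (ℕ × Rl × Bool) → Wd → Option Wd
  | [], w => some w
  | m :: L, w => match apl w m with
    | none => none
    | some v => chk L v

/-- equality of words -/
def eqw : Wd → Wd → Bool
  | [], [] => true
  | s :: v, t :: w => Kd.eqb s.k t.k && Nat.beq s.i t.i && eqw v w
  | _, _ => false

private theorem Kd.eqb_sound : ∀ k l : Kd, Kd.eqb k l = true → k = l := by
  intro k l
  cases k <;> cases l <;> simp [Kd.eqb]

private theorem cutp_sound : ∀ x w b : Wd, cutp x w = some b → w = x ++ b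
  | [], w, b, h => by
    simp only [cutp, Option.some.injEq] at h
    simpa using h
  | s :: x, [], b, h => by simp [cutp] at h
  | s :: x, t :: w, b, h => by
    rw [cutp] at h
    by_cases hc : (Kd.eqb s.k t.k && Nat.beq s.i t.i) = true
    · rw [if_pos hc] at h
      rw [Bool.and_eq_true] at hc
      have e1 := Kd.eqb_sound _ _ hc.1
      have e2 := Nat.eq_of_beq_eq_true hc.2
      have e3 := cutp_sound x w b h
      have e4 : s = t := by
        cases s
        cases t
        simp only at e1 e2
        rw [e1, e2]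
      rw [e3, e4, List.cons_append]
    · rw [if_neg hc] at h
      simp at h

private theorem rpl_sound (x y : Wd) : ∀ (p : ℕ) (w u : Wd), rpl x y p w = some u →
    ∃ a b, w = a ++ x ++ b ∧ u = a ++ y ++ b
  | 0, w, u, h => by
    rw [rpl, Option.map_eq_some_iff] at h
    obtain ⟨b, hb, rfl⟩ := h
    exact ⟨[], b, by rw [List.nil_append]; exact cutp_sound x w b hb, by simp⟩
  | p + 1, [], u, h => by simp [rpl] at h
  | p + 1, s :: w, u, h => by
    rw [rpl, Option.map_eq_some_iff] at h
    obtain ⟨v, hv, rfl⟩ := h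
    obtain ⟨a, b, h1, h2⟩ := rpl_sound x y p w v hv
    exact ⟨s :: a, b, by rw [h1]; simp, by rw [h2]; simp⟩

private theorem apl_sound (w v : Wd) (m : ℕ × Rl × Bool) (h1 : ty w 1 = some 1)
    (h : apl w m = some v) : Iso w v ∧ ty v 1 = some 1 := by
  rw [apl] at h
  by_cases hok : m.2.1.ok = true
  · rw [if_pos hok] at h
    cases hr : (if m.2.2 then rpl m.2.1.lhs m.2.1.rhs m.1 w else rpl m.2.1.rhs m.2.1.lhs m.1 w) with
    | none => rw [hr] at h; simp at h
    | some u =>
      rw [hr] at h
      simp only at h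
      cases ht : ty u 1 with
      | none => rw [ht] at h; simp at h
      | some k =>
        rw [ht] at h
        have hk : k = 1 ∧ u = v := by
          match k, h with
          | 1, h => exact ⟨rfl, by simpa using h⟩
        obtain ⟨rfl, rfl⟩ := hk
        refine ⟨?_, ht⟩
        by_cases hd : m.2.2 = true
        · rw [if_pos hd] at hr
          obtain ⟨a, b, e1, e2⟩ := rpl_sound _ _ _ _ _ hr
          rw [e1, e2]
          exact (rl_iso m.2.1 hok a b (by rw [← e1]; exact h1) (by rw [← e2]; exact ht)).1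
        · rw [if_neg hd] at hr
          obtain ⟨a, b, e1, e2⟩ := rpl_sound _ _ _ _ _ hr
          rw [e1, e2]
          exact (rl_iso m.2.1 hok a b (by rw [← e2]; exact ht) (by rw [← e1]; exact h1)).2
  · rw [if_neg hok] at h
    simp at h

private theorem eqw_sound : ∀ v w : Wd, eqw v w = true → v = w
  | [], [], _ => rfl
  | s :: v, t :: w, h => by
    simp only [eqw, Bool.and_eq_true] at h
    have e1 := Kd.eqb_sound _ _ h.1.1
    have e2 := Nat.eq_of_beq_eq_true h.1.2
    have e3 := eqw_sound v w h.2
    have e4 : s = t := by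
      cases s
      cases t
      simp only at e1 e2
      rw [e1, e2]
    rw [e3, e4]
  | [], _ :: _, h => by simp [eqw] at h
  | _ :: _, [], h => by simp [eqw] at h

theorem chk_sound (v w : Wd) (L : List (ℕ × Rl × Bool)) (h1 : ty v 1 = some 1)
    (h : (match chk L v with | some v' => eqw v' w | none => false) = true) : Iso v w := by
  induction L generalizing v with
  | nil =>
    simp only [chk] at h
    rw [eqw_sound v w h]
    exact Relation.ReflTransGen.refl
  | cons m L ih =>
    rw [chk] at h
    cases ha : apl v m with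
    | none => rw [ha] at h; simp at h
    | some u =>
      rw [ha] at h
      simp only at h
      obtain ⟨g1, g2⟩ := apl_sound v u m h1 ha
      exact Relation.ReflTransGen.trans g1 (ih u g2 h)

end Pool.Agent.H86.RN
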