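import Pool.Agent.H86.RN.NDefs

/-!
# [H86 RN MRG] One merge is removed

STATEMENT `merge_step`: if `L` has a row `mg a b` one can contract it.

PROOF. Take a row `p0 = (mg a b, g) ∈ L` (`isps = false` means that the row is a `mg`). FIRST `a ≠ b`: otherwise the list `L1`
obtained from `L` by deleting this entry has `m - 1` rows and still the connectedness property on the `m + 1` vertices
`0, …, m`. This is impossible: a graph with fewer edges than `m` on `m + 1` vertices is not connected. Proof of this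
(the only counting): over `ZMod 2` the linear map `(Fin m → ZMod 2) → (Fin L1.length → ZMod 2)`, `f ↦ (f' (x r) - f' (y r))_r`
(`f'` = `f` extended by `f' 0 = 0`) has a nonzero kernel element since `L1.length < m`
(`LinearMap.exists_ne_zero_of_finrank_lt` or `Matrix.exists_mulVec_eq_zero_iff`, or by cardinality: more than `2 ^ (m - 1)`
vectors), and `B = {v | f' v = 0}` contradicts the connectedness. (Alternatively `lin_u` of `RT`.)
NOW let `b' = max a b`, `a' = min a b` (so `a' < b'`, `b' ≥ 1`), `σ v = if v = b' then a' else if v < b' then v else v - 1`, and `L'` = `L`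
without one occurrence of `p0` (`List.erase`, or cut `L = L0 ++ p0 :: L2`), all rows mapped by `σ` (map `mg x y ↦ mg (σ x) (σ y)`,
`ps x n z ↦ ps (σ x) (σ n) (σ z)`), the same flags. Write a private `smap σ : Row → Row` with its simp lemmas.
`Tr L' (m-1)`: length; `σ v ≤ m - 1` for `v ≤ m` (`b' ≤ m`); connectedness: for `B'` put `B = {v | σ v ∈ B'}`; `0 ∈ B` since `σ 0 = 0`
(`b' ≥ 1`); the row `p0` is fine as `σ a = σ b`; every `k ≤ m - 1` is `σ v` for some `v ≤ m` (`v = k` if `k < b'`, else `k + 1`).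
`col`: `Sat Q w f (smap σ r) ↔ Sat Q (w ∘ σ) f r` (cases on `r`, definitional), and `Sat Q (w ∘ σ) _ (mg a b)` since `σ a = σ b`.
`ker`: given `u` put `w k = u (if k < b' then k else k + 1)`; then `w (σ v) = u v` for all `v` (for `v = b'`: `w a' = u a' = u b'` by the
row `mg a b`), so `Sat Q w f (smap σ r)` follows from `Sat Q u f r`.
The number of passing rows does not change (`countP`).
-/

set_option autoImplicit false

namespace Pool.Agent.H86.RN

open Pool.Agent.H86.RB Pool.Agent.H86.RT

private def smap (σ : ℕ → ℕ) : Row → Row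
  | .mg a b => .mg (σ a) (σ b)
  | .ps a n b => .ps (σ a) (σ n) (σ b)

private theorem smap_x (σ : ℕ → ℕ) (r : Row) : (smap σ r).x = σ r.x := by cases r <;> rfl

private theorem smap_y (σ : ℕ → ℕ) (r : Row) : (smap σ r).y = σ r.y := by cases r <;> rfl

private theorem smap_z (σ : ℕ → ℕ) (r : Row) : (smap σ r).z = σ r.z := by cases r <;> rfl

private theorem smap_isps (σ : ℕ → ℕ) (r : Row) : (smap σ r).isps = r.isps := by cases r <;> rfl

private theorem smap_sat (σ : ℕ → ℕ) {C : Type} (Q : Sq C) (w : ℕ → C) (f : Bool) (r : Row) :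
    Sat Q w f (smap σ r) ↔ Sat Q (fun v => w (σ v)) f r := by cases r <;> exact Iff.rfl

private theorem mrg_card (n : ℕ) (R : List (ℕ × ℕ)) : ∃ ρ : ℕ → ℕ, (∀ p ∈ R, ρ p.1 = ρ p.2) ∧
    n + 1 ≤ ((Finset.range (n + 1)).image ρ).card + R.length := by
  induction R with
  | nil => exact ⟨id, by simp, by simp⟩
  | cons q R ih =>
    obtain ⟨ρ, h1, h2⟩ := ih
    refine ⟨fun v => if ρ v = ρ q.2 then ρ q.1 else ρ v, ?_, ?_⟩
    · intro p hp
      rcases List.mem_cons.1 hp with h | h
      · subst h
        simp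
      · simp only [h1 p h]
    · have h3 : ((Finset.range (n + 1)).image ρ).erase (ρ q.2) ⊆
          (Finset.range (n + 1)).image (fun v => if ρ v = ρ q.2 then ρ q.1 else ρ v) := by
        intro c hc
        rw [Finset.mem_erase, Finset.mem_image] at hc
        obtain ⟨hc1, v, hv, rfl⟩ := hc
        exact Finset.mem_image.2 ⟨v, hv, if_neg hc1⟩
      have h4 := Finset.card_le_card h3
      have h5 := Finset.pred_card_le_card_erase (s := (Finset.range (n + 1)).image ρ)
        (a := ρ q.2)
      rw [List.length_cons]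
      omega

private theorem mrg_conn (n : ℕ) (R : List (ℕ × ℕ)) (h : ∀ B : Set ℕ, 0 ∈ B →
    (∀ p ∈ R, (p.1 ∈ B ↔ p.2 ∈ B)) → ∀ v ≤ n, v ∈ B) : n ≤ R.length := by
  obtain ⟨ρ, h1, h2⟩ := mrg_card n R
  have h3 := h {v | ρ v = ρ 0} rfl (fun p hp => by
    show ρ p.1 = ρ 0 ↔ ρ p.2 = ρ 0
    rw [h1 p hp])
  have h4 : (Finset.range (n + 1)).image ρ ⊆ {ρ 0} := by
    intro c hc
    obtain ⟨v, hv, rfl⟩ := Finset.mem_image.1 hc
    rw [Finset.mem_singleton]
    exact h3 v (by have := Finset.mem_range.1 hv; omega)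
  have h5 := Finset.card_le_card h4
  rw [Finset.card_singleton] at h5
  omega

theorem merge_step (L : List (Row × Bool)) (m : ℕ) (hT : Tr L m) (hmg : ∃ p ∈ L, p.1.isps = false) :
    ∃ (m' : ℕ) (σ : ℕ → ℕ) (L' : List (Row × Bool)), m = m' + 1 ∧ Tr L' m' ∧
      L'.countP (fun p => p.1.isps) = L.countP (fun p => p.1.isps) ∧ σ 0 = 0 ∧ (∀ v ≤ m, σ v ≤ m') ∧
      (∀ k ≤ m', ∃ v ≤ m, σ v = k) ∧
      (∀ (e : Bool) (C : Type) (Q : Sq C) (w : ℕ → C), (∀ p ∈ L', Sat Q w (xor e p.2) p.1) →
        ∀ p ∈ L, Sat Q (fun v => w (σ v)) (xor e p.2) p.1) ∧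
      (∀ (e : Bool) (C : Type) (Q : Sq C) (u : ℕ → C), (∀ p ∈ L, Sat Q u (xor e p.2) p.1) →
        ∃ w : ℕ → C, (∀ p ∈ L', Sat Q w (xor e p.2) p.1) ∧ ∀ v ≤ m, u v = w (σ v)) := by
  obtain ⟨hlen, hle, hcon⟩ := hT
  obtain ⟨⟨r0, g⟩, hp, hr0⟩ := hmg
  obtain ⟨a, b, rfl⟩ : ∃ a b, r0 = Row.mg a b := by
    cases r0 with
    | mg a b => exact ⟨a, b, rfl⟩
    | ps a n b => simp [Row.isps] at hr0
  obtain ⟨L0, L2, rfl⟩ := List.append_of_mem hp
  have hlen' : m = L0.length + L2.length + 1 := by
    rw [List.length_append, List.length_cons] at hlen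
    omega
  have hab : a ≠ b := by
    intro hab
    subst hab
    have h1 := mrg_conn m ((L0 ++ L2).map fun p => (p.1.x, p.1.y)) (by
      intro B h0 hB
      refine hcon B h0 fun p hp => ?_
      rcases List.mem_append.1 hp with h | h
      · exact hB (p.1.x, p.1.y) (List.mem_map_of_mem (List.mem_append_left _ h))
      · rcases List.mem_cons.1 h with h | h
        · rw [h]
          exact Iff.rfl
        · exact hB (p.1.x, p.1.y) (List.mem_map_of_mem (List.mem_append_right _ h)))
    rw [List.length_map, List.length_append] at h1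
    omega
  have hmab := hle _ hp
  simp only [Row.x, Row.y, Row.z] at hmab
  obtain ⟨a', b', ha'b', hb'm, hcase⟩ : ∃ a' b' : ℕ, a' < b' ∧ b' ≤ m ∧
      ((a = a' ∧ b = b') ∨ (a = b' ∧ b = a')) := by
    rcases Nat.lt_or_gt_of_ne hab with h | h
    · exact ⟨a, b, h, by omega, Or.inl ⟨rfl, rfl⟩⟩
    · exact ⟨b, a, h, by omega, Or.inr ⟨rfl, rfl⟩⟩
  obtain ⟨σ, hσ⟩ : ∃ σ : ℕ → ℕ, ∀ v, σ v = if v = b' then a' else if v < b' then v else v - 1 :=
    ⟨_, fun _ => rfl⟩
  have hσb : σ b' = a' := by rw [hσ, if_pos rfl]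
  have hσlt : ∀ v, v < b' → σ v = v := fun v hv => by
    rw [hσ, if_neg (by omega), if_pos hv]
  have hσgt : ∀ v, b' < v → σ v = v - 1 := fun v hv => by
    rw [hσ, if_neg (by omega), if_neg (by omega)]
  have hσab : σ a = σ b := by
    rcases hcase with ⟨rfl, rfl⟩ | ⟨rfl, rfl⟩
    · rw [hσb, hσlt _ ha'b']
    · rw [hσb, hσlt _ ha'b']
  have hσle : ∀ v ≤ m, σ v ≤ L0.length + L2.length := by
    intro v hv
    rcases Nat.lt_trichotomy v b' with h | h | h
    · rw [hσlt v h]
      omega
    · rw [h, hσb]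
      omega
    · rw [hσgt v h]
      omega
  have hτ : ∀ k, σ (if k < b' then k else k + 1) = k := by
    intro k
    split_ifs with h
    · exact hσlt k h
    · rw [hσgt _ (by omega)]
      omega
  have hsur : ∀ k ≤ L0.length + L2.length, ∃ v ≤ m, σ v = k := by
    intro k hk
    refine ⟨if k < b' then k else k + 1, ?_, hτ k⟩
    split_ifs <;> omega
  have hmem : ∀ p ∈ L0 ++ L2, p ∈ L0 ++ (Row.mg a b, g) :: L2 := by
    intro p hp
    rcases List.mem_append.1 hp with h | h
    · exact List.mem_append_left _ h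
    · exact List.mem_append_right _ (List.mem_cons_of_mem _ h)
  have hmem' : ∀ p ∈ L0 ++ (Row.mg a b, g) :: L2, p = (Row.mg a b, g) ∨ p ∈ L0 ++ L2 := by
    intro p hp
    rcases List.mem_append.1 hp with h | h
    · exact Or.inr (List.mem_append_left _ h)
    · rcases List.mem_cons.1 h with h | h
      · exact Or.inl h
      · exact Or.inr (List.mem_append_right _ h)
  refine ⟨L0.length + L2.length, σ, (L0 ++ L2).map (fun p => (smap σ p.1, p.2)), hlen', ?_, ?_,
    ?_, hσle, hsur, ?_, ?_⟩
  · refine ⟨by rw [List.length_map, List.length_append], ?_, ?_⟩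
    · intro p hp
      obtain ⟨q, hq, rfl⟩ := List.mem_map.1 hp
      obtain ⟨h1, h2, h3⟩ := hle q (hmem q hq)
      dsimp only
      rw [smap_x, smap_y, smap_z]
      exact ⟨hσle _ h1, hσle _ h2, hσle _ h3⟩
    · intro B h0 hB k hk
      have h1 := hcon {v | σ v ∈ B} (by
        show σ 0 ∈ B
        rw [hσlt 0 (by omega)]
        exact h0) (by
        intro p hp
        rcases hmem' p hp with h | h
        · rw [h]
          show σ a ∈ B ↔ σ b ∈ B
          rw [hσab]
        · have h2 := hB _ (List.mem_map_of_mem (f := fun p : Row × Bool => (smap σ p.1, p.2)) h)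
          dsimp only at h2
          rw [smap_x, smap_y] at h2
          exact h2)
      obtain ⟨v, hv, rfl⟩ := hsur k hk
      exact h1 v hv
  · rw [List.countP_map, List.countP_append, List.countP_append, List.countP_cons]
    have h1 : ((fun p : Row × Bool => p.1.isps) ∘ fun p : Row × Bool => (smap σ p.1, p.2)) =
        fun p : Row × Bool => p.1.isps := by
      funext p
      exact smap_isps σ p.1
    rw [h1]
    simp [Row.isps]
  · exact hσlt 0 (by omega)
  · intro e C Q w hw p hp
    rcases hmem' p hp with h | h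
    · rw [h]
      show w (σ a) = w (σ b)
      rw [hσab]
    · have h2 := hw _ (List.mem_map_of_mem (f := fun p : Row × Bool => (smap σ p.1, p.2)) h)
      exact (smap_sat σ Q w _ _).1 h2
  · intro e C Q u hu
    have huab : u a = u b := hu _ hp
    have hua : u a' = u b' := by
      rcases hcase with ⟨h1, h2⟩ | ⟨h1, h2⟩
      · rw [← h1, ← h2]
        exact huab
      · rw [← h1, ← h2]
        exact huab.symm
    have hw : ∀ v, u (if σ v < b' then σ v else σ v + 1) = u v := by
      intro v
      rcases Nat.lt_trichotomy v b' with h | h | h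
      · rw [hσlt v h, if_pos h]
      · rw [h, hσb, if_pos ha'b', hua]
      · rw [hσgt v h, if_neg (by omega)]
        congr 1
        omega
    refine ⟨fun k => u (if k < b' then k else k + 1), ?_, fun v _ => (hw v).symm⟩
    intro p hp'
    obtain ⟨q, hq, rfl⟩ := List.mem_map.1 hp'
    refine (smap_sat σ Q _ _ _).2 ?_
    have h1 : (fun v => u (if σ v < b' then σ v else σ v + 1)) = u := funext hw
    rw [h1]
    exact hu q (hmem q hq)

end Pool.Agent.H86.RN
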