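import Pool.Agent.H86.RT.Sq

/-!
# [H86 RN QD] The dihedral quandle of order 11, extended by vectors modulo 199

The element `((a, v0, v1), true)` stands for the affine map `y ↦ A_a y + v` of `F ^ 2`, `F = ZMod 199`, with the matrix
`A_a = [[0, t ζ^a], [ζ^(-a), 0]]`, `ζ = 61` (of order 11), and `((a, v0, v1), false)` for its inverse; `op` is conjugation `x y x⁻¹`, `bar` is
inversion. So `opX` is the conjugation `x y x⁻¹`, `opI` is `x⁻¹ y x`.

PROOF. `zt (a + b) = zt a * zt b`, `zt 0 = 1` (`decide +kernel`, 121 cases, or `pow_add`, `ZMod.val_add`, `61 ^ 11 = 1`), so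
`zt (-a) * zt a = 1`. All laws are identities between explicit triples: first component `2a - b` (`ring`), the others by expressing
all `zt` of sums by `zt a`, `zt (-a)`, .. and `ring` / `linear_combination` with `zt a * zt (-a) = 1`, `t * t⁻¹ = 1`. It suffices to show
(i) `opI x (opX x y) = y`, (ii) `opX x (opI x y) = y`, (iii) `opX x x = x`, (iv) `opX x (opX y z) = opX (opX x y) (opX x z)`; the other cases of
`dist` follow formally: with `e x` the bijection `opX x`, (iv) says `e (e x y) = e x ∘ e y ∘ (e x)⁻¹` (then also for the inverses of `e x`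
and `e y` in place of `e x`, `e y`). (Alternative for (iv): the map to affine maps is injective.)
Checked numerically with a program.
-/

set_option autoImplicit false

namespace Pool.Agent.H86.RN

open Pool.Agent.H86.RB Pool.Agent.H86.RT

/-- colours: an element of `ZMod 11` and a vector -/
abbrev XT := ZMod 11 × ZMod 199 × ZMod 199

/-- the eleventh roots of unity -/
def zt (a : ZMod 11) : ZMod 199 := 61 ^ a.val

/-- `x y x⁻¹` -/
def opX (t : ZMod 199) (x y : XT) : XT :=
  (2 * x.1 - y.1, t * zt x.1 * y.2.2 + x.2.1 - t * zt (2 * x.1 - y.1) * x.2.2,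
    zt (-x.1) * y.2.1 + x.2.2 - zt (y.1 - 2 * x.1) * x.2.1)

/-- `x⁻¹ y x` -/
def opI (t : ZMod 199) (x y : XT) : XT :=
  (2 * x.1 - y.1, zt x.1 * (y.2.2 - x.2.2 + zt (-y.1) * x.2.1),
    t⁻¹ * zt (-x.1) * (y.2.1 - x.2.1 + t * zt y.1 * x.2.2))

private instance fp199 : Fact (Nat.Prime 199) := ⟨by norm_num⟩

private lemma zt_add : ∀ a b : ZMod 11, zt (a + b) = zt a * zt b := by
  decide +kernel

private lemma zt_ne : ∀ a : ZMod 11, zt a ≠ 0 := by
  decide +kernel

private lemma zt_zero : zt 0 = 1 := by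
  decide +kernel

private lemma zt_neg (a : ZMod 11) : zt (-a) = (zt a)⁻¹ := by
  have h := zt_add (-a) a
  rw [neg_add_cancel, zt_zero] at h
  exact eq_inv_of_mul_eq_one_left h.symm

private lemma zt_sub (a b : ZMod 11) : zt (a - b) = zt a * (zt b)⁻¹ := by
  rw [sub_eq_add_neg, zt_add, zt_neg]

private lemma zt_two (a : ZMod 11) : zt (2 * a) = zt a * zt a := by
  rw [two_mul, zt_add]

private lemma opIX (t : ZMod 199) (ht : t ≠ 0) (x y : XT) : opI t x (opX t x y) = y := by
  obtain ⟨a, x0, x1⟩ := x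
  obtain ⟨b, y0, y1⟩ := y
  have ha := zt_ne a
  have hb := zt_ne b
  simp only [opX, opI, zt_sub, zt_two, zt_neg, Prod.mk.injEq]
  refine ⟨by ring, ?_, ?_⟩
  · field_simp
    ring
  · field_simp
    ring

private lemma opXI (t : ZMod 199) (ht : t ≠ 0) (x y : XT) : opX t x (opI t x y) = y := by
  obtain ⟨a, x0, x1⟩ := x
  obtain ⟨b, y0, y1⟩ := y
  have ha := zt_ne a
  have hb := zt_ne b
  simp only [opX, opI, zt_sub, zt_two, zt_neg, Prod.mk.injEq]
  refine ⟨by ring, ?_, ?_⟩
  · field_simp
    ring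
  · field_simp
    ring

private lemma opXX (t : ZMod 199) (x : XT) : opX t x x = x := by
  obtain ⟨a, x0, x1⟩ := x
  have ha := zt_ne a
  simp only [opX, zt_sub, zt_two, zt_neg, Prod.mk.injEq]
  refine ⟨by ring, ?_, ?_⟩
  · field_simp
    ring
  · field_simp
    ring

private lemma opXd (t : ZMod 199) (x y z : XT) :
    opX t x (opX t y z) = opX t (opX t x y) (opX t x z) := by
  obtain ⟨a, x0, x1⟩ := x
  obtain ⟨b, y0, y1⟩ := y
  obtain ⟨c, z0, z1⟩ := z
  have ha := zt_ne a
  have hb := zt_ne b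
  have hc := zt_ne c
  simp only [opX, zt_sub, zt_two, zt_neg, Prod.mk.injEq]
  refine ⟨by ring, ?_, ?_⟩
  · field_simp
    ring
  · field_simp
    ring

private def eX (t : ZMod 199) (ht : t ≠ 0) (x : XT) : XT ≃ XT where
  toFun := opX t x
  invFun := opI t x
  left_inv := opIX t ht x
  right_inv := opXI t ht x

private lemma eX_apply (t : ZMod 199) (ht : t ≠ 0) (x y : XT) : eX t ht x y = opX t x y := rfl

private lemma eX_symm (t : ZMod 199) (ht : t ≠ 0) (x y : XT) :
    (eX t ht x).symm y = opI t x y := rfl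

private lemma eX_d (t : ZMod 199) (ht : t ≠ 0) (x y z : XT) :
    eX t ht x (eX t ht y z) = eX t ht (eX t ht x y) (eX t ht x z) :=
  opXd t x y z

private def eB (t : ZMod 199) (ht : t ≠ 0) (p : XT × Bool) : XT ≃ XT :=
  if p.2 then eX t ht p.1 else (eX t ht p.1).symm

private lemma eB_d (t : ZMod 199) (ht : t ≠ 0) (p : XT × Bool) (y : XT) (s : Bool) (z : XT) :
    eB t ht p (eB t ht (y, s) z) = eB t ht (eB t ht p y, s) (eB t ht p z) := by
  obtain ⟨x, r⟩ := p
  have h1 : ∀ x y z : XT, (eX t ht x).symm (eX t ht y z) =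
      eX t ht ((eX t ht x).symm y) ((eX t ht x).symm z) := by
    intro x y z
    apply (eX t ht x).injective
    rw [eX_d, Equiv.apply_symm_apply, Equiv.apply_symm_apply, Equiv.apply_symm_apply]
  cases r <;> cases s <;> simp only [eB, if_true, Bool.false_eq_true, if_false]
  · apply (eX t ht ((eX t ht x).symm y)).injective
    rw [← h1, Equiv.apply_symm_apply, Equiv.apply_symm_apply]
  · exact h1 x y z
  · apply (eX t ht (eX t ht x y)).injective
    rw [← eX_d, Equiv.apply_symm_apply, Equiv.apply_symm_apply]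
  · exact eX_d t ht x y z

theorem exists_tq (t : ZMod 199) (ht : t ≠ 0) : ∃ Q : Sq (XT × Bool),
    (∀ x s, Q.bar (x, s) = (x, !s)) ∧
    (∀ x y s, Q.op (x, true) (y, s) = (opX t x y, s)) ∧
    (∀ x y s, Q.op (x, false) (y, s) = (opI t x y, s)) := by
  refine ⟨{ bar := fun p => (p.1, !p.2)
            op := fun p => (eB t ht p).prodCongr (Equiv.refl Bool)
            bar_bar := ?_
            op_bar := ?_
            bar_op := ?_
            op_self := ?_
            dist := ?_ }, ?_, ?_, ?_⟩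
  · rintro ⟨x, s⟩
    simp
  · rintro ⟨x, s⟩
    apply Equiv.ext
    rintro ⟨y, r⟩
    cases s
    · simp [eB]
    · simp [eB]
  · rintro ⟨x, s⟩ ⟨y, r⟩
    simp
  · rintro ⟨x, s⟩
    cases s
    · simp only [Equiv.prodCongr_apply, Prod.map_apply, Equiv.refl_apply, eB, Bool.false_eq_true,
        if_false, Prod.mk.injEq, and_true]
      rw [Equiv.symm_apply_eq, eX_apply, opXX]
    · simp only [Equiv.prodCongr_apply, Prod.map_apply, Equiv.refl_apply, eB, if_true,
        Prod.mk.injEq, and_true]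
      rw [eX_apply, opXX]
  · rintro p ⟨y, s⟩ ⟨z, r⟩
    simp only [Equiv.prodCongr_apply, Prod.map_apply, Equiv.refl_apply, Prod.mk.injEq, and_true]
    exact eB_d t ht p y s z
  · intro x s
    rfl
  · intro x y s
    simp [eB, eX_apply]
  · intro x y s
    simp [eB, eX_symm]

/-- the twisted quandle; for `t = 0` junk -/
noncomputable def tq (t : ZMod 199) (ht : t ≠ 0) : Sq (XT × Bool) := (exists_tq t ht).choose

theorem tq_bar (t : ZMod 199) (ht : t ≠ 0) (x : XT) (s : Bool) : (tq t ht).bar (x, s) = (x, !s) :=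
  (exists_tq t ht).choose_spec.1 x s

theorem tq_opt (t : ZMod 199) (ht : t ≠ 0) (x y : XT) (s : Bool) :
    (tq t ht).op (x, true) (y, s) = (opX t x y, s) :=
  (exists_tq t ht).choose_spec.2.1 x y s

theorem tq_opf (t : ZMod 199) (ht : t ≠ 0) (x y : XT) (s : Bool) :
    (tq t ht).op (x, false) (y, s) = (opI t x y, s) :=
  (exists_tq t ht).choose_spec.2.2 x y s

end Pool.Agent.H86.RN
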