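import Pool.Agent.H86.RN.NDefs
import Pool.Agent.H86.RT.FCut
import Pool.Agent.H86.RB.Names

/-!
# [H86 RN RUN] Colourings of the pieces of a ribbon disk give colourings of its boundary

STATEMENT `card_le_srun`: a family `U i` (`i : ι`) of pairwise different colourings of the pieces (with `U i 0 = c`) has at most
as many members as the boundary has colourings with lower end `c`.

PROOF. Induction on the list of slices for the following statement. For `vs : List ℕ` (names of the bands) and `φ : List Bool`
(facings) of the same length let `stt Q u vs φ` be the list of colours of all strands WITHOUT the virtual left edge of the half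
plane: drop the first entry of `(vs.zip φ).flatMap (fun p => [ed Q (!p.2) (u p.1), ed Q p.2 (u p.1)])`.
CLAIM: let `bty S n = some n'`, `vs.length = φ.length = n + 1`, all `vs < k`, `0 < k`, `okk S k x φ`, `F : Finset ι` such that all `U i`
(`i ∈ F`) agree on all names `< k`, satisfy `Sat Q (U i) p.2 p.1` for all `p ∈ (rows S k vs).zip (fgs S k x φ)`, and any two
different members differ at some name `< k + births S + passes S`. Then for every `i0 ∈ F`:
`F.card ≤ Multiset.card (srun Q (bdw S) (stt Q (U i0) vs φ))`. (For `F = ∅` nothing to prove.)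
`[]`: all members agree on the names `< k`, so `F.card ≤ 1`, and `srun Q [] l = {l}`.
`s :: S`: `bdw (s :: S) = bd s ++ bdw S`, `srun_append`. Let `l = stt Q (U i0) vs φ`.
* `death`, `twist`, `cross`, `merge`: `stt Q (U i0) vs' φ' ∈ srun Q (bd s) l` (new names `rst`, new facings `fs1`), so
  `Multiset.card ((srun Q (bd s) l).bind f) ≥ Multiset.card (f t)` for a member `t`; use the induction hypothesis for the
  same `F`. Twist: the two edges are `x` and `Q.bar x` (in some order), `Q.op x (Q.bar x) = Q.bar x` etc. (`bar_op`, `op_self`,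
  `op_bar`), only the facing changes. Cross: the band that passes under both edges of the other one gets
  `Q.op (Q.bar y) (Q.op y z) = z` (`op_bar`). Merge: `u a = u b` by `Sat`, the facings agree by `ok1`, so the two middle edges
  are `y`, `Q.bar y` and the cap is allowed. Death: edges `y`, `Q.bar y`.
* `split j`: the cup may take the colour `ed Q φ_j (u v_j)` of the right edge of the left half; one member of the multiset again.
* `passR`, `passL`: the edges of the passing band pass over one edge and under the other edge of the other band. With the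
  facings `φ` (band `j + 1`, piece `a'`), `ψ` (band `j + 2`, piece `b'`): `passR true`: the new colour of the passing piece is
  `(Q.op (ed Q ψ (u b'))).symm (u a')`, `passR false`: `(Q.op (ed Q (!ψ) (u b'))).symm (u a')`; `passL true`:
  `Q.op (ed Q φ (u a')) (u b')`, `passL false`: `Q.op (ed Q (!φ) (u a')) (u b')`; in all cases this is
  `Q.op (ed Q f (u over)) (u passing)` with the flag `f` of `fg1` (`(Q.op x).symm = Q.op (Q.bar x)`), which is `u n` by `Sat`;
  both edges of the passing band change in the same way (`bar_op`), the pierced band keeps its colours (one of its edges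
  passes under the two edges `y`, `Q.bar y` of the passing band). All `U i` agree on the new name `k` too, since `Sat`
  expresses `U i k` by older names. Again one member of the multiset.
* `birth j`: `srun Q [cup]` is the sum over all colours `c` of the left strand; partition `F` by the colour
  `ed Q (!x k) (U i k)` of the left edge of the new band (equivalently by `U i k`); for every class with a member apply the
  induction hypothesis; sum over `c` (`Multiset.card_bind`, `Finset.card_eq_sum_card_fiberwise`).
At the end `S` is the whole word, `vs = [0]`, `φ = [true]`, `k = 1`, `F = univ`, `stt = [c]`. The lemmas `fs1_..`, `..` of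
`RT/FCut.lean` and `RB/Names.lean` describe the slices at a cut list; `RT/OFlat.lean` is a similar computation.
-/

set_option autoImplicit false

namespace Pool.Agent.H86.RN

open Pool.Agent.H86.RB Pool.Agent.H86.RT

section aux

variable {C : Type}

/-- a word at the right of one strand -/
private def upw (w : Wd) : Wd := w.map (fun s => (⟨s.k, 1 + s.i⟩ : Sl))

private theorem upw_append (v w : Wd) : upw (v ++ w) = upw v ++ upw w := by simp [upw]

/-- the colours of all edges of the bands, from left to right, with the virtual left edge of the half plane -/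
private def fll (Q : Sq C) (u : ℕ → C) : List ℕ → List Bool → List C
  | v :: vs, f :: φ => ed Q (!f) (u v) :: ed Q f (u v) :: fll Q u vs φ
  | _, _ => []

private theorem bar_ed (Q : Sq C) (s : Bool) (x : C) : Q.bar (ed Q s x) = ed Q (!s) x := by
  cases s
  · exact Q.bar_bar x
  · rfl

private theorem ed_not (Q : Sq C) (s : Bool) (x : C) : ed Q (!s) x = Q.bar (ed Q s x) :=
  (bar_ed Q s x).symm

private theorem op_ed (Q : Sq C) (y : C) (s : Bool) (x : C) :
    ed Q s (Q.op y x) = Q.op y (ed Q s x) := by
  cases s
  · exact Q.bar_op y x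
  · rfl

private theorem opb (Q : Sq C) (y x : C) : Q.op (Q.bar y) x = (Q.op y).symm x := by
  rw [Q.op_bar]

private theorem opbs (Q : Sq C) (y x : C) : (Q.op (Q.bar y)).symm x = Q.op y x := by
  rw [Q.op_bar, Equiv.symm_symm]

private theorem bar_sy (Q : Sq C) (y x : C) : Q.bar ((Q.op y).symm x) = (Q.op y).symm (Q.bar x) := by
  rw [Equiv.eq_symm_apply, ← Q.bar_op, Equiv.apply_symm_apply]

private theorem fll_app (Q : Sq C) (u : ℕ → C) (vs ws : List ℕ) (φ ψ : List Bool)
    (h : vs.length = φ.length) :
    fll Q u (vs ++ ws) (φ ++ ψ) = fll Q u vs φ ++ fll Q u ws ψ := by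
  induction vs generalizing φ with
  | nil =>
    cases φ with
    | nil => rfl
    | cons f φ => simp at h
  | cons v vs ih =>
    cases φ with
    | nil => simp at h
    | cons f φ =>
      simp only [List.cons_append, fll]
      rw [ih φ (by simpa using h)]

private theorem fll_len (Q : Sq C) (u : ℕ → C) (vs : List ℕ) (φ : List Bool)
    (h : vs.length = φ.length) : (fll Q u vs φ).length = 2 * vs.length := by
  induction vs generalizing φ with
  | nil =>
    cases φ with
    | nil => rfl
    | cons f φ => simp at h
  | cons v vs ih =>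
    cases φ with
    | nil => simp at h
    | cons f φ =>
      simp only [fll, List.length_cons]
      rw [ih φ (by simpa using h)]
      ring

private theorem fll_inj (Q : Sq C) (u u' : ℕ → C) (vs : List ℕ) (φ : List Bool)
    (h : vs.length = φ.length) (he : fll Q u vs φ = fll Q u' vs φ) : ∀ v ∈ vs, u v = u' v := by
  induction vs generalizing φ with
  | nil => intro v hv; simp at hv
  | cons w vs ih =>
    cases φ with
    | nil => simp at h
    | cons f φ =>
      simp only [fll, List.cons.injEq] at he
      obtain ⟨e1, e2, e3⟩ := he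
      intro v hv
      rcases List.mem_cons.1 hv with hv | hv
      · subst hv
        cases f
        · exact e1
        · exact e2
      · exact ih φ (by simpa using h) e3 v hv

private theorem fll_congr (Q : Sq C) (u u' : ℕ → C) (vs : List ℕ) (φ : List Bool)
    (he : ∀ v ∈ vs, u v = u' v) : fll Q u vs φ = fll Q u' vs φ := by
  induction vs generalizing φ with
  | nil => cases φ <;> rfl
  | cons w vs ih =>
    cases φ with
    | nil => rfl
    | cons f φ =>
      simp only [fll]
      rw [he w (List.mem_cons_self), ih φ fun v hv => he v (List.mem_cons_of_mem _ hv)]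

private theorem cut0 {α : Type} (l : List α) (i : ℕ) (h : i ≤ l.length) :
    ∃ x y, l = x ++ y ∧ x.length = i :=
  ⟨l.take i, l.drop i, (List.take_append_drop i l).symm, by rw [List.length_take]; omega⟩

private theorem cut1 {α : Type} (l : List α) (i : ℕ) (h : i + 1 ≤ l.length) :
    ∃ x a y, l = x ++ a :: y ∧ x.length = i := by
  obtain ⟨x, y, rfl, hx⟩ := cut0 l i (by omega)
  cases y with
  | nil => rw [List.append_nil] at h; omega
  | cons a y => exact ⟨x, a, y, rfl, hx⟩

private theorem cut2 {α : Type} (l : List α) (i : ℕ) (h : i + 2 ≤ l.length) :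
    ∃ x a b y, l = x ++ a :: b :: y ∧ x.length = i := by
  obtain ⟨x, a, y, rfl, hx⟩ := cut1 l i (by omega)
  cases y with
  | nil => rw [List.length_append, List.length_singleton] at h; omega
  | cons b y => exact ⟨x, a, b, y, rfl, hx⟩

variable [Fintype C] [DecidableEq C]

private theorem st0 (Q : Sq C) (k : Kd) (l : List C) : sstp Q ⟨k, 0⟩ l = sloc Q k l := by
  simp [sstp]

private theorem st1 (Q : Sq C) (k : Kd) (a : C) (l : List C) :
    sstp Q ⟨k, 1⟩ (a :: l) = (sloc Q k l).map (fun r => a :: r) := by
  simp [sstp]

private theorem st2 (Q : Sq C) (k : Kd) (a b : C) (l : List C) :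
    sstp Q ⟨k, 2⟩ (a :: b :: l) = (sloc Q k l).map (fun r => a :: b :: r) := by
  simp [sstp]

private theorem l_twist (Q : Sq C) (p : Bool) (a : C) (r : List C) :
    srun Q [X p 0] (a :: Q.bar a :: r) = {Q.bar a :: a :: r} := by
  have e1 : Q.op a (Q.bar a) = Q.bar a := by rw [← Q.bar_op, Q.op_self]
  have e2 : (Q.op (Q.bar a)).symm a = a := by
    rw [opbs, Q.op_self]
  cases p
  · simp only [X, Bool.false_eq_true, if_false, srun_cons, st0, srun_nil_bind, sloc, e2]
  · simp only [X, if_true, srun_cons, st0, srun_nil_bind, sloc, e1]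

private theorem l_cross (Q : Sq C) (p : Bool) (a c : C) (r : List C) :
    srun Q [X p 1, X p 0, X p 2, X p 1] (a :: Q.bar a :: c :: Q.bar c :: r) =
      {c :: Q.bar c :: a :: Q.bar a :: r} := by
  cases p
  · simp only [X, Bool.false_eq_true, if_false, srun_cons, st0, st1, st2, sloc,
      Multiset.singleton_bind, Multiset.map_singleton, opbs, Equiv.apply_symm_apply]
    rfl
  · simp only [X, if_true, srun_cons, st0, st1, st2, sloc,
      Multiset.singleton_bind, Multiset.map_singleton, opb, Equiv.apply_symm_apply]
    rfl

private theorem l_passR (Q : Sq C) (p : Bool) (a c : C) (r : List C) :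
    srun Q [X p 1, X p 0, X (!p) 2, X (!p) 1] (a :: Q.bar a :: c :: Q.bar c :: r) =
      {c :: Q.bar c :: (if p then Q.op c a else Q.op (Q.bar c) a) ::
        (if p then Q.op c (Q.bar a) else Q.op (Q.bar c) (Q.bar a)) :: r} := by
  have e : (Q.op c).symm (Q.bar a) = Q.bar ((Q.op c).symm a) := (bar_sy Q c a).symm
  cases p
  · simp only [X, Bool.not_false, Bool.false_eq_true, if_false, if_true, srun_cons, st0, st1, st2,
      sloc, Multiset.singleton_bind, Multiset.map_singleton, opb, e,
      Equiv.apply_symm_apply]
    rfl
  · simp only [X, Bool.not_true, Bool.false_eq_true, if_false, if_true, srun_cons, st0, st1, st2,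
      sloc, Multiset.singleton_bind, Multiset.map_singleton, opb, opbs,
      Equiv.apply_symm_apply]
    rfl

private theorem l_passL (Q : Sq C) (p : Bool) (a c : C) (r : List C) :
    srun Q [X p 1, X p 2, X (!p) 0, X (!p) 1] (a :: Q.bar a :: c :: Q.bar c :: r) =
      {(if p then Q.op (Q.bar a) c else Q.op a c) ::
        (if p then Q.op (Q.bar a) (Q.bar c) else Q.op a (Q.bar c)) :: a :: Q.bar a :: r} := by
  cases p
  · simp only [X, Bool.not_false, Bool.false_eq_true, if_false, if_true, srun_cons, st0, st1, st2,
      sloc, Multiset.singleton_bind, Multiset.map_singleton, opbs,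
      Equiv.apply_symm_apply]
    rfl
  · simp only [X, Bool.not_true, Bool.false_eq_true, if_false, if_true, srun_cons, st0, st1, st2,
      sloc, Multiset.singleton_bind, Multiset.map_singleton, ← Q.bar_op, opbs,
      Equiv.apply_symm_apply]
    rfl

private theorem at_x (Q : Sq C) (l : List C) (w w' : Wd) (hw : upw w' = w.map (fun s =>
    (⟨s.k, l.length + s.i⟩ : Sl))) (t r : List C) (ht : t ∈ srun Q w r) :
    l ++ t ∈ srun Q (upw w') (l ++ r) := by
  rw [hw, srun_shift]
  exact Multiset.mem_map_of_mem _ ht

private theorem run_step (Q : Sq C) (s : Bd) (n m k : ℕ) (h : bt s n = some m) (b : Bool)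
    (u : ℕ → C) (vs : List ℕ) (φ : List Bool) (hv : vs.length = n + 1) (hφ : φ.length = n + 1)
    (hk : ok1 s φ) (hs : ∀ p ∈ (rst s k vs).1.zip (fg1 s φ), Sat Q u p.2 p.1) :
    fll Q u (rst s k vs).2.2 (fs1 s b φ) ∈ srun Q (upw (bd s)) (fll Q u vs φ) := by
  cases s with
  | birth j =>
    simp only [bt] at h
    split_ifs at h with h1
    obtain ⟨x, y, rfl, hx⟩ := cut0 vs (j + 1) (by omega)
    obtain ⟨X', Y, rfl, hX⟩ := cut0 φ (j + 1) (by omega)
    rw [rst_birth hx, fs1_birth hX, fll_app _ _ _ _ _ _ (by omega), fll_app _ _ _ _ _ _ (by omega)]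
    refine at_x Q _ [⟨.cup, 0⟩] _ ?_ _ _ ?_
    · rw [fll_len _ _ _ _ (by omega), hx]
      simp only [upw, bd, List.map_cons, List.map_nil]
      congr 2
      omega
    · rw [srun_cons, st0, srun_nil_bind]
      simp only [sloc, fll]
      rw [Multiset.mem_map]
      exact ⟨ed Q (!b) (u k), Finset.mem_univ_val _, by rw [bar_ed, Bool.not_not]⟩
  | death j =>
    simp only [bt] at h
    split_ifs at h with h1
    obtain ⟨x, v, y, rfl, hx⟩ := cut1 vs (j + 1) (by omega)
    obtain ⟨X', f, Y, rfl, hX⟩ := cut1 φ (j + 1) (by omega)
    rw [rst_death hx, fs1_death hX, fll_app _ _ _ _ _ _ (by omega), fll_app _ _ _ _ _ _ (by omega)]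
    refine at_x Q _ [⟨.cap, 0⟩] _ ?_ _ _ ?_
    · rw [fll_len _ _ _ _ (by omega), hx]
      simp only [upw, bd, List.map_cons, List.map_nil]
      congr 2
      omega
    · rw [srun_cons, st0, srun_nil_bind]
      simp only [sloc, fll]
      rw [if_pos (by rw [bar_ed, Bool.not_not])]
      exact Multiset.mem_singleton_self _
  | split j =>
    simp only [bt] at h
    split_ifs at h with h1
    obtain ⟨x, v, y, rfl, hx⟩ := cut1 vs j (by omega)
    obtain ⟨X', f, Y, rfl, hX⟩ := cut1 φ j (by omega)
    rw [rst_split hx, fs1_split hX, fll_app _ _ _ _ _ _ (by omega), fll_app _ _ _ _ _ _ (by omega)]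
    refine at_x Q _ [⟨.cup, 1⟩] _ ?_ _ _ ?_
    · rw [fll_len _ _ _ _ (by omega), hx]
      simp only [upw, bd, List.map_cons, List.map_nil]
      congr 2
      omega
    · simp only [fll]
      rw [srun_cons, st1, srun_nil_bind]
      simp only [sloc]
      rw [Multiset.map_map, Multiset.mem_map]
      exact ⟨ed Q f (u v), Finset.mem_univ_val _, by
        simp only [Function.comp_apply]
        rw [bar_ed]⟩
  | merge j =>
    simp only [bt] at h
    split_ifs at h with h1
    obtain ⟨x, v, v', y, rfl, hx⟩ := cut2 vs j (by omega)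
    obtain ⟨X', f, f', Y, rfl, hX⟩ := cut2 φ j (by omega)
    simp only [ok1, bgetD0 hX, bgetD1 hX] at hk
    subst hk
    rw [rst_merge hx] at hs ⊢
    have hvv : u v = u v' := hs (Row.mg v v', true) (by simp [fg1])
    rw [fs1_merge hX, fll_app _ _ _ _ _ _ (by omega), fll_app _ _ _ _ _ _ (by omega)]
    refine at_x Q _ [⟨.cap, 1⟩] _ ?_ _ _ ?_
    · rw [fll_len _ _ _ _ (by omega), hx]
      simp only [upw, bd, List.map_cons, List.map_nil]
      congr 2
      omega
    · simp only [fll]
      rw [srun_cons, st1, srun_nil_bind]
      simp only [sloc]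
      rw [if_pos (by rw [bar_ed, hvv]), Multiset.map_singleton, hvv]
      exact Multiset.mem_singleton_self _
  | twist p j =>
    simp only [bt] at h
    split_ifs at h with h1
    obtain ⟨x, v, y, rfl, hx⟩ := cut1 vs (j + 1) (by omega)
    obtain ⟨X', f, Y, rfl, hX⟩ := cut1 φ (j + 1) (by omega)
    rw [rst_twist, fs1_twist hX, fll_app _ _ _ _ _ _ (by omega), fll_app _ _ _ _ _ _ (by omega)]
    refine at_x Q _ [X p 0] _ ?_ _ _ ?_
    · rw [fll_len _ _ _ _ (by omega), hx]
      simp only [upw, bd, X, List.map_cons, List.map_nil]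
      congr 2
      omega
    · simp only [fll]
      have e1 : ed Q f (u v) = Q.bar (ed Q (!f) (u v)) := by rw [bar_ed, Bool.not_not]
      rw [Bool.not_not, e1, l_twist]
      exact Multiset.mem_singleton_self _
  | cross p j =>
    simp only [bt] at h
    split_ifs at h with h1
    obtain ⟨x, v, v', y, rfl, hx⟩ := cut2 vs (j + 1) (by omega)
    obtain ⟨X', f, f', Y, rfl, hX⟩ := cut2 φ (j + 1) (by omega)
    rw [rst_cross hx, fs1_cross hX, fll_app _ _ _ _ _ _ (by omega), fll_app _ _ _ _ _ _ (by omega)]
    refine at_x Q _ [X p 1, X p 0, X p 2, X p 1] _ ?_ _ _ ?_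
    · rw [fll_len _ _ _ _ (by omega), hx]
      simp only [upw, bd, X, List.map_cons, List.map_nil, List.cons.injEq, Sl.mk.injEq, true_and,
        and_true]
      omega
    · simp only [fll]
      have e1 : ed Q f (u v) = Q.bar (ed Q (!f) (u v)) := by rw [bar_ed, Bool.not_not]
      have e2 : ed Q f' (u v') = Q.bar (ed Q (!f') (u v')) := by rw [bar_ed, Bool.not_not]
      rw [e1, e2, l_cross]
      exact Multiset.mem_singleton_self _
  | passR p j =>
    simp only [bt] at h
    split_ifs at h with h1
    obtain ⟨x, v, v', y, rfl, hx⟩ := cut2 vs (j + 1) (by omega)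
    obtain ⟨X', f, f', Y, rfl, hX⟩ := cut2 φ (j + 1) (by omega)
    rw [rst_passR hx] at hs ⊢
    rw [fg1_passR hX] at hs
    have hvv : u k = Q.op (ed Q (if p then !f' else f') (u v')) (u v) :=
      hs (Row.ps v k v', if p then !f' else f') (by simp)
    rw [fs1_passR hX, fll_app _ _ _ _ _ _ (by omega), fll_app _ _ _ _ _ _ (by omega)]
    refine at_x Q _ [X p 1, X p 0, X (!p) 2, X (!p) 1] _ ?_ _ _ ?_
    · rw [fll_len _ _ _ _ (by omega), hx]
      simp only [upw, bd, X, List.map_cons, List.map_nil, List.cons.injEq, Sl.mk.injEq, true_and,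
        and_true]
      omega
    · simp only [fll]
      have e1 : ed Q f (u v) = Q.bar (ed Q (!f) (u v)) := by rw [bar_ed, Bool.not_not]
      have e2 : ed Q f' (u v') = Q.bar (ed Q (!f') (u v')) := by rw [bar_ed, Bool.not_not]
      rw [hvv, op_ed, op_ed]
      cases p
      · rw [e1, e2, l_passR]
        simp only [Bool.false_eq_true, if_false]
        rw [e2]
        exact Multiset.mem_singleton_self _
      · rw [e1, e2, l_passR]
        simp only [if_true]
        exact Multiset.mem_singleton_self _
  | passL p j =>
    simp only [bt] at h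
    split_ifs at h with h1
    obtain ⟨x, v, v', y, rfl, hx⟩ := cut2 vs (j + 1) (by omega)
    obtain ⟨X', f, f', Y, rfl, hX⟩ := cut2 φ (j + 1) (by omega)
    rw [rst_passL hx] at hs ⊢
    rw [fg1_passL hX] at hs
    have hvv : u k = Q.op (ed Q (if p then f else !f) (u v)) (u v') :=
      hs (Row.ps v' k v, if p then f else !f) (by simp)
    rw [fs1_passL hX, fll_app _ _ _ _ _ _ (by omega), fll_app _ _ _ _ _ _ (by omega)]
    refine at_x Q _ [X p 1, X p 2, X (!p) 0, X (!p) 1] _ ?_ _ _ ?_
    · rw [fll_len _ _ _ _ (by omega), hx]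
      simp only [upw, bd, X, List.map_cons, List.map_nil, List.cons.injEq, Sl.mk.injEq, true_and,
        and_true]
      omega
    · simp only [fll]
      have e1 : ed Q f (u v) = Q.bar (ed Q (!f) (u v)) := by rw [bar_ed, Bool.not_not]
      have e2 : ed Q f' (u v') = Q.bar (ed Q (!f') (u v')) := by rw [bar_ed, Bool.not_not]
      rw [hvv, op_ed, op_ed]
      cases p
      · rw [e1, e2, l_passL]
        simp only [Bool.false_eq_true, if_false]
        exact Multiset.mem_singleton_self _
      · rw [e1, e2, l_passL]
        simp only [if_true]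
        rw [e1]
        exact Multiset.mem_singleton_self _

private theorem fs1_len (s : Bd) (n m : ℕ) (h : bt s n = some m) (b : Bool) (φ : List Bool)
    (hφ : φ.length = n + 1) : (fs1 s b φ).length = m + 1 := by
  cases s <;> simp only [bt] at h <;> split_ifs at h with h1 <;>
    simp only [Option.some.injEq] at h <;> subst h <;>
    simp only [fs1, List.length_append, List.length_take, List.length_cons, List.length_drop] <;>
    omega

private theorem new_mem (s : Bd) (k : ℕ) (vs : List ℕ) (v : ℕ) (hv : v < k + bp s) :
    v < k ∨ v ∈ (rst s k vs).2.2 := by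
  cases s with
  | birth j =>
    have h1 : bp (.birth j) = 1 := rfl
    rw [h1] at hv
    rcases Nat.lt_or_ge v k with h | h
    · exact Or.inl h
    · have h2 : v = k := by omega
      subst h2
      exact Or.inr (by simp [rst])
  | passR p j =>
    have h1 : bp (.passR p j) = 1 := rfl
    rw [h1] at hv
    rcases Nat.lt_or_ge v k with h | h
    · exact Or.inl h
    · have h2 : v = k := by omega
      subst h2
      exact Or.inr (by simp [rst])
  | passL p j =>
    have h1 : bp (.passL p j) = 1 := rfl
    rw [h1] at hv
    rcases Nat.lt_or_ge v k with h | h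
    · exact Or.inl h
    · have h2 : v = k := by omega
      subst h2
      exact Or.inr (by simp [rst])
  | death j => exact Or.inl hv
  | split j => exact Or.inl hv
  | merge j => exact Or.inl hv
  | twist p j => exact Or.inl hv
  | cross p j => exact Or.inl hv

private theorem run_main (Q : Sq C) (x : ℕ → Bool) {ι : Type} (U : ι → ℕ → C) (S : List Bd) :
    ∀ (n m k : ℕ) (vs : List ℕ) (φ : List Bool) (F : Finset ι),
    bty S n = some m → vs.length = n + 1 → φ.length = n + 1 → (∀ v ∈ vs, v < k) → 0 < k →
    okk S k x φ →
    (∀ i ∈ F, ∀ p ∈ (rows S k vs).zip (fgs S k x φ), Sat Q (U i) p.2 p.1) →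
    (∀ i ∈ F, ∀ j ∈ F, ∀ v < k, U i v = U j v) →
    (∀ i ∈ F, ∀ j ∈ F, (∀ v < k + births S + passes S, U i v = U j v) → i = j) →
    ∀ i0 ∈ F, F.card ≤ Multiset.card (srun Q (upw (bdw S)) (fll Q (U i0) vs φ)) := by
  classical
  induction S with
  | nil =>
    intro n m k vs φ F _ _ _ _ _ _ _ hag hdf i0 _
    have h1 : Multiset.card (srun Q (upw (bdw [])) (fll Q (U i0) vs φ)) = 1 := by
      rw [bdw_nil]
      exact Multiset.card_singleton _
    rw [h1, Finset.card_le_one]
    exact fun i hi j hj => hdf i hi j hj fun v hv => hag i hi j hj v (by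
      simpa [births, passes] using hv)
  | cons s S ih =>
    intro n m k vs φ F hty hv hφ hlt hk0 hok hsat hag hdf i0 hi0
    simp only [bty] at hty
    cases h1 : bt s n with
    | none => rw [h1] at hty; simp at hty
    | some q =>
      rw [h1] at hty
      have hty' : bty S q = some m := hty
      have hrows := rows_cons s S k vs
      have hfgs : fgs (s :: S) k x φ = fg1 s φ ++ fgs S (k + bp s) x (fs1 s (x k) φ) := rfl
      have hlen : (rst s k vs).1.length = (fg1 s φ).length := (fg1_len s φ k vs).symm
      have hmem : ∀ i ∈ F, fll Q (U i) (rst s k vs).2.2 (fs1 s (x k) φ) ∈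
          srun Q (upw (bd s)) (fll Q (U i0) vs φ) := by
        intro i hi
        rw [fll_congr Q (U i0) (U i) vs φ fun v hvv => hag i0 hi0 i hi v (hlt v hvv)]
        refine run_step Q s n q k h1 (x k) (U i) vs φ hv hφ hok.1 fun p hp => ?_
        refine hsat i hi p ?_
        rw [hrows, hfgs, List.zip_append hlen]
        exact List.mem_append_left _ hp
      obtain ⟨z, hz⟩ : ∃ z : ι → List C, ∀ i, z i =
        fll Q (U i) (rst s k vs).2.2 (fs1 s (x k) φ) := ⟨_, fun _ => rfl⟩
      have hle : (F.image z).val ≤ srun Q (upw (bd s)) (fll Q (U i0) vs φ) := by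
        rw [Multiset.le_iff_subset (F.image z).nodup]
        intro t ht
        have ht' : t ∈ F.image z := ht
        obtain ⟨i, hi, rfl⟩ := Finset.mem_image.1 ht'
        rw [hz]
        exact hmem i hi
      obtain ⟨M', hM'⟩ := Multiset.le_iff_exists_add.1 hle
      rw [bdw_cons, upw_append, srun_append, hM', Multiset.add_bind, Multiset.card_add,
        Multiset.card_bind, Finset.card_eq_sum_card_image z F]
      refine le_trans ?_ (Nat.le_add_right _ _)
      have h2 : (Multiset.map (Multiset.card ∘ srun Q (upw (bdw S))) (F.image z).val).sum =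
          ∑ t ∈ F.image z, Multiset.card (srun Q (upw (bdw S)) t) := rfl
      rw [h2]
      refine Finset.sum_le_sum fun t ht => ?_
      obtain ⟨i1, hi1, rfl⟩ := Finset.mem_image.1 ht
      have hsub : ∀ i ∈ F.filter (fun a => z a = z i1), i ∈ F ∧ z i = z i1 := fun i hi =>
        Finset.mem_filter.1 hi
      have hvl : (rst s k vs).2.2.length = q + 1 := rst_len s k n q vs h1 hv
      have hfl : (fs1 s (x k) φ).length = q + 1 := fs1_len s n q h1 (x k) φ hφ
      have h3 := ih q m (k + bp s) (rst s k vs).2.2 (fs1 s (x k) φ)
        (F.filter (fun a => z a = z i1)) hty' hvl hfl (by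
          have := rst_lt s k vs hk0 hlt
          rw [rst_cnt] at this
          exact this) (by omega) hok.2 (by
          intro i hi p hp
          refine hsat i (hsub i hi).1 p ?_
          rw [hrows, hfgs, List.zip_append hlen]
          exact List.mem_append_right _ hp) (by
          intro i hi j hj v hv'
          rcases new_mem s k vs v hv' with h4 | h4
          · exact hag i (hsub i hi).1 j (hsub j hj).1 v h4
          · have h5 : z i = z j := (hsub i hi).2.trans (hsub j hj).2.symm
            rw [hz, hz] at h5
            exact fll_inj Q _ _ _ _ (by rw [hvl, hfl]) h5 v h4) (by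
          intro i hi j hj h4
          refine hdf i (hsub i hi).1 j (hsub j hj).1 fun v hv' => h4 v ?_
          rw [births_cons s S, passes_cons s S] at hv'
          unfold bp
          omega) i1 (Finset.mem_filter.2 ⟨hi1, rfl⟩)
      rw [← hz] at h3
      exact h3

end aux

theorem card_le_srun {C : Type} [Fintype C] [DecidableEq C] (Q : Sq C) (x : ℕ → Bool) (S : List Bd)
    (hS : Dsk S) (hx : okk S 1 x [true]) {ι : Type} [Fintype ι] (U : ι → ℕ → C) (c : C) (h0 : ∀ i, U i 0 = c)
    (hsat : ∀ i, ∀ p ∈ (rows S 1 [0]).zip (fgs S 1 x [true]), Sat Q (U i) p.2 p.1)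
    (hinj : ∀ i j, (∀ v ≤ births S + passes S, U i v = U j v) → i = j) :
    Fintype.card ι ≤ Multiset.card (srun Q (bdw S) [c]) := by
  classical
  rcases isEmpty_or_nonempty ι with hι | ⟨⟨i0⟩⟩
  · rw [Fintype.card_eq_zero]
    exact Nat.zero_le _
  have h1 := run_main Q x U S 0 0 1 [0] [true] Finset.univ hS.1 rfl rfl
    (by intro v hv; rw [List.mem_singleton] at hv; omega) Nat.one_pos hx (fun i _ => hsat i)
    (fun i _ j _ v hv => by
      have hv0 : v = 0 := by omega
      subst hv0
      rw [h0, h0])
    (fun i _ j _ h => hinj i j fun v hv => h v (by omega)) i0 (Finset.mem_univ _)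
  have h2 : fll Q (U i0) [0] [true] = [Q.bar c] ++ [c] := by
    show [ed Q (!true) (U i0 0), ed Q true (U i0 0)] = _
    rw [h0]
    rfl
  have h3 := srun_shift Q (bdw S) [Q.bar c] [c]
  rw [h2] at h1
  have h4 : upw (bdw S) = (bdw S).map (fun s => (⟨s.k, [Q.bar c].length + s.i⟩ : Sl)) := rfl
  rw [h4, h3, Multiset.card_map] at h1
  exact h1

end Pool.Agent.H86.RN
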